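import Mathlib
import Pool.Agent.HighD2.Tools

/-!
A low set whose columns solve all (nonempty) `Π⁰₁` classes relative to the previous columns.
-/

set_option autoImplicit false

namespace HighD3

open Encodable Denumerable Filter
open Nat.Partrec (Code)
open JumpDeg HighD2

/-- the columns of `Y` with index `< q` -/
def mask (q : ℕ) (Y : ℕ → Bool) : ℕ → Bool := fun m => decide (m.unpair.1 < q) && Y m

/-- the same for strings -/
def maskL (q : ℕ) (ξ : List Bool) : List Bool :=
  (List.range ξ.length).map (fun m => decide (m.unpair.1 < q) && ξ.getD m false)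

lemma mask_pair {q p x : ℕ} {Y : ℕ → Bool} (h : p < q) : mask q Y (Nat.pair p x) = Y (Nat.pair p x) := by
  simp [mask, h]

lemma primrec_maskL : Primrec₂ maskL := by
  unfold maskL
  refine Primrec.list_map (Primrec.list_range.comp (Primrec.list_length.comp Primrec.snd)) ?_
  have h1 : PrimrecPred (fun a : (ℕ × List Bool) × ℕ => a.2.unpair.1 < a.1.1) :=
    Primrec.nat_lt.comp (Primrec.fst.comp (Primrec.unpair.comp Primrec.snd))
      (Primrec.fst.comp Primrec.fst)
  exact (Primrec.and.comp (PrimrecPred.decide h1)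
    ((Primrec.list_getD false).comp (Primrec.snd.comp Primrec.fst) Primrec.snd)).to₂

lemma maskL_pre (q : ℕ) (Y : ℕ → Bool) (t : ℕ) :
    maskL q (JumpDeg.pre Y t) = JumpDeg.pre (mask q Y) t := by
  unfold maskL
  rw [length_pre]
  conv_rhs => unfold JumpDeg.pre
  apply List.map_congr_left
  intro i hi
  rw [List.mem_range] at hi
  simp [List.getD, getElem?_pre_of_lt Y hi, mask]

lemma maskL_length (q : ℕ) (ξ : List Bool) : (maskL q ξ).length = ξ.length := by
  simp [maskL]

lemma maskL_take {ξ ξ' : List Bool} (hx : ξ <+: ξ') {q b : ℕ} (h : b ≤ ξ.length) :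
    (maskL q ξ).take b = (maskL q ξ').take b := by
  unfold maskL
  have h' := hx.length_le
  rw [← List.map_take, ← List.map_take, List.take_range, List.take_range,
    min_eq_left h, min_eq_left (h.trans h')]
  apply List.map_congr_left
  intro i hi
  rw [List.mem_range] at hi
  obtain ⟨ρ, rfl⟩ := hx
  rw [List.getD_append _ _ _ _ (by omega)]

theorem low_scott {U : ℕ × List Bool × List Bool → Prop} (hU : Sig {zeroO} (fun _ p => U p)) :
    ∃ Y : ℕ → Bool, Low Y ∧ ∀ q,
      (∃ Z : ℕ → Bool, ∀ t, ¬ U (q, JumpDeg.pre Z t, JumpDeg.pre (mask q Y) t)) →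
      ∀ t, ¬ U (q, JumpDeg.pre (col Y q) t, JumpDeg.pre (mask q Y) t) := by
  classical
  obtain ⟨R, h1, h2, h3⟩ := hU
  have h3' := h3 zeroO rfl
  -- decidable approximation
  let V : ℕ × List Bool × List Bool → Prop := fun p =>
    ∃ l < p.2.1.length + 1, R ((p.1, p.2.1.take l, p.2.2.take l), JumpDeg.pre zeroO p.2.1.length)
  have hV : PrimrecPred V := by
    have : PrimrecPred (fun a : (ℕ × List Bool × List Bool) × ℕ =>
        R ((a.1.1, a.1.2.1.take a.2, a.1.2.2.take a.2), JumpDeg.pre zeroO a.1.2.1.length)) :=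
      h1.comp (Primrec.pair (Primrec.pair (Primrec.fst.comp Primrec.fst)
        (Primrec.pair
          (Primrec.list_take.comp Primrec.snd (Primrec.fst.comp (Primrec.snd.comp Primrec.fst)))
          (Primrec.list_take.comp Primrec.snd (Primrec.snd.comp (Primrec.snd.comp Primrec.fst)))))
        (primrec_pre_zero.comp (Primrec.list_length.comp (Primrec.fst.comp
          (Primrec.snd.comp Primrec.fst)))))
    exact prim_exists_lt this (Primrec.succ.comp (Primrec.list_length.comp
      (Primrec.fst.comp Primrec.snd)))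
  have hVm : ∀ q σ τ η θ, σ <+: τ → η <+: θ → σ.length ≤ η.length →
      V (q, σ, η) → V (q, τ, θ) := by
    rintro q σ τ η θ h h' hl' ⟨l, hl, hR⟩
    have h4 := h.length_le
    simp only at hl hR
    refine ⟨l, by simp only; omega, ?_⟩
    simp only
    obtain ⟨ρ, rfl⟩ := h
    obtain ⟨ρ', rfl⟩ := h'
    rw [List.take_append_of_le_length (by omega), List.take_append_of_le_length (by omega)]
    exact h2 _ _ _ (pre_prefix_pre _ h4) hR
  have hVU : ∀ q (Z M : ℕ → Bool), (∃ t, V (q, JumpDeg.pre Z t, JumpDeg.pre M t)) ↔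
      ∃ t, U (q, JumpDeg.pre Z t, JumpDeg.pre M t) := by
    intro q Z M
    constructor
    · rintro ⟨t, l, hl, hR⟩
      simp only [length_pre] at hl hR
      rw [take_pre, take_pre, min_eq_left (by omega)] at hR
      exact ⟨l, (h3' _).2 ⟨_, hR⟩⟩
    · rintro ⟨t, ht⟩
      obtain ⟨s, hs⟩ := (h3' _).1 ht
      refine ⟨max t s, t, by simp, ?_⟩
      simp only [length_pre]
      rw [take_pre, take_pre, min_eq_left (le_max_left _ _)]
      exact h2 _ _ _ (pre_prefix_pre _ (le_max_right _ _)) hs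
  -- the product class
  let Fu : (ℕ × ℕ) × List Bool → Prop := fun p =>
    ∀ z < 2 ^ p.1.2, V (p.1.1, bitStr z p.1.2, p.2.take p.1.2)
  have hFu : PrimrecPred Fu := by
    have : PrimrecPred (fun a : ((ℕ × ℕ) × List Bool) × ℕ =>
        V (a.1.1.1, bitStr a.2 a.1.1.2, a.1.2.take a.1.1.2)) :=
      hV.comp (Primrec.pair (Primrec.fst.comp (Primrec.fst.comp Primrec.fst))
        (Primrec.pair
          (primrec_bitStr.comp Primrec.snd (Primrec.snd.comp (Primrec.fst.comp Primrec.fst)))
          (Primrec.list_take.comp (Primrec.snd.comp (Primrec.fst.comp Primrec.fst))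
            (Primrec.snd.comp Primrec.fst))))
    exact prim_forall_lt this (primrec_pow2.comp (Primrec.snd.comp Primrec.fst))
  let W : List Bool → Prop := fun ξ => ∃ p : ℕ × ℕ,
    (((∀ i < p.2, Nat.pair p.1 i < ξ.length) ∧ p.2 ≤ ξ.length) ∧
      V (p.1, colL ξ p.1 p.2, (maskL p.1 ξ).take p.2)) ∧ ¬ Fu (p, maskL p.1 ξ)
  have hW : Sig {zeroO} (fun _ ξ => W ξ) := by
    have hA : PrimrecPred (fun a : List Bool × ℕ × ℕ =>
        ∀ i < a.2.2, Nat.pair a.2.1 i < a.1.length) := by
      have : PrimrecPred (fun a : (List Bool × ℕ × ℕ) × ℕ =>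
          Nat.pair a.1.2.1 a.2 < a.1.1.length) :=
        Primrec.nat_lt.comp (Primrec₂.natPair.comp (Primrec.fst.comp (Primrec.snd.comp
          Primrec.fst)) Primrec.snd) (Primrec.list_length.comp (Primrec.fst.comp Primrec.fst))
      exact prim_forall_lt this (Primrec.snd.comp Primrec.snd)
    have hA' : PrimrecPred (fun a : List Bool × ℕ × ℕ => a.2.2 ≤ a.1.length) :=
      Primrec.nat_le.comp (Primrec.snd.comp Primrec.snd) (Primrec.list_length.comp Primrec.fst)
    have hmk : Primrec (fun a : List Bool × ℕ × ℕ => maskL a.2.1 a.1) :=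
      primrec_maskL.comp (Primrec.fst.comp Primrec.snd) Primrec.fst
    have hB : PrimrecPred (fun a : List Bool × ℕ × ℕ =>
        V (a.2.1, colL a.1 a.2.1 a.2.2, (maskL a.2.1 a.1).take a.2.2)) :=
      hV.comp (Primrec.pair (Primrec.fst.comp Primrec.snd) (Primrec.pair primrec_colL
        (Primrec.list_take.comp (Primrec.snd.comp Primrec.snd) hmk)))
    have hC : PrimrecPred (fun a : List Bool × ℕ × ℕ => ¬ Fu (a.2, maskL a.2.1 a.1)) :=
      (hFu.comp (Primrec.pair Primrec.snd hmk)).not
    exact (Sig.of_prim (((hA.and hA').and hB).and hC)).ex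
  have hWm : ∀ σ τ, σ <+: τ → W σ → W τ := by
    rintro σ τ h ⟨p, ⟨⟨ha, ha'⟩, hb⟩, hc⟩
    have e1 : (maskL p.1 σ).take p.2 = (maskL p.1 τ).take p.2 := maskL_take h ha'
    refine ⟨p, ⟨⟨fun i hi => (ha i hi).trans_le h.length_le, ha'.trans h.length_le⟩, ?_⟩, ?_⟩
    · rwa [← colL_mono h ha, ← e1]
    · simp only [Fu] at hc ⊢
      rwa [← e1]
  have hcol : ∀ (q : ℕ) (M : ℕ → Bool), ∃ Z : ℕ → Bool, ∀ b,
      (∀ z < 2 ^ b, V (q, bitStr z b, JumpDeg.pre M b)) ∨
        ¬ V (q, JumpDeg.pre Z b, JumpDeg.pre M b) := by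
    intro q M
    by_cases hb : ∃ b, ∀ z < 2 ^ b, V (q, bitStr z b, JumpDeg.pre M b)
    · have hspec := Nat.find_spec hb
      have hmin : ∀ m < Nat.find hb, ¬ ∀ z < 2 ^ m, V (q, bitStr z m, JumpDeg.pre M m) :=
        fun m hm => Nat.find_min hb hm
      rcases Nat.eq_zero_or_pos (Nat.find hb) with h0 | hpos
      · refine ⟨fun _ => false, fun b => Or.inl ?_⟩
        intro z _
        rw [h0] at hspec
        refine hVm q (bitStr 0 0) _ (JumpDeg.pre M 0) _ ?_ ?_ ?_ (hspec 0 (by simp))
        · exact List.nil_prefix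
        · exact pre_prefix_pre _ (Nat.zero_le _)
        · simp [bitStr]
      · have h4 := hmin (Nat.find hb - 1) (by omega)
        push Not at h4
        obtain ⟨z, hz, hzV⟩ := h4
        refine ⟨bitOf z, fun b => ?_⟩
        by_cases hbb : b < Nat.find hb
        · right
          intro hV'
          apply hzV
          rw [bitStr_eq_pre]
          exact hVm _ _ _ _ _ (pre_prefix_pre _ (by omega)) (pre_prefix_pre _ (by omega))
            (by simp) hV'
        · left
          intro z' _
          obtain ⟨z'', hz'', h5⟩ := exists_bitStr (bitOf z') (Nat.find hb)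
          have h6 := hspec z'' hz''
          rw [h5] at h6
          refine hVm _ _ _ _ _ ?_ (pre_prefix_pre _ (by omega)) (by simp) h6
          rw [bitStr_eq_pre]
          exact pre_prefix_pre _ (by omega)
    · push Not at hb
      by_contra hcon
      push Not at hcon
      have h5 : ∀ Z : ℕ → Bool, ∃ t, V (q, JumpDeg.pre Z t, JumpDeg.pre M t) := by
        intro Z
        obtain ⟨b, _, hb2⟩ := hcon Z
        exact ⟨b, hb2⟩
      obtain ⟨b, hb'⟩ := compactness (P := fun ξ => V (q, ξ, JumpDeg.pre M ξ.length))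
        (fun σ τ h hv => hVm q σ τ _ _ h (pre_prefix_pre _ h.length_le) (by simp) hv)
        (fun Z => by
          obtain ⟨t, ht⟩ := h5 Z
          exact ⟨t, by simpa using ht⟩)
      obtain ⟨z, hz, hzV⟩ := hb b
      apply hzV
      have := hb' (bitOf z)
      rw [length_pre] at this
      rw [bitStr_eq_pre]
      exact this
  choose Zc hZc using hcol
  let G : ∀ q : ℕ, (∀ p, p < q → (ℕ → Bool)) → (ℕ → Bool) := fun q ih =>
    Zc q (fun m => if h : m.unpair.1 < q then ih _ h m.unpair.2 else false)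
  let C : ℕ → ℕ → Bool := Nat.lt_wfRel.wf.fix G
  have hC : ∀ q, C q = Zc q (fun m => if m.unpair.1 < q then C m.unpair.1 m.unpair.2 else false) := by
    intro q
    have := Nat.lt_wfRel.wf.fix_eq G q
    show Nat.lt_wfRel.wf.fix G q = _
    rw [this]
    show Zc q _ = Zc q _
    congr 1
  have hne : ∃ Z : ℕ → Bool, ∀ t, ¬ W (JumpDeg.pre Z t) := by
    refine ⟨fun m => C m.unpair.1 m.unpair.2, fun t => ?_⟩
    rintro ⟨⟨q, b⟩, ⟨⟨ha, ha'⟩, hb⟩, hc⟩
    simp only [length_pre] at ha ha' hb hc
    have hmk : mask q (fun m => C m.unpair.1 m.unpair.2) =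
        (fun m => if m.unpair.1 < q then C m.unpair.1 m.unpair.2 else false) := by
      funext m
      unfold mask
      by_cases h : m.unpair.1 < q <;> simp [h]
    have h6 : col (fun m => C m.unpair.1 m.unpair.2) q = C q := by
      funext i
      simp [col]
    rw [colL_pre ha, maskL_pre, take_pre, min_eq_left ha', h6, hmk] at hb
    simp only [Fu] at hc
    rw [maskL_pre, take_pre, min_eq_left ha', hmk] at hc
    rw [hC q] at hb
    rcases hZc q (fun m => if m.unpair.1 < q then C m.unpair.1 m.unpair.2 else false) b with h7 | h7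
    · exact hc h7
    · exact h7 hb
  obtain ⟨Z, hZ1, hZ2⟩ := low_basis low_zero (U := fun _ ξ => W ξ) hW hWm hne
  refine ⟨Z, hZ2.of_red (red_join_right _ _), ?_⟩
  rintro q ⟨Z', hZ'⟩ t ht
  obtain ⟨b, hb⟩ := (hVU q (col Z q) (mask q Z)).2 ⟨t, ht⟩
  by_cases hF : ∀ z < 2 ^ b, V (q, bitStr z b, JumpDeg.pre (mask q Z) b)
  · obtain ⟨z, hz, hzz⟩ := exists_bitStr Z' b
    have h8 := hF z hz
    rw [hzz] at h8
    obtain ⟨t', ht'⟩ := (hVU q Z' (mask q Z)).1 ⟨b, h8⟩
    exact hZ' t' ht'
  · -- the refutation is found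
    obtain ⟨s, hs⟩ : ∃ s, (∀ i < b, Nat.pair q i < s) ∧ b ≤ s := by
      refine ⟨Nat.pair q b + 1 + b, fun i hi => ?_, by omega⟩
      have := Nat.pair_lt_pair_right q hi
      omega
    refine hZ1 s ⟨(q, b), ⟨⟨by simpa using hs.1, by simpa using hs.2⟩, ?_⟩, ?_⟩
    · simp only
      rw [colL_pre hs.1, maskL_pre, take_pre, min_eq_left hs.2]
      exact hb
    · simp only [Fu]
      rw [maskL_pre, take_pre, min_eq_left hs.2]
      exact hF

end HighD3
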