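import Mathlib
import Pool.Agent.HighD3.Scott
import Pool.Agent.HighD2.Verify

/-!
Questions about reservoirs given by finitely many columns of a low set, and the splitting
property of the columns of that low set.
-/

set_option autoImplicit false

namespace HighD3

open Encodable Denumerable Filter
open Nat.Partrec (Code)
open JumpDeg HighD2

section
variable {α β : Type*} [Primcodable α] [Primcodable β]

lemma prim_forall_mem {p : α × β → Prop} (hp : PrimrecPred p) {f : α → List β} (hf : Primrec f) :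
    PrimrecPred fun a => ∀ b ∈ f a, p (a, b) := by
  have hR : PrimrecRel (fun (b : β) (a : α) => p (a, b)) :=
    hp.comp (Primrec.pair Primrec.snd Primrec.fst)
  exact (hR.forall_mem_list.comp hf Primrec.id).of_eq (by simp)

end

/-! ### convergence along strings -/

/-- the code with number `d` converges along `τ` -/
def conv (d : ℕ) (τ : List Bool) : Prop :=
  ∃ l < τ.length + 1, (Code.eval (ofNat Code d) (encode (τ.take l))).Dom

lemma conv.mono {d : ℕ} {σ τ : List Bool} (h : σ <+: τ) (hc : conv d σ) : conv d τ := by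
  obtain ⟨l, hl, hd⟩ := hc
  refine ⟨l, by have := h.length_le; omega, ?_⟩
  obtain ⟨ρ, rfl⟩ := h
  rwa [List.take_append_of_le_length (by omega)]

lemma sig_conv {D : Set (ℕ → Bool)} : Sig D (fun _ (q : ℕ × List Bool) => conv q.1 q.2) := by
  have h1 : Sig D (fun _ (q : (ℕ × List Bool) × ℕ) => q.2 < q.1.2.length + 1 ∧
      (Code.eval (ofNat Code q.1.1) (encode (q.1.2.take q.2))).Dom) := by
    refine (Sig.of_prim ?_).and ?_
    · exact Primrec.nat_lt.comp Primrec.snd (Primrec.succ.comp (Primrec.list_length.comp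
        (Primrec.snd.comp Primrec.fst)))
    · exact sig_dom.comp (f := fun q : (ℕ × List Bool) × ℕ => (q.1.1, q.1.2.take q.2))
        (Primrec.pair (Primrec.fst.comp Primrec.fst)
          (Primrec.list_take.comp Primrec.snd (Primrec.snd.comp Primrec.fst)))
  exact h1.ex

lemma conv_jump {G : ℕ → Bool} {d t : ℕ} {σ : List Bool} (h : σ <+: JumpDeg.pre G t)
    (hc : conv d σ) : jump G d = true := by
  obtain ⟨l, hl, hd⟩ := hc.mono h
  rw [length_pre] at hl
  rw [take_pre, min_eq_left (by omega)] at hd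
  exact jump_eq_true.2 ⟨l, hd⟩

lemma jump_conv {G : ℕ → Bool} {d : ℕ} (h : jump G d = true) :
    ∃ t0, ∀ t, t0 ≤ t → conv d (JumpDeg.pre G t) := by
  obtain ⟨l, hl⟩ := jump_eq_true.1 h
  refine ⟨l, fun t ht => ⟨l, by rw [length_pre]; omega, ?_⟩⟩
  rwa [take_pre, min_eq_left ht]

open Classical in
/-- the bits of the jump, as they appear along `τ` -/
noncomputable def bits (τ : List Bool) (u : ℕ) : List Bool :=
  JumpDeg.pre (fun d => decide (conv d τ)) u

lemma length_bits (τ : List Bool) (u : ℕ) : (bits τ u).length = u := by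
  unfold bits
  exact length_pre _ _

lemma bits_getD {τ : List Bool} {u d : ℕ} (h : d < u) :
    (bits τ u).getD d true = false ↔ ¬ conv d τ := by
  classical
  unfold bits
  rw [List.getD, getElem?_pre_of_lt _ h]
  simp

/-! ### reservoirs -/

/-- membership in a reservoir -/
def InR (Y : ℕ → Bool) (L : List (ℕ × Bool)) (x : ℕ) : Prop :=
  ∀ p ∈ L, Y (Nat.pair p.1 x) = p.2

lemma inR_nil (Y : ℕ → Bool) (x : ℕ) : InR Y [] x := by
  intro p hp
  cases hp

lemma inR_cons {Y : ℕ → Bool} {p : ℕ × Bool} {L : List (ℕ × Bool)} {x : ℕ} :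
    InR Y (p :: L) x ↔ Y (Nat.pair p.1 x) = p.2 ∧ InR Y L x := by
  unfold InR
  simp

lemma sig_inR {D : Set (ℕ → Bool)} :
    Sig D (fun Y (q : List (ℕ × Bool) × ℕ) => InR Y q.1 q.2) := by
  have hg : Primrec (fun a : (List (ℕ × Bool) × ℕ) × ℕ => a.1.1.getD a.2 (0, false)) :=
    (Primrec.list_getD (0, false)).comp (Primrec.fst.comp Primrec.fst) Primrec.snd
  have h1 : Sig D (fun Y (a : (List (ℕ × Bool) × ℕ) × ℕ) =>
      Y (Nat.pair (a.1.1.getD a.2 (0, false)).1 a.1.2) = (a.1.1.getD a.2 (0, false)).2) :=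
    Sig.oracle (Primrec₂.natPair.comp (Primrec.fst.comp hg) (Primrec.snd.comp Primrec.fst))
      (Primrec.snd.comp hg)
  refine (h1.ball (f := fun q : List (ℕ × Bool) × ℕ => q.1.length)
    (Primrec.list_length.comp Primrec.fst)).congr ?_
  rintro Y _ ⟨L, x⟩
  simp only
  constructor
  · intro h i hi
    have h2 : L.getD i (0, false) = L[i] := by simp [List.getD, hi]
    rw [h2]
    exact h _ (List.getElem_mem hi)
  · intro h p hp
    obtain ⟨i, hi, rfl⟩ := List.getElem_of_mem hp
    have h2 : L.getD i (0, false) = L[i] := by simp [List.getD, hi]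
    have h3 := h i hi
    rwa [h2] at h3

/-- the new elements of `τ` are in the reservoir, as seen in the string `η` -/
def RL (σ τ : List Bool) (L : List (ℕ × Bool)) (η : List Bool) : Prop :=
  ∀ i < τ.length, ∀ p ∈ L, σ.length ≤ i → τ.getD i false = true →
    η[Nat.pair p.1 i]? = some p.2

lemma primrec_RL : PrimrecPred (fun q : (List Bool × List Bool) × List (ℕ × Bool) × List Bool =>
    RL q.1.1 q.1.2 q.2.1 q.2.2) := by
  have h1 : PrimrecPred (fun a : (((List Bool × List Bool) × List (ℕ × Bool) × List Bool) × ℕ) ×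
      (ℕ × Bool) => (¬ a.1.1.1.1.length ≤ a.1.2) ∨ (¬ a.1.1.1.2.getD a.1.2 false = true) ∨
        a.1.1.2.2[Nat.pair a.2.1 a.1.2]? = some a.2.2) := by
    have hi : Primrec (fun a : (((List Bool × List Bool) × List (ℕ × Bool) × List Bool) × ℕ) ×
      (ℕ × Bool) => a.1.2) := Primrec.snd.comp Primrec.fst
    have hx : Primrec (fun a : (((List Bool × List Bool) × List (ℕ × Bool) × List Bool) × ℕ) ×
      (ℕ × Bool) => a.1.1) := Primrec.fst.comp Primrec.fst
    refine PrimrecPred.or (PrimrecPred.not ?_) (PrimrecPred.or (PrimrecPred.not ?_) ?_)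
    · exact Primrec.nat_le.comp (Primrec.list_length.comp (Primrec.fst.comp
        (Primrec.fst.comp hx))) hi
    · exact Primrec.eq.comp ((Primrec.list_getD false).comp
        (Primrec.snd.comp (Primrec.fst.comp hx)) hi) (Primrec.const true)
    · exact Primrec.eq.comp (Primrec.list_getElem?.comp (Primrec.snd.comp (Primrec.snd.comp hx))
        (Primrec₂.natPair.comp (Primrec.fst.comp Primrec.snd) hi))
        (Primrec.option_some.comp (Primrec.snd.comp Primrec.snd))
  have h2 := prim_forall_mem h1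
    (f := fun a : ((List Bool × List Bool) × List (ℕ × Bool) × List Bool) × ℕ => a.1.2.1)
    (Primrec.fst.comp (Primrec.snd.comp Primrec.fst))
  have h3 := prim_forall_lt h2
    (f := fun q : (List Bool × List Bool) × List (ℕ × Bool) × List Bool => q.1.2.length)
    (Primrec.list_length.comp (Primrec.snd.comp Primrec.fst))
  refine h3.of_eq ?_
  rintro ⟨⟨σ, τ⟩, L, η⟩
  unfold RL
  simp only
  constructor
  · intro h i hi p hp h5 h6
    rcases h i hi p hp with h7 | h7 | h7
    · exact absurd h5 h7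
    · exact absurd h6 h7
    · exact h7
  · intro h i hi p hp
    by_cases h5 : σ.length ≤ i
    · by_cases h6 : τ.getD i false = true
      · exact Or.inr (Or.inr (h i hi p hp h5 h6))
      · exact Or.inr (Or.inl h6)
    · exact Or.inl h5

/-- some extension of `σ` whose new elements are on the side `s` of `ζ` and in the reservoir
makes a `false` bit of `b` converge -/
def Half (s : Bool) (σ b : List Bool) (L : List (ℕ × Bool)) (ζ η : List Bool) : Prop :=
  ∃ p : List Bool × ℕ, ((p.1.length ≤ ζ.length ∧ σ <+: p.1 ∧ NewIn s σ p.1 ζ) ∧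
    RL σ p.1 L η ∧ p.2 < b.length ∧ b.getD p.2 true = false) ∧ conv p.2 p.1

lemma sig_half {D : Set (ℕ → Bool)} (s : Bool) :
    Sig D (fun _ (q : (List Bool × List Bool × List (ℕ × Bool)) × List Bool × List Bool) =>
      Half s q.1.1 q.1.2.1 q.1.2.2 q.2.1 q.2.2) := by
  have h1 : Sig D (fun _ (q : ((List Bool × List Bool × List (ℕ × Bool)) ×
      List Bool × List Bool) × List Bool × ℕ) =>
      ((q.2.1.length ≤ q.1.2.1.length ∧ q.1.1.1 <+: q.2.1 ∧ NewIn s q.1.1.1 q.2.1 q.1.2.1) ∧
        RL q.1.1.1 q.2.1 q.1.1.2.2 q.1.2.2 ∧ q.2.2 < q.1.1.2.1.length ∧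
          q.1.1.2.1.getD q.2.2 true = false) ∧ conv q.2.2 q.2.1) := by
    have hσ : Primrec (fun q : ((List Bool × List Bool × List (ℕ × Bool)) ×
      List Bool × List Bool) × List Bool × ℕ => q.1.1.1) :=
      Primrec.fst.comp (Primrec.fst.comp Primrec.fst)
    have hb : Primrec (fun q : ((List Bool × List Bool × List (ℕ × Bool)) ×
      List Bool × List Bool) × List Bool × ℕ => q.1.1.2.1) :=
      Primrec.fst.comp (Primrec.snd.comp (Primrec.fst.comp Primrec.fst))
    have hL : Primrec (fun q : ((List Bool × List Bool × List (ℕ × Bool)) ×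
      List Bool × List Bool) × List Bool × ℕ => q.1.1.2.2) :=
      Primrec.snd.comp (Primrec.snd.comp (Primrec.fst.comp Primrec.fst))
    have hζ : Primrec (fun q : ((List Bool × List Bool × List (ℕ × Bool)) ×
      List Bool × List Bool) × List Bool × ℕ => q.1.2.1) :=
      Primrec.fst.comp (Primrec.snd.comp Primrec.fst)
    have hη : Primrec (fun q : ((List Bool × List Bool × List (ℕ × Bool)) ×
      List Bool × List Bool) × List Bool × ℕ => q.1.2.2) :=
      Primrec.snd.comp (Primrec.snd.comp Primrec.fst)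
    have hτ : Primrec (fun q : ((List Bool × List Bool × List (ℕ × Bool)) ×
      List Bool × List Bool) × List Bool × ℕ => q.2.1) := Primrec.fst.comp Primrec.snd
    have hd : Primrec (fun q : ((List Bool × List Bool × List (ℕ × Bool)) ×
      List Bool × List Bool) × List Bool × ℕ => q.2.2) := Primrec.snd.comp Primrec.snd
    refine Sig.and (Sig.of_prim ?_) ?_
    · refine ((Primrec.nat_le.comp (Primrec.list_length.comp hτ)
        (Primrec.list_length.comp hζ)).and ((primrec_prefix.comp (Primrec.pair hσ hτ)).and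
        ((primrec_newIn s).comp (Primrec.pair hσ (Primrec.pair hτ hζ))))).and ?_
      refine (primrec_RL.comp (Primrec.pair (Primrec.pair hσ hτ) (Primrec.pair hL hη))).and ?_
      exact (Primrec.nat_lt.comp hd (Primrec.list_length.comp hb)).and
        (Primrec.eq.comp ((Primrec.list_getD true).comp hb hd) (Primrec.const false))
    · exact sig_conv.comp (f := fun q : ((List Bool × List Bool × List (ℕ × Bool)) ×
        List Bool × List Bool) × List Bool × ℕ => (q.2.2, q.2.1)) (Primrec.pair hd hτ)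
  exact h1.ex

lemma getElem?_prefix {η η' : List Bool} (h : η <+: η') {i : ℕ} {b : Bool}
    (hi : η[i]? = some b) : η'[i]? = some b :=
  prefix_iff_getElem?.1 h i b hi

lemma Half.mono {s : Bool} {σ b : List Bool} {L : List (ℕ × Bool)} {ζ ζ' η η' : List Bool}
    (h : ζ <+: ζ') (h' : η <+: η') (hh : Half s σ b L ζ η) : Half s σ b L ζ' η' := by
  obtain ⟨p, ⟨⟨h1, h2, h3⟩, h4, h5⟩, h6⟩ := hh
  refine ⟨p, ⟨⟨h1.trans h.length_le, h2, ?_⟩, ?_, h5⟩, h6⟩
  · intro i hi hi2 hi3
    rw [← h3 i hi hi2 hi3]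
    obtain ⟨ρ, rfl⟩ := h
    rw [List.getD_append _ _ _ _ (by omega)]
  · intro i hi q hq hi2 hi3
    exact getElem?_prefix h' (h4 i hi q hq hi2 hi3)

/-- divergence of the `false` bits -/
lemma no_conv_of_not_half {s : Bool} {σ b : List Bool} {L : List (ℕ × Bool)} {Z M G : ℕ → Bool}
    (h : ∀ t, ¬ Half s σ b L (JumpDeg.pre Z t) (JumpDeg.pre M t))
    (hG : σ <+: JumpDeg.pre G σ.length)
    (hGZ : ∀ i, σ.length ≤ i → G i = true → Z i = s ∧ ∀ p ∈ L, M (Nat.pair p.1 i) = p.2)
    {d : ℕ} (hd : d < b.length) (hb : b.getD d true = false) : jump G d = false := by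
  rw [← Bool.not_eq_true]
  intro hc
  obtain ⟨t0, ht0⟩ := jump_conv hc
  set t := max t0 σ.length with ht
  -- a large bound
  obtain ⟨T, hT1, hT2⟩ : ∃ T, t ≤ T ∧ ∀ p ∈ L, ∀ i < t, Nat.pair p.1 i < T := by
    have key : ∀ L : List (ℕ × Bool), ∃ T, t ≤ T ∧ ∀ p ∈ L, ∀ i < t, Nat.pair p.1 i < T := by
      intro L
      induction L with
      | nil => exact ⟨t, le_rfl, fun p hp => by cases hp⟩
      | cons p L ih =>
        obtain ⟨T, h1, h2⟩ := ih
        refine ⟨max T (Nat.pair p.1 t + 1), h1.trans (le_max_left _ _), ?_⟩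
        intro q hq i hi
        rcases List.mem_cons.1 hq with rfl | hq
        · have := Nat.pair_lt_pair_right q.1 hi
          exact lt_of_lt_of_le (by omega) (le_max_right _ _)
        · exact lt_of_lt_of_le (h2 q hq i hi) (le_max_left _ _)
    exact key L
  refine h T ⟨(JumpDeg.pre G t, d), ⟨⟨by simpa using hT1, ?_, ?_⟩, ?_, hd, hb⟩, ?_⟩
  · exact hG.trans (pre_prefix_pre G (le_max_right _ _))
  · intro i hi hi2 hi3
    simp only [length_pre] at hi
    simp only at hi3
    rw [getD_pre G hi] at hi3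
    rw [getD_pre Z (by omega)]
    exact (hGZ i hi2 hi3).1
  · intro i hi p hp hi2 hi3
    simp only [length_pre] at hi
    simp only at hi3
    rw [getD_pre G hi] at hi3
    rw [getElem?_pre_of_lt M (hT2 p hp i hi), (hGZ i hi2 hi3).2 p hp]
  · exact ht0 t (le_max_left _ _)

/-- questions `((σ, F), (b₀, b₁), L)` -/
abbrev Qu := (List Bool × List Bool) × (List Bool × List Bool) × List (ℕ × Bool)

/-- the splitting `ζ` is hit -/
def Hit (q : Qu) (ζ η : List Bool) : Prop :=
  Half true q.1.1 q.2.1.1 q.2.2 ζ η ∨ Half false q.1.2 q.2.1.2 q.2.2 ζ η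

lemma Hit.mono {q : Qu} {ζ ζ' η η' : List Bool} (h : ζ <+: ζ') (h' : η <+: η')
    (hh : Hit q ζ η) : Hit q ζ' η' := hh.imp (Half.mono h h') (Half.mono h h')

lemma sig_hit {D : Set (ℕ → Bool)} :
    Sig D (fun _ (p : Qu × List Bool × List Bool) => Hit p.1 p.2.1 p.2.2) := by
  refine Sig.or ?_ ?_
  · exact (sig_half true).comp (f := fun p : Qu × List Bool × List Bool =>
      ((p.1.1.1, p.1.2.1.1, p.1.2.2), p.2)) (Primrec.pair (Primrec.pair
        (Primrec.fst.comp (Primrec.fst.comp Primrec.fst))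
        (Primrec.pair (Primrec.fst.comp (Primrec.fst.comp (Primrec.snd.comp Primrec.fst)))
          (Primrec.snd.comp (Primrec.snd.comp Primrec.fst)))) Primrec.snd)
  · exact (sig_half false).comp (f := fun p : Qu × List Bool × List Bool =>
      ((p.1.1.2, p.1.2.1.2, p.1.2.2), p.2)) (Primrec.pair (Primrec.pair
        (Primrec.snd.comp (Primrec.fst.comp Primrec.fst))
        (Primrec.pair (Primrec.snd.comp (Primrec.fst.comp (Primrec.snd.comp Primrec.fst)))
          (Primrec.snd.comp (Primrec.snd.comp Primrec.fst)))) Primrec.snd)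

/-- the class of splittings that are not hit is empty -/
def Emp (Y : ℕ → Bool) (q : Qu) : Prop :=
  ∃ b, ∀ z < 2 ^ b, Hit q (bitStr z b) (JumpDeg.pre Y b)

lemma sig_emp {D : Set (ℕ → Bool)} : Sig D (fun Y (q : Qu) => Emp Y q) := by
  have h1 : Sig D (fun Y (a : Qu × ℕ × List Bool) =>
      (a.2.1 = a.2.2.length ∧ ∀ z < 2 ^ a.2.1, Hit a.1 (bitStr z a.2.1) a.2.2) ∧
        ∀ i < a.2.2.length, Y i = a.2.2.getD i false) := by
    refine Sig.and (Sig.and (Sig.of_prim ?_) ?_) ?_
    · exact Primrec.eq.comp (Primrec.fst.comp Primrec.snd)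
        (Primrec.list_length.comp (Primrec.snd.comp Primrec.snd))
    · have h2 : Sig D (fun _ (a : (Qu × ℕ × List Bool) × ℕ) =>
          Hit a.1.1 (bitStr a.2 a.1.2.1) a.1.2.2) :=
        sig_hit.comp (f := fun a : (Qu × ℕ × List Bool) × ℕ =>
          (a.1.1, bitStr a.2 a.1.2.1, a.1.2.2))
          (Primrec.pair (Primrec.fst.comp Primrec.fst) (Primrec.pair
            (primrec_bitStr.comp Primrec.snd (Primrec.fst.comp (Primrec.snd.comp Primrec.fst)))
            (Primrec.snd.comp (Primrec.snd.comp Primrec.fst))))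
      exact h2.ball (f := fun a : Qu × ℕ × List Bool => 2 ^ a.2.1)
        (primrec_pow2.comp (Primrec.fst.comp Primrec.snd))
    · have h3 : Sig D (fun Y (a : (Qu × ℕ × List Bool) × ℕ) =>
          Y a.2 = a.1.2.2.getD a.2 false) :=
        Sig.oracle Primrec.snd ((Primrec.list_getD false).comp
          (Primrec.snd.comp (Primrec.snd.comp Primrec.fst)) Primrec.snd)
      exact h3.ball (f := fun a : Qu × ℕ × List Bool => a.2.2.length)
        (Primrec.list_length.comp (Primrec.snd.comp Primrec.snd))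
  refine h1.ex.congr ?_
  intro Y _ q
  constructor
  · rintro ⟨b, hb⟩
    refine ⟨(b, JumpDeg.pre Y b), ⟨by simp, hb⟩, ?_⟩
    intro i hi
    simp only [length_pre] at hi ⊢
    rw [getD_pre Y hi]
  · rintro ⟨⟨b, η⟩, ⟨hb, hz⟩, hη⟩
    simp only at hb hz hη
    refine ⟨b, fun z hz' => ?_⟩
    have h4 : η = JumpDeg.pre Y η.length := by
      rw [eq_pre_iff]
      intro i hi
      rw [hη i hi]
      simp [List.getD, hi]
    rw [hb, ← h4, ← hb]
    exact hz z hz'

lemma Emp.hit {Y : ℕ → Bool} {q : Qu} (h : Emp Y q) (Z : ℕ → Bool) :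
    ∃ b, Hit q (JumpDeg.pre Z b) (JumpDeg.pre Y b) := by
  obtain ⟨b, hb⟩ := h
  obtain ⟨z, hz, hzz⟩ := exists_bitStr Z b
  refine ⟨b, ?_⟩
  rw [← hzz]
  exact hb z hz

lemma exists_not_hit {Y : ℕ → Bool} {q : Qu} (h : ¬ Emp Y q) :
    ∃ Z : ℕ → Bool, ∀ t, ¬ Hit q (JumpDeg.pre Z t) (JumpDeg.pre Y t) := by
  by_contra hc
  push Not at hc
  obtain ⟨b, hb⟩ := compactness (P := fun ζ => Hit q ζ (JumpDeg.pre Y ζ.length))
    (fun σ τ h hh => hh.mono h (pre_prefix_pre Y h.length_le)) (by
      intro Z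
      obtain ⟨t, ht⟩ := hc Z
      exact ⟨t, by simpa using ht⟩)
  refine h ⟨b, fun z _ => ?_⟩
  have := hb (bitOf z)
  rw [length_pre] at this
  exact this

lemma lt_encode_of_mem {L : List (ℕ × Bool)} {p : ℕ × Bool} (hp : p ∈ L) : p.1 < encode L := by
  induction L with
  | nil => cases hp
  | cons q L ih =>
    rw [Encodable.encode_list_cons]
    rcases List.mem_cons.1 hp with rfl | hp
    · have h1 : p.1 ≤ encode p := by
        have : encode p = Nat.pair (encode p.1) (encode p.2) := rfl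
        rw [this]
        exact Nat.left_le_pair _ _
      have h2 := Nat.left_le_pair (encode p) (encode L)
      exact Nat.lt_succ_of_le (h1.trans h2)
    · have h2 := Nat.right_le_pair (encode q) (encode L)
      exact Nat.lt_succ_of_le ((ih hp).le.trans h2)

lemma lt_encode_qu {q : Qu} {p : ℕ × Bool} (hp : p ∈ q.2.2) : p.1 < encode q := by
  have h1 : encode q = Nat.pair (encode q.1) (Nat.pair (encode q.2.1) (encode q.2.2)) := rfl
  rw [h1]
  have h2 := Nat.right_le_pair (encode q.1) (Nat.pair (encode q.2.1) (encode q.2.2))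
  have h3 := Nat.right_le_pair (encode q.2.1) (encode q.2.2)
  exact lt_of_lt_of_le (lt_encode_of_mem hp) (h3.trans h2)

lemma Half.mask_iff {s : Bool} {σ b : List Bool} {L : List (ℕ × Bool)} {ζ : List Bool}
    {Y : ℕ → Bool} {m t : ℕ} (hL : ∀ p ∈ L, p.1 < m) :
    Half s σ b L ζ (JumpDeg.pre (mask m Y) t) ↔ Half s σ b L ζ (JumpDeg.pre Y t) := by
  have key : ∀ σ τ, RL σ τ L (JumpDeg.pre (mask m Y) t) ↔ RL σ τ L (JumpDeg.pre Y t) := by
    intro σ τ
    have h1 : ∀ p ∈ L, ∀ i, (JumpDeg.pre (mask m Y) t)[Nat.pair p.1 i]? =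
        (JumpDeg.pre Y t)[Nat.pair p.1 i]? := by
      intro p hp i
      rw [getElem?_pre, getElem?_pre, mask_pair (hL p hp)]
    constructor
    · intro h i hi p hp hi2 hi3
      rw [← h1 p hp i]
      exact h i hi p hp hi2 hi3
    · intro h i hi p hp hi2 hi3
      rw [h1 p hp i]
      exact h i hi p hp hi2 hi3
  unfold Half
  simp only [key]

lemma Hit.mask_iff {q : Qu} {ζ : List Bool} {Y : ℕ → Bool} {t : ℕ} :
    Hit q ζ (JumpDeg.pre (mask (encode q) Y) t) ↔ Hit q ζ (JumpDeg.pre Y t) := by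
  unfold Hit
  rw [Half.mask_iff (fun p hp => lt_encode_qu hp), Half.mask_iff (fun p hp => lt_encode_qu hp)]

/-- the low set: its columns split all reservoirs whenever this is possible -/
theorem exists_split : ∃ Y : ℕ → Bool, Low Y ∧ ∀ q : Qu, ¬ Emp Y q →
    ∀ t, ¬ Hit q (JumpDeg.pre (col Y (encode q)) t) (JumpDeg.pre Y t) := by
  have hU : Sig {zeroO} (fun _ (p : ℕ × List Bool × List Bool) =>
      ∃ q : Qu, encode q = p.1 ∧ Hit q p.2.1 p.2.2) := by
    have h1 : Sig {zeroO} (fun _ (p : (ℕ × List Bool × List Bool) × Qu) =>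
        encode p.2 = p.1.1 ∧ Hit p.2 p.1.2.1 p.1.2.2) :=
      (Sig.of_prim (Primrec.eq.comp (Primrec.encode.comp Primrec.snd)
        (Primrec.fst.comp Primrec.fst))).and
        (sig_hit.comp (f := fun p : (ℕ × List Bool × List Bool) × Qu => (p.2, p.1.2))
          (Primrec.pair Primrec.snd (Primrec.snd.comp Primrec.fst)))
    exact h1.ex
  obtain ⟨Y, hY1, hY2⟩ := low_scott hU
  refine ⟨Y, hY1, fun q hq t ht => ?_⟩
  obtain ⟨Z, hZ⟩ := exists_not_hit hq
  refine hY2 (encode q) ⟨Z, ?_⟩ t ⟨q, rfl, Hit.mask_iff.2 ht⟩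
  rintro t ⟨q', hq', ht'⟩
  obtain rfl := encode_injective hq'
  exact hZ t (Hit.mask_iff.1 ht')

/-- the bits are right -/
lemma bits_right {s : Bool} {σ : List Bool} {u : ℕ} {L : List (ℕ × Bool)} {Y G : ℕ → Bool}
    {m : ℕ} (h : ∀ t, ¬ Half s σ (bits σ u) L (JumpDeg.pre (col Y m) t) (JumpDeg.pre Y t))
    (hG : σ <+: JumpDeg.pre G σ.length)
    (hGL : ∀ i, σ.length ≤ i → G i = true → InR Y ((m, s) :: L) i) :
    JumpDeg.pre (jump G) u = bits σ u := by
  classical
  unfold bits
  refine pre_congr fun d hd => ?_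
  by_cases hc : conv d σ
  · rw [conv_jump hG hc]
    simp [hc]
  · have h1 := no_conv_of_not_half h hG (by
      intro i hi hi2
      have h3 := inR_cons.1 (hGL i hi hi2)
      exact ⟨h3.1, h3.2⟩) (d := d) (by rwa [length_bits]) ((bits_getD hd).2 hc)
    rw [h1]
    simp [hc]

/-- legal new elements -/
def NewOK (A Y : ℕ → Bool) (s : Bool) (σ τ : List Bool) (L : List (ℕ × Bool)) : Prop :=
  ∀ i < τ.length, σ.length ≤ i → τ.getD i false = true → A i = s ∧ InR Y L i

lemma NewOK.refl {A Y : ℕ → Bool} {s : Bool} {σ : List Bool} {L : List (ℕ × Bool)} :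
    NewOK A Y s σ σ L := by
  intro i hi hi2
  omega

lemma NewOK.trans {A Y : ℕ → Bool} {s : Bool} {σ τ ρ : List Bool} {L : List (ℕ × Bool)}
    (h' : τ <+: ρ) (h1 : NewOK A Y s σ τ L) (h2 : NewOK A Y s τ ρ L) : NewOK A Y s σ ρ L := by
  intro i hi hi2 hi3
  by_cases h : i < τ.length
  · rw [getD_prefix h' h] at hi3
    exact h1 i h hi2 hi3
  · exact h2 i hi (by omega) hi3

/-- legal extensions avoiding emptiness exist -/
theorem exists_ext (A Y : ℕ → Bool) (L : List (ℕ × Bool)) (u0 u1 : ℕ) (σ F : List Bool) :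
    ∃ σ' F', (σ <+: σ' ∧ NewOK A Y true σ σ' L) ∧ (F <+: F' ∧ NewOK A Y false F F' L) ∧
      ¬ Emp Y ((σ', F'), (bits σ' u0, bits F' u1), L) := by
  classical
  -- the number of divergent bits
  let cnt : List Bool → ℕ → ℕ := fun τ u => ((Finset.range u).filter (fun d => ¬ conv d τ)).card
  have hcnt : ∀ (σ τ : List Bool) (u d : ℕ), σ <+: τ → d < u → ¬ conv d σ → conv d τ →
      cnt τ u < cnt σ u := by
    intro σ τ u d h hd h1 h2
    apply Finset.card_lt_card
    rw [Finset.ssubset_iff_of_subset]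
    · exact ⟨d, by simp [hd, h1], by simp [h2]⟩
    · intro x hx
      simp only [Finset.mem_filter, Finset.mem_range] at hx ⊢
      exact ⟨hx.1, fun hc => hx.2 (hc.mono h)⟩
  have main : ∀ n (σ F : List Bool), cnt σ u0 + cnt F u1 ≤ n →
      ∃ σ' F', (σ <+: σ' ∧ NewOK A Y true σ σ' L) ∧ (F <+: F' ∧ NewOK A Y false F F' L) ∧
      ¬ Emp Y ((σ', F'), (bits σ' u0, bits F' u1), L) := by
    intro n
    induction n with
    | zero =>
      intro σ F hn
      refine ⟨σ, F, ⟨List.prefix_rfl, NewOK.refl⟩, ⟨List.prefix_rfl, NewOK.refl⟩, ?_⟩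
      intro hE
      obtain ⟨b, hb⟩ := hE.hit A
      rcases hb with ⟨⟨τ, d⟩, ⟨⟨h1, h2, h3⟩, h4, h5, h6⟩, h7⟩ | ⟨⟨τ, d⟩, ⟨⟨h1, h2, h3⟩, h4, h5, h6⟩, h7⟩
      · simp only [length_bits] at h5
        have := hcnt σ τ u0 d h2 h5 ((bits_getD h5).1 h6) h7
        omega
      · simp only [length_bits] at h5
        have := hcnt F τ u1 d h2 h5 ((bits_getD h5).1 h6) h7
        omega
    | succ n ih =>
      intro σ F hn
      by_cases hE : Emp Y ((σ, F), (bits σ u0, bits F u1), L)
      · obtain ⟨b, hb⟩ := hE.hit A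
        rcases hb with ⟨⟨τ, d⟩, ⟨⟨h1, h2, h3⟩, h4, h5, h6⟩, h7⟩ | ⟨⟨τ, d⟩, ⟨⟨h1, h2, h3⟩, h4, h5, h6⟩, h7⟩
        · simp only [length_bits, length_pre] at h1 h2 h3 h4 h5 h6
          have h8 := hcnt σ τ u0 d h2 h5 ((bits_getD h5).1 h6) h7
          have hOK : NewOK A Y true σ τ L := by
            intro i hi hi2 hi3
            constructor
            · have h9 := h3 i hi hi2 hi3
              rwa [getD_pre A (by omega)] at h9
            · intro p hp
              have h9 := h4 i hi p hp hi2 hi3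
              rw [getElem?_pre] at h9
              split_ifs at h9
              exact Option.some.inj h9
          obtain ⟨σ', F', ⟨i1, i2⟩, i3, i4⟩ := ih τ F (by omega)
          exact ⟨σ', F', ⟨h2.trans i1, hOK.trans i1 i2⟩, i3, i4⟩
        · simp only [length_bits, length_pre] at h1 h2 h3 h4 h5 h6
          have h8 := hcnt F τ u1 d h2 h5 ((bits_getD h5).1 h6) h7
          have hOK : NewOK A Y false F τ L := by
            intro i hi hi2 hi3
            constructor
            · have h9 := h3 i hi hi2 hi3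
              rwa [getD_pre A (by omega)] at h9
            · intro p hp
              have h9 := h4 i hi p hp hi2 hi3
              rw [getElem?_pre] at h9
              split_ifs at h9
              exact Option.some.inj h9
          obtain ⟨σ', F', i3, ⟨i1, i2⟩, i4⟩ := ih σ τ (by omega)
          exact ⟨σ', F', i3, ⟨h2.trans i1, hOK.trans i1 i2⟩, i4⟩
      · exact ⟨σ, F, ⟨List.prefix_rfl, NewOK.refl⟩, ⟨List.prefix_rfl, NewOK.refl⟩, hE⟩
  exact main _ σ F le_rfl

end HighD3
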