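import Mathlib
import Pool.Agent.HighD3.Quest

/-!
One stage of the construction, as a limit computable function.
-/

set_option autoImplicit false

namespace HighD3

open Encodable Denumerable Filter
open Nat.Partrec (Code)
open JumpDeg HighD2

section
variable {α β γ : Type*} [Primcodable α] [Primcodable β] [Primcodable γ]

lemma LimF.prim {f : α → β} (h : Primrec f) : LimF f := LimF.of_computable h.to_comp

lemma LimP.bex {p : α × ℕ → Prop} (hp : LimP p) {f : α → ℕ} (hf : LimF f) :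
    LimP (fun a => ∃ i < f a, p (a, i)) := by
  classical
  have hs : LimF (fun r : (α × ℕ) × Bool => r.2 || decide (p r.1)) := by
    have h1 : Computable (fun x : Bool × Bool => x.1 || x.2) := Primrec.or.to_comp
    have h2 : LimF (fun r : (α × ℕ) × Bool => decide (p r.1)) :=
      LimF.congr (LimP.comp hp (LimF.of_computable Computable.fst))
        (fun _ => decide_eq_decide.2 Iff.rfl)
    exact LimF.comp (LimF.of_computable h1)
      (LimF.pair (LimF.of_computable Computable.snd) h2)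
  have h3 := LimF.iter' (s0 := fun _ : α => false) (LimF.of_computable (Computable.const false)) hs
  have key : ∀ (a : α) (n : ℕ), (Nat.rec false (fun n IH => IH || decide (p (a, n))) n : Bool) =
      decide (∃ i < n, p (a, i)) := by
    intro a n
    induction n with
    | zero => simp
    | succ n ih =>
      show ((Nat.rec false (fun n IH => IH || decide (p (a, n))) n : Bool) ||
        decide (p (a, n))) = _
      rw [ih, ← Bool.decide_or]
      apply decide_eq_decide.2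
      constructor
      · rintro (⟨i, hi, h⟩ | h)
        · exact ⟨i, by omega, h⟩
        · exact ⟨n, by omega, h⟩
      · rintro ⟨i, hi, h⟩
        rcases Nat.lt_succ_iff_lt_or_eq.1 hi with h' | rfl
        · exact Or.inl ⟨i, h', h⟩
        · exact Or.inr h
  have h4 := LimF.comp h3 (LimF.pair (LimF.of_computable Computable.id) hf)
  refine LimF.congr h4 fun a => ?_
  exact (key a (f a)).trans (decide_eq_decide.2 Iff.rfl)

lemma LimP.ball {p : α × ℕ → Prop} (hp : LimP p) {f : α → ℕ} (hf : LimF f) :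
    LimP (fun a => ∀ i < f a, p (a, i)) := by
  refine (LimP.bex hp.not hf).not.congr fun a => ?_
  push Not
  rfl

lemma LimP.imp {p q : α → Prop} (hp : LimP p) (hq : LimP q) : LimP (fun a => p a → q a) := by
  refine (hp.not.or hq).congr fun a => ?_
  tauto

lemma LimF.preP {f : α × ℕ → Bool} (hf : LimF f) :
    LimF (fun q : α × ℕ => JumpDeg.pre (fun d => f (q.1, d)) q.2) := by
  have hs : LimF (fun r : (α × ℕ) × List Bool => r.2 ++ [f r.1]) := by
    have h1 : Computable (fun q : List Bool × Bool => q.1 ++ [q.2]) :=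
      (Primrec.list_append.comp Primrec.fst (Primrec.list_cons.comp Primrec.snd
        (Primrec.const []))).to_comp
    exact LimF.comp (LimF.of_computable h1) (LimF.pair (LimF.of_computable Computable.snd)
      (LimF.comp hf (LimF.of_computable Computable.fst)))
  have h3 := LimF.iter' (s0 := fun _ : α => ([] : List Bool))
    (LimF.of_computable (Computable.const [])) hs
  refine h3.congr ?_
  rintro ⟨a, n⟩
  induction n with
  | zero => rfl
  | succ n ih =>
    simp only at ih ⊢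
    rw [ih]
    simp [JumpDeg.pre, List.range_succ]

lemma limF_bits : LimF (fun q : List Bool × ℕ => bits q.1 q.2) := by
  classical
  have h1 : LimP (fun q : ℕ × List Bool => conv q.1 q.2) :=
    limP_of_sig (D := {zeroO}) rfl sig_conv
  have h2 : LimF (fun q : List Bool × ℕ => decide (conv q.2 q.1)) := by
    have h3 : LimP (fun q : List Bool × ℕ => conv q.2 q.1) :=
      LimP.comp (p := fun q : ℕ × List Bool => conv q.1 q.2)
        (f := fun q : List Bool × ℕ => (q.2, q.1)) h1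
        (LimF.of_computable (Computable.pair Computable.snd Computable.fst))
    exact LimF.congr h3 (fun _ => decide_eq_decide.2 Iff.rfl)
  refine (LimF.preP h2).congr fun q => ?_
  unfold bits
  rfl

end

/-! ### the data -/

/-- levels `((c, s₀), F₁, L, sat, g)` -/
abbrev Lev := (ℕ × ℕ) × List Bool × List (ℕ × Bool) × List ℕ × Option (ℕ × ℕ)

/-- logs: lists of entries `(n, j, b)` -/
abbrev Log := List (ℕ × ℕ × List Bool)

/-- states -/
abbrev St := List Bool × List Lev × Log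

/-- the reservoir handed over to the next level -/
def out (l : Lev) : List (ℕ × Bool) :=
  Option.casesOn (motive := fun _ => List (ℕ × Bool)) l.2.2.2.2 l.2.2.1
    (fun p => (p.1, true) :: l.2.2.1)

lemma out_none {l : Lev} (h : l.2.2.2.2 = none) : out l = l.2.2.1 := by
  unfold out
  rw [h]

lemma out_some {l : Lev} {q j : ℕ} (h : l.2.2.2.2 = some (q, j)) :
    out l = (q, true) :: l.2.2.1 := by
  unfold out
  rw [h]

/-- the reservoir handed over by the last level -/
def lastOut (ls : List Lev) : List (ℕ × Bool) :=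
  Option.casesOn (motive := fun _ => List (ℕ × Bool)) ls[ls.length - 1]? [] out

lemma primrec_out : Primrec out := by
  have hL : Primrec (fun l : Lev => l.2.2.1) := Primrec.fst.comp (Primrec.snd.comp Primrec.snd)
  exact Primrec.option_casesOn (o := fun l : Lev => l.2.2.2.2)
    (f := fun l : Lev => l.2.2.1) (g := fun (l : Lev) (p : ℕ × ℕ) => (p.1, true) :: l.2.2.1)
    (Primrec.snd.comp (Primrec.snd.comp (Primrec.snd.comp Primrec.snd))) hL
    (Primrec.list_cons.comp (Primrec.pair (Primrec.fst.comp Primrec.snd) (Primrec.const true))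
      (hL.comp Primrec.fst)).to₂

lemma primrec_lastOut : Primrec lastOut :=
  Primrec.option_casesOn (o := fun ls : List Lev => ls[ls.length - 1]?)
    (f := fun _ : List Lev => ([] : List (ℕ × Bool)))
    (g := fun (_ : List Lev) (l : Lev) => out l)
    (Primrec.list_getElem?.comp Primrec.id (Primrec.nat_sub.comp Primrec.list_length
      (Primrec.const 1))) (Primrec.const []) (primrec_out.comp Primrec.snd).to₂

/-- witnesses of the first kind -/
def wit0 (i c : ℕ) : ℕ := Nat.pair 0 (Nat.pair i c)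

/-- witnesses of the second kind -/
def wit1 (i c j : ℕ) : ℕ := Nat.pair 1 (Nat.pair i (Nat.pair c j))

lemma wit0_inj {i c i' c' : ℕ} (h : wit0 i c = wit0 i' c') : i = i' ∧ c = c' := by
  unfold wit0 at h
  have h1 := (Nat.pair_eq_pair.1 h).2
  exact Nat.pair_eq_pair.1 h1

lemma wit1_inj {i c j i' c' j' : ℕ} (h : wit1 i c j = wit1 i' c' j') :
    i = i' ∧ c = c' ∧ j = j' := by
  unfold wit1 at h
  have h1 := Nat.pair_eq_pair.1 (Nat.pair_eq_pair.1 h).2
  exact ⟨h1.1, Nat.pair_eq_pair.1 h1.2⟩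

lemma wit_ne {i c i' c' j' : ℕ} : wit0 i c ≠ wit1 i' c' j' := by
  unfold wit0 wit1
  intro h
  have := (Nat.pair_eq_pair.1 h).1
  omega

/-- the first code of the requirement `j` -/
def ra (j : ℕ) : Code := ofNat Code j.unpair.1

/-- the second code of the requirement `j` -/
def rb (j : ℕ) : Code := ofNat Code j.unpair.2.unpair.1

lemma primrec_ra : Primrec ra := (Primrec.ofNat Code).comp (Primrec.fst.comp Primrec.unpair)

lemma primrec_rb : Primrec rb :=
  (Primrec.ofNat Code).comp (Primrec.fst.comp (Primrec.unpair.comp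
    (Primrec.snd.comp Primrec.unpair)))

/-- the approximation given by the code `a` to the value at `x` is `v` from stage `s` on -/
def Stab (a : Code) (x s v : ℕ) : Prop :=
  ∀ t, s ≤ t → ∀ k w, Code.evaln k a (Nat.pair x t) = some w → w = v

lemma Stab.mono {a : Code} {x s s' v : ℕ} (h : s ≤ s') (hs : Stab a x s v) : Stab a x s' v :=
  fun t ht => hs t (h.trans ht)

lemma limP_stab : LimP (fun q : Code × ℕ × ℕ × ℕ => Stab q.1 q.2.1 q.2.2.1 q.2.2.2) := by
  have h1 : Sig {zeroO} (fun _ (r : (Code × ℕ × ℕ × ℕ) × ℕ × ℕ × ℕ) =>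
      r.1.2.2.1 ≤ r.2.1 ∧ Code.evaln r.2.2.1 r.1.1 (Nat.pair r.1.2.1 r.2.1) = some r.2.2.2 ∧
        ¬ r.2.2.2 = r.1.2.2.2) := by
    refine Sig.of_prim ?_
    have a1 : Primrec (fun r : (Code × ℕ × ℕ × ℕ) × ℕ × ℕ × ℕ => r.1.1) :=
      Primrec.fst.comp Primrec.fst
    have a2 : Primrec (fun r : (Code × ℕ × ℕ × ℕ) × ℕ × ℕ × ℕ => r.1.2.1) :=
      Primrec.fst.comp (Primrec.snd.comp Primrec.fst)
    have a3 : Primrec (fun r : (Code × ℕ × ℕ × ℕ) × ℕ × ℕ × ℕ => r.1.2.2.1) :=
      Primrec.fst.comp (Primrec.snd.comp (Primrec.snd.comp Primrec.fst))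
    have a4 : Primrec (fun r : (Code × ℕ × ℕ × ℕ) × ℕ × ℕ × ℕ => r.1.2.2.2) :=
      Primrec.snd.comp (Primrec.snd.comp (Primrec.snd.comp Primrec.fst))
    have b1 : Primrec (fun r : (Code × ℕ × ℕ × ℕ) × ℕ × ℕ × ℕ => r.2.1) :=
      Primrec.fst.comp Primrec.snd
    have b2 : Primrec (fun r : (Code × ℕ × ℕ × ℕ) × ℕ × ℕ × ℕ => r.2.2.1) :=
      Primrec.fst.comp (Primrec.snd.comp Primrec.snd)
    have b3 : Primrec (fun r : (Code × ℕ × ℕ × ℕ) × ℕ × ℕ × ℕ => r.2.2.2) :=
      Primrec.snd.comp (Primrec.snd.comp Primrec.snd)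
    refine (Primrec.nat_le.comp a3 b1).and (PrimrecPred.and ?_ (PrimrecPred.not ?_))
    · exact Primrec.eq.comp (Code.primrec_evaln.comp (Primrec.pair (Primrec.pair b2 a1)
        (Primrec₂.natPair.comp a2 b1))) (Primrec.option_some.comp b3)
    · exact Primrec.eq.comp b3 a4
  refine (limP_of_sig (D := {zeroO}) rfl h1.ex).not.congr ?_
  rintro ⟨a, x, s, v⟩
  constructor
  · intro h t ht k w hw
    by_contra hne
    exact h ⟨(t, k, w), ht, hw, hne⟩
  · rintro h ⟨⟨t, k, w⟩, ht, hw, hne⟩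
    exact hne (h t ht k w hw)

/-- stability for the requirement `j` -/
lemma limP_stabj : LimP (fun q : (ℕ × ℕ) × ℕ × ℕ => Stab (ra q.1.1) q.1.2 q.2.1 q.2.2) :=
  LimP.comp (p := fun q : Code × ℕ × ℕ × ℕ => Stab q.1 q.2.1 q.2.2.1 q.2.2.2)
    (f := fun q : (ℕ × ℕ) × ℕ × ℕ => (ra q.1.1, q.1.2, q.2.1, q.2.2)) limP_stab
    (LimF.prim (Primrec.pair (primrec_ra.comp (Primrec.fst.comp Primrec.fst))
      (Primrec.pair (Primrec.snd.comp Primrec.fst) Primrec.snd)))

/-- the requirement `j` has a stable value at level `l`, seen at stage `s` -/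
def SJ (s i : ℕ) (l : Lev) (j : ℕ) : Prop := ∃ u < s, Stab (ra j) (wit1 i l.1.2 j) s u

/-- a level in the first phase may act -/
def Ready (A Y : ℕ → Bool) (s i : ℕ) (l : Lev) : Prop :=
  (∃ u < s, Stab (ra i) (wit0 i l.1.1) s u) ∧
  (∃ y < s, l.2.1.length ≤ y ∧ InR Y l.2.2.1 y ∧ A y = false) ∧
  ∃ j < s, j ∉ l.2.2.2.1 ∧ SJ s i l j

/-- no element of the reservoir is left -/
def Dead (Y : ℕ → Bool) (σ : List Bool) (l : Lev) : Prop :=
  ¬ ∃ y, σ.length ≤ y ∧ InR Y (out l) y

/-- a level requires attention -/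
def Act (A Y : ℕ → Bool) (s : ℕ) (σ : List Bool) (i : ℕ) (l : Lev) : Prop :=
  (l.2.2.2.2 ≠ none ∧ Dead Y σ l) ∨ (l.2.2.2.2 = none ∧ Ready A Y s i l)

/-- the second phase is entered -/
def T2S (A Y : ℕ → Bool) (s : ℕ) (σ : List Bool) (i : ℕ) (l : Lev) (σ' F' : List Bool)
    (j u0 u1 : ℕ) : Prop :=
  (σ <+: σ' ∧ NewOK A Y true σ σ' l.2.2.1) ∧ (l.2.1 <+: F' ∧ NewOK A Y false l.2.1 F' l.2.2.1) ∧
  (∃ y < F'.length, l.2.1.length ≤ y ∧ F'.getD y false = true) ∧
  (j ∉ l.2.2.2.1 ∧ ∀ j' < j, j' ∉ l.2.2.2.1 → ¬ SJ s i l j') ∧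
  (Stab (ra i) (wit0 i l.1.1) s u0 ∧ Stab (ra j) (wit1 i l.1.2 j) s u1) ∧
  ¬ Emp Y ((σ', F'), (bits σ' u0, bits F' u1), l.2.2.1)

section
variable {A Y : ℕ → Bool}

lemma exists_T2S {s : ℕ} {σ : List Bool} {i : ℕ} {l : Lev} (h : Ready A Y s i l) :
    ∃ σ' F' j u0 u1, T2S A Y s σ i l σ' F' j u0 u1 := by
  classical
  obtain ⟨⟨u0, _, hu0⟩, ⟨y, _, hy1, hy2, hy3⟩, hj⟩ := h
  have hj' : ∃ j, j ∉ l.2.2.2.1 ∧ SJ s i l j := by
    obtain ⟨j, _, h1⟩ := hj
    exact ⟨j, h1⟩
  obtain ⟨h1, u1, hu1s, hu1⟩ := Nat.find_spec hj'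
  have hmin : ∀ j' < Nat.find hj', j' ∉ l.2.2.2.1 → ¬ SJ s i l j' :=
    fun j' h2 h3 h4 => Nat.find_min hj' h2 ⟨h3, h4⟩
  have hnew : NewOK A Y false l.2.1 (ext1 l.2.1 y) l.2.2.1 := by
    intro x hx hx2 hx3
    rcases ext1_getD hy1 hx3 with h | rfl
    · have := getD_lt h
      omega
    · exact ⟨hy3, hy2⟩
  obtain ⟨σ', F', h3, ⟨h4, h5⟩, h6⟩ := exists_ext A Y l.2.2.1 u0 u1 σ (ext1 l.2.1 y)
  have h7 : F'.getD y false = true := getD_prefix_true h4 (ext1_getD_self hy1)
  exact ⟨σ', F', Nat.find hj', u0, u1, h3, ⟨(prefix_ext1 _ _).trans h4, hnew.trans h4 h5⟩,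
    ⟨y, getD_lt h7, hy1, h7⟩, ⟨h1, hmin⟩, ⟨hu0, hu1⟩, h6⟩

/-- one stage -/
def StepS (A Y : ℕ → Bool) (s : ℕ) (S S' : St) : Prop :=
  ∃ i ≤ S.2.1.length, (∀ i' < i, ∀ l, S.2.1[i']? = some l → ¬ Act A Y s S.1 i' l) ∧
  ((i = S.2.1.length ∧ ∃ y, S.1.length ≤ y ∧ InR Y (lastOut S.2.1) y ∧ A y = true ∧
      S' = (ext1 S.1 y, S.2.1.take i ++ [((s, s), [], lastOut S.2.1, [], none)], S.2.2)) ∨
   (i = S.2.1.length ∧ (¬ ∃ y < s, S.1.length ≤ y ∧ InR Y (lastOut S.2.1) y ∧ A y = true) ∧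
      S' = (padTo S.1 s, S.2.1, S.2.2)) ∨
   (∃ l q j, S.2.1[i]? = some l ∧ l.2.2.2.2 = some (q, j) ∧ Dead Y S.1 l ∧
      S' = (S.1, S.2.1.take i ++ [((s, l.1.2), l.2.1, (q, false) :: l.2.2.1,
        j :: l.2.2.2.1, none)], S.2.2)) ∨
   (∃ l σ' F' j u0 u1, S.2.1[i]? = some l ∧ l.2.2.2.2 = none ∧
      T2S A Y s S.1 i l σ' F' j u0 u1 ∧
      S' = (σ', S.2.1.take i ++ [((l.1.1, l.1.2), F', l.2.2.1, l.2.2.2.1,
        some (encode (((σ', F'), (bits σ' u0, bits F' u1), l.2.2.1) : Qu), j))],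
        S.2.2 ++ [(wit0 i l.1.1, i, bits σ' u0), (wit1 i l.1.2 j, j, bits F' u1)])))

/-! ### limit computability -/

lemma limP_inR (hY : Low Y) : LimP (fun q : List (ℕ × Bool) × ℕ => InR Y q.1 q.2) :=
  hY.limP (S := fun Y (q : List (ℕ × Bool) × ℕ) => InR Y q.1 q.2) sig_inR

lemma limP_dead (hY : Low Y) : LimP (fun q : List Bool × Lev => Dead Y q.1 q.2) := by
  have h1 : Sig {Y} (fun Y (r : (List Bool × Lev) × ℕ) =>
      r.1.1.length ≤ r.2 ∧ InR Y (out r.1.2) r.2) := by
    refine (Sig.of_prim ?_).and ?_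
    · exact Primrec.nat_le.comp (Primrec.list_length.comp (Primrec.fst.comp Primrec.fst))
        Primrec.snd
    · exact sig_inR.comp (f := fun r : (List Bool × Lev) × ℕ => (out r.1.2, r.2))
        (Primrec.pair (primrec_out.comp (Primrec.snd.comp Primrec.fst)) Primrec.snd)
  exact (hY.limP h1.ex).not

lemma primrec_mem : PrimrecPred (fun q : ℕ × List ℕ => q.1 ∈ q.2) := by
  have h2 : PrimrecPred (fun q : (ℕ × List ℕ) × ℕ => q.1.2[q.2]? = some q.1.1) :=
    Primrec.eq.comp (Primrec.list_getElem?.comp (Primrec.snd.comp Primrec.fst) Primrec.snd)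
      (Primrec.option_some.comp (Primrec.fst.comp Primrec.fst))
  refine (prim_exists_lt h2 (f := fun q : ℕ × List ℕ => q.2.length)
    (Primrec.list_length.comp Primrec.snd)).of_eq ?_
  rintro ⟨c, l⟩
  simp only
  constructor
  · rintro ⟨i, _, hi⟩
    exact List.mem_of_getElem? hi
  · intro h
    obtain ⟨i, hi, h3⟩ := List.getElem_of_mem h
    exact ⟨i, hi, by rw [← h3]; simp⟩

lemma primrec_wit0 : Primrec₂ wit0 :=
  (Primrec₂.natPair.comp (Primrec.const 0) (Primrec₂.natPair.comp Primrec.fst Primrec.snd)).to₂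

lemma primrec_wit1 : Primrec (fun q : ℕ × ℕ × ℕ => wit1 q.1 q.2.1 q.2.2) :=
  Primrec₂.natPair.comp (Primrec.const 1) (Primrec₂.natPair.comp Primrec.fst
    (Primrec₂.natPair.comp (Primrec.fst.comp Primrec.snd) (Primrec.snd.comp Primrec.snd)))

section
variable {X : Type*} [Primcodable X]

lemma limF_l11 {l : X → Lev} (h : LimF l) : LimF (fun x => (l x).1.1) :=
  LimF.comp (f := fun l : Lev => l.1.1) (LimF.prim (Primrec.fst.comp Primrec.fst)) h

lemma limF_l12 {l : X → Lev} (h : LimF l) : LimF (fun x => (l x).1.2) :=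
  LimF.comp (f := fun l : Lev => l.1.2) (LimF.prim (Primrec.snd.comp Primrec.fst)) h

lemma limF_lF {l : X → Lev} (h : LimF l) : LimF (fun x => (l x).2.1) :=
  LimF.comp (f := fun l : Lev => l.2.1) (LimF.prim (Primrec.fst.comp Primrec.snd)) h

lemma limF_lL {l : X → Lev} (h : LimF l) : LimF (fun x => (l x).2.2.1) :=
  LimF.comp (f := fun l : Lev => l.2.2.1)
    (LimF.prim (Primrec.fst.comp (Primrec.snd.comp Primrec.snd))) h

lemma limF_lS {l : X → Lev} (h : LimF l) : LimF (fun x => (l x).2.2.2.1) :=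
  LimF.comp (f := fun l : Lev => l.2.2.2.1)
    (LimF.prim (Primrec.fst.comp (Primrec.snd.comp (Primrec.snd.comp Primrec.snd)))) h

lemma limF_lg {l : X → Lev} (h : LimF l) : LimF (fun x => (l x).2.2.2.2) :=
  LimF.comp (f := fun l : Lev => l.2.2.2.2)
    (LimF.prim (Primrec.snd.comp (Primrec.snd.comp (Primrec.snd.comp Primrec.snd)))) h

lemma limF_len {σ : X → List Bool} (h : LimF σ) : LimF (fun x => (σ x).length) :=
  LimF.comp (f := fun σ : List Bool => σ.length) (LimF.prim Primrec.list_length) h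

lemma limP_le {f g : X → ℕ} (hf : LimF f) (hg : LimF g) : LimP (fun x => f x ≤ g x) :=
  LimP.comp (p := fun q : ℕ × ℕ => q.1 ≤ q.2) (f := fun x => (f x, g x))
    (LimP.of_primrec (Primrec.nat_le.comp Primrec.fst Primrec.snd)) (LimF.pair hf hg)

lemma limP_InR (hY : Low Y) {L : X → List (ℕ × Bool)} {y : X → ℕ} (hL : LimF L) (hy : LimF y) :
    LimP (fun x => InR Y (L x) (y x)) :=
  LimP.comp (p := fun q : List (ℕ × Bool) × ℕ => InR Y q.1 q.2)
    (f := fun x => (L x, y x)) (limP_inR hY) (LimF.pair hL hy)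

lemma limP_A (hA : LimF A) (b : Bool) {y : X → ℕ} (hy : LimF y) : LimP (fun x => A (y x) = b) :=
  LimP.eq (LimF.comp hA hy) (LimF.of_computable (Computable.const b))

lemma limP_Stab {j w s u : X → ℕ} (hj : LimF j) (hw : LimF w) (hs : LimF s) (hu : LimF u) :
    LimP (fun x => Stab (ra (j x)) (w x) (s x) (u x)) :=
  LimP.comp (p := fun q : (ℕ × ℕ) × ℕ × ℕ => Stab (ra q.1.1) q.1.2 q.2.1 q.2.2)
    (f := fun x => ((j x, w x), (s x, u x))) limP_stabj
    (LimF.pair (LimF.pair hj hw) (LimF.pair hs hu))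

lemma limF_wit0 {i c : X → ℕ} (hi : LimF i) (hc : LimF c) : LimF (fun x => wit0 (i x) (c x)) :=
  LimF.comp (f := fun q : ℕ × ℕ => wit0 q.1 q.2) (g := fun x => (i x, c x))
    (LimF.prim primrec_wit0) (LimF.pair hi hc)

lemma limF_wit1 {i c j : X → ℕ} (hi : LimF i) (hc : LimF c) (hj : LimF j) :
    LimF (fun x => wit1 (i x) (c x) (j x)) :=
  LimF.comp (f := fun q : ℕ × ℕ × ℕ => wit1 q.1 q.2.1 q.2.2) (g := fun x => (i x, c x, j x))
    (LimF.prim primrec_wit1) (LimF.pair hi (LimF.pair hc hj))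

lemma limP_memS {j : X → ℕ} {S : X → List ℕ} (hj : LimF j) (hS : LimF S) :
    LimP (fun x => j x ∈ S x) :=
  LimP.comp (p := fun q : ℕ × List ℕ => q.1 ∈ q.2)
    (f := fun x => (j x, S x)) (LimP.of_primrec primrec_mem) (LimF.pair hj hS)

/-- `SJ`, with limit computable arguments -/
lemma limP_SJ {s i j : X → ℕ} {l : X → Lev} (hs : LimF s) (hi : LimF i) (hl : LimF l)
    (hj : LimF j) : LimP (fun x => SJ (s x) (i x) (l x) (j x)) := by
  have hfst : LimF (fun p : X × ℕ => p.1) := LimF.of_computable Computable.fst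
  have hsnd : LimF (fun p : X × ℕ => p.2) := LimF.of_computable Computable.snd
  have hs' : LimF (fun p : X × ℕ => s p.1) := LimF.comp hs hfst
  have hi' : LimF (fun p : X × ℕ => i p.1) := LimF.comp hi hfst
  have hj' : LimF (fun p : X × ℕ => j p.1) := LimF.comp hj hfst
  have hl' : LimF (fun p : X × ℕ => l p.1) := LimF.comp hl hfst
  have h1 : LimP (fun p : X × ℕ => Stab (ra (j p.1)) (wit1 (i p.1) (l p.1).1.2 (j p.1))
      (s p.1) p.2) := limP_Stab hj' (limF_wit1 hi' (limF_l12 hl') hj') hs' hsnd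
  exact LimP.bex h1 hs

lemma limP_ready (hA : LimF A) (hY : Low Y) {s i : X → ℕ} {l : X → Lev} (hs : LimF s)
    (hi : LimF i) (hl : LimF l) : LimP (fun x => Ready A Y (s x) (i x) (l x)) := by
  have hfst : LimF (fun p : X × ℕ => p.1) := LimF.of_computable Computable.fst
  have hsnd : LimF (fun p : X × ℕ => p.2) := LimF.of_computable Computable.snd
  have hs' : LimF (fun p : X × ℕ => s p.1) := LimF.comp hs hfst
  have hi' : LimF (fun p : X × ℕ => i p.1) := LimF.comp hi hfst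
  have hl' : LimF (fun p : X × ℕ => l p.1) := LimF.comp hl hfst
  have h1 : LimP (fun p : X × ℕ => Stab (ra (i p.1)) (wit0 (i p.1) (l p.1).1.1)
      (s p.1) p.2) := limP_Stab hi' (limF_wit0 hi' (limF_l11 hl')) hs' hsnd
  have h2 : LimP (fun p : X × ℕ => (l p.1).2.1.length ≤ p.2) :=
    limP_le (limF_len (limF_lF hl')) hsnd
  have h3 : LimP (fun p : X × ℕ => InR Y (l p.1).2.2.1 p.2) := limP_InR hY (limF_lL hl') hsnd
  have h4 : LimP (fun p : X × ℕ => A p.2 = false) := limP_A hA false hsnd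
  have h5 : LimP (fun p : X × ℕ => p.2 ∈ (l p.1).2.2.2.1) := limP_memS hsnd (limF_lS hl')
  have h6 : LimP (fun p : X × ℕ => SJ (s p.1) (i p.1) (l p.1) p.2) := limP_SJ hs' hi' hl' hsnd
  exact (LimP.bex h1 hs).and ((LimP.bex (h2.and (h3.and h4)) hs).and
    (LimP.bex (h5.not.and h6) hs))

lemma limP_act (hA : LimF A) (hY : Low Y) {s i : X → ℕ} {σ : X → List Bool} {l : X → Lev}
    (hs : LimF s) (hσ : LimF σ) (hi : LimF i) (hl : LimF l) :
    LimP (fun x => Act A Y (s x) (σ x) (i x) (l x)) := by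
  have h1 : LimP (fun x => (l x).2.2.2.2 = none) :=
    LimP.eq (limF_lg hl) (LimF.of_computable (Computable.const none))
  have h2 : LimP (fun x => Dead Y (σ x) (l x)) :=
    LimP.comp (p := fun q : List Bool × Lev => Dead Y q.1 q.2) (f := fun x => (σ x, l x))
      (limP_dead hY) (LimF.pair hσ hl)
  exact (h1.not.and h2).or (h1.and (limP_ready hA hY hs hi hl))

/-- `NewOK`, with limit computable arguments -/
lemma limP_newOK (hA : LimF A) (hY : Low Y) (b : Bool) {σ τ : X → List Bool}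
    {L : X → List (ℕ × Bool)} (hσ : LimF σ) (hτ : LimF τ) (hL : LimF L) :
    LimP (fun x => NewOK A Y b (σ x) (τ x) (L x)) := by
  have hfst : LimF (fun p : X × ℕ => p.1) := LimF.of_computable Computable.fst
  have hsnd : LimF (fun p : X × ℕ => p.2) := LimF.of_computable Computable.snd
  have hσ' : LimF (fun p : X × ℕ => σ p.1) := LimF.comp hσ hfst
  have hτ' : LimF (fun p : X × ℕ => τ p.1) := LimF.comp hτ hfst
  have hL' : LimF (fun p : X × ℕ => L p.1) := LimF.comp hL hfst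
  have h1 : LimP (fun p : X × ℕ => (σ p.1).length ≤ p.2) := limP_le (limF_len hσ') hsnd
  have h2 : LimP (fun p : X × ℕ => (τ p.1).getD p.2 false = true) :=
    LimP.eq (LimF.comp (f := fun q : List Bool × ℕ => q.1.getD q.2 false)
      (g := fun p : X × ℕ => (τ p.1, p.2))
      (LimF.prim ((Primrec.list_getD false).comp Primrec.fst Primrec.snd))
      (LimF.pair hτ' hsnd)) (LimF.of_computable (Computable.const true))
  have h3 : LimP (fun p : X × ℕ => A p.2 = b) := limP_A hA b hsnd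
  have h4 : LimP (fun p : X × ℕ => InR Y (L p.1) p.2) := limP_InR hY hL' hsnd
  exact LimP.ball (p := fun p : X × ℕ => (σ p.1).length ≤ p.2 → (τ p.1).getD p.2 false = true →
    A p.2 = b ∧ InR Y (L p.1) p.2) (LimP.imp h1 (LimP.imp h2 (h3.and h4))) (limF_len hτ)

end

end

end HighD3
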