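import Mathlib
import Pool.Agent.HighD3.Step

/-!
The invariants of the construction.
-/

set_option autoImplicit false

namespace HighD3

open Encodable Denumerable Filter
open Nat.Partrec (Code)
open JumpDeg HighD2

/-- the splitting property of the low set -/
def Splits (Y : ℕ → Bool) : Prop := ∀ q : Qu, ¬ Emp Y q →
  ∀ t, ¬ Hit q (JumpDeg.pre (col Y (encode q)) t) (JumpDeg.pre Y t)

/-- `b` is right for all sets extending `σ` inside the part of the reservoir `L` on the side `s`
of the column `q` -/
def GoodB (Y : ℕ → Bool) (s : Bool) (q : ℕ) (σ b : List Bool) (L : List (ℕ × Bool)) : Prop :=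
  ∀ G : ℕ → Bool, σ <+: JumpDeg.pre G σ.length →
    (∀ i, σ.length ≤ i → G i = true → InR Y ((q, s) :: L) i) →
    JumpDeg.pre (jump G) b.length = b

lemma goodB_of_not_emp {Y : ℕ → Bool} (hsp : Splits Y) {σ F : List Bool} {u0 u1 : ℕ}
    {L : List (ℕ × Bool)} (h : ¬ Emp Y ((σ, F), (bits σ u0, bits F u1), L)) :
    GoodB Y true (encode (((σ, F), (bits σ u0, bits F u1), L) : Qu)) σ (bits σ u0) L ∧
    GoodB Y false (encode (((σ, F), (bits σ u0, bits F u1), L) : Qu)) F (bits F u1) L := by
  have h1 := hsp _ h
  constructor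
  · intro G hG hGL
    rw [length_bits]
    exact bits_right (fun t ht => h1 t (Or.inl ht)) hG hGL
  · intro G hG hGL
    rw [length_bits]
    exact bits_right (fun t ht => h1 t (Or.inr ht)) hG hGL

/-- the invariants of a level -/
structure LInv (A Y : ℕ → Bool) (s : ℕ) (σ : List Bool) (lg : Log) (i : ℕ)
    (P : List (ℕ × Bool)) (l : Lev) : Prop where
  cs : l.1.1 < s
  bs : l.1.2 < s
  side : ∀ x, l.2.1.getD x false = true → A x = false
  sub : ∀ x, σ.length ≤ x → InR Y P x → InR Y l.2.2.1 x
  suf : ∀ x, InR Y l.2.2.1 x → InR Y P x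
  free : l.2.2.2.2 = none → ∀ e ∈ lg, e.1 ≠ wit0 i l.1.1
  freej : ∀ j, ∀ e ∈ lg, e.1 = wit1 i l.1.2 j → j ∈ l.2.2.2.1 ∨ ∃ q, l.2.2.2.2 = some (q, j)
  gph : ∀ q j, l.2.2.2.2 = some (q, j) → ∃ σ1 b0 b1,
    (σ1 <+: σ ∧ ∀ x, σ1.length ≤ x → σ.getD x false = true → InR Y ((q, true) :: l.2.2.1) x) ∧
    GoodB Y true q σ1 b0 l.2.2.1 ∧ GoodB Y false q l.2.1 b1 l.2.2.1 ∧
    (∃ t, Stab (ra i) (wit0 i l.1.1) t b0.length) ∧
    (∃ t, Stab (ra j) (wit1 i l.1.2 j) t b1.length) ∧
    (wit0 i l.1.1, i, b0) ∈ lg ∧ (wit1 i l.1.2 j, j, b1) ∈ lg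
  sat : ∀ j ∈ l.2.2.2.1, ∃ F b1 q L',
    (F <+: l.2.1 ∧ ∀ x, F.length ≤ x → l.2.1.getD x false = true → InR Y ((q, false) :: L') x) ∧
    (∀ x, InR Y l.2.2.1 x → InR Y ((q, false) :: L') x) ∧ GoodB Y false q F b1 L' ∧
    (∃ t, Stab (ra j) (wit1 i l.1.2 j) t b1.length) ∧ (wit1 i l.1.2 j, j, b1) ∈ lg

/-- the invariants -/
structure GInv (A Y : ℕ → Bool) (s : ℕ) (S : St) : Prop where
  side : ∀ x, S.1.getD x false = true → A x = true
  lev : ∀ i l, S.2.1[i]? = some l → LInv A Y s S.1 S.2.2 i (lastOut (S.2.1.take i)) l
  stamp : ∀ e ∈ S.2.2, (∀ i c, e.1 = wit0 i c → c < s) ∧ (∀ i c j, e.1 = wit1 i c j → c < s)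
  uniq : ∀ e ∈ S.2.2, ∀ e' ∈ S.2.2, e.1 = e'.1 → e = e'

section
variable {A Y : ℕ → Bool}

lemma inR_of_out {l : Lev} {x : ℕ} (h : InR Y (out l) x) : InR Y l.2.2.1 x := by
  cases hg : l.2.2.2.2 with
  | none => rwa [out_none hg] at h
  | some p =>
    obtain ⟨q, j⟩ := p
    rw [out_some hg] at h
    exact (inR_cons.1 h).2

lemma lastOut_take {ls : List Lev} {i : ℕ} {l : Lev} (h : ls[i]? = some l) :
    lastOut (ls.take (i + 1)) = out l := by
  have hi : i < ls.length := by
    by_contra hc
    rw [List.getElem?_eq_none (by omega)] at h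
    cases h
  unfold lastOut
  have h1 : (ls.take (i + 1)).length - 1 = i := by
    rw [List.length_take]
    omega
  rw [h1, List.getElem?_take_of_lt (Nat.lt_succ_self i), h]

lemma getElem?_snoc_take {ls : List Lev} {i k : ℕ} {n l : Lev} (hi : i ≤ ls.length)
    (h : (ls.take i ++ [n])[k]? = some l) : (k < i ∧ ls[k]? = some l) ∨ (k = i ∧ l = n) := by
  have hlen : (ls.take i).length = i := by rw [List.length_take]; omega
  by_cases hk : k < i
  · left
    rw [List.getElem?_append_left (by omega), List.getElem?_take_of_lt hk] at h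
    exact ⟨hk, h⟩
  · right
    rw [List.getElem?_append_right (by omega), hlen] at h
    by_cases hk2 : k = i
    · subst hk2
      simp only [Nat.sub_self, List.getElem?_cons_zero, Option.some.injEq] at h
      exact ⟨rfl, h.symm⟩
    · rw [List.getElem?_eq_none (by simp only [List.length_singleton]; omega)] at h
      cases h

lemma take_snoc_take {ls : List Lev} {i k : ℕ} {n : Lev} (hi : i ≤ ls.length) (hk : k ≤ i) :
    (ls.take i ++ [n]).take k = ls.take k := by
  have hlen : (ls.take i).length = i := by rw [List.length_take]; omega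
  rw [List.take_append_of_le_length (by omega), List.take_take, min_eq_left hk]

lemma GInv.out_of_last {s : ℕ} {S : St} (h : GInv A Y s S) {x : ℕ} : ∀ {i : ℕ},
    i ≤ S.2.1.length → InR Y (lastOut (S.2.1.take i)) x → ∀ k < i, ∀ l, S.2.1[k]? = some l →
      InR Y (out l) x := by
  intro i
  induction i with
  | zero => intro _ _ k hk; omega
  | succ i ih =>
    intro hi hx k hk l hl
    obtain ⟨l', hl'⟩ : ∃ l', S.2.1[i]? = some l' := ⟨_, List.getElem?_eq_getElem (by omega)⟩
    rw [lastOut_take hl'] at hx
    rcases Nat.lt_succ_iff_lt_or_eq.1 hk with hk | rfl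
    · exact ih (by omega) ((h.lev i l' hl').suf x (inR_of_out hx)) k hk l hl
    · rw [hl'] at hl
      obtain rfl := Option.some.inj hl
      exact hx

/-- levels which are kept -/
lemma LInv.mono {s s' : ℕ} {σ σ' : List Bool} {lg lg' : Log} {i : ℕ} {P : List (ℕ × Bool)}
    {l : Lev} (h : LInv A Y s σ lg i P l) (hs : s ≤ s') (hσ : σ <+: σ')
    (hn : ∀ x, σ.length ≤ x → σ'.getD x false = true → InR Y (out l) x)
    (hlg : ∀ e ∈ lg, e ∈ lg')
    (hlg' : ∀ e ∈ lg', e ∈ lg ∨ ∃ i', i' ≠ i ∧ ((∃ c, e.1 = wit0 i' c) ∨
      ∃ c j, e.1 = wit1 i' c j)) : LInv A Y s' σ' lg' i P l where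
  cs := h.cs.trans_le hs
  bs := h.bs.trans_le hs
  side := h.side
  sub := fun x hx => h.sub x (hσ.length_le.trans hx)
  suf := h.suf
  free := by
    intro hg e he hew
    rcases hlg' e he with h1 | ⟨i', hi', ⟨c, h1⟩ | ⟨c, j, h1⟩⟩
    · exact h.free hg e h1 hew
    · rw [h1] at hew
      exact hi' (wit0_inj hew).1
    · rw [h1] at hew
      exact wit_ne hew.symm
  freej := by
    intro j e he hew
    rcases hlg' e he with h1 | ⟨i', hi', ⟨c, h1⟩ | ⟨c, j', h1⟩⟩
    · exact h.freej j e h1 hew
    · rw [h1] at hew
      exact absurd hew wit_ne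
    · rw [h1] at hew
      exact absurd (wit1_inj hew).1 hi'
  gph := by
    intro q j hg
    obtain ⟨σ1, b0, b1, ⟨h1, h2⟩, h3, h4, h5, h6, h7, h8⟩ := h.gph q j hg
    refine ⟨σ1, b0, b1, ⟨h1.trans hσ, ?_⟩, h3, h4, h5, h6, hlg _ h7, hlg _ h8⟩
    intro x hx hx2
    by_cases hc : x < σ.length
    · rw [getD_prefix hσ hc] at hx2
      exact h2 x hx hx2
    · have := hn x (by omega) hx2
      rwa [out_some hg] at this
  sat := by
    intro j hj
    obtain ⟨F, b1, q, L', h1, h2, h3, h4, h5⟩ := h.sat j hj
    exact ⟨F, b1, q, L', h1, h2, h3, h4, hlg _ h5⟩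

lemma ginv_zero : GInv A Y 0 ([], [], []) where
  side := by
    intro x hx
    have := getD_lt hx
    simp at this
  lev := by
    intro i l hl
    simp at hl
  stamp := by
    intro e he
    cases he
  uniq := by
    intro e he
    cases he

/-- the invariants are preserved -/
theorem GInv.step (hsp : Splits Y) {s : ℕ} {S S' : St} (h : GInv A Y s S)
    (hst : StepS A Y s S S') : GInv A Y (s + 1) S' := by
  obtain ⟨σ, ls, lg⟩ := S
  obtain ⟨i, hi, hno, hcase⟩ := hst
  simp only at hi hno hcase
  have hlast : ∀ x, InR Y (lastOut (ls.take i)) x → ∀ k < i, ∀ l, ls[k]? = some l →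
      InR Y (out l) x := fun x hx => h.out_of_last hi hx
  rcases hcase with ⟨hie, y, hy1, hy2, hy3, rfl⟩ | ⟨hie, hno2, rfl⟩ |
    ⟨l0, q, j, hl0, hg, hdead, rfl⟩ | ⟨l0, σ', F', j, u0, u1, hl0, hg, hT, rfl⟩
  · -- a new level
    have htk : ls.take i = ls := by rw [hie, List.take_length]
    refine ⟨?_, ?_, ?_, h.uniq⟩
    · intro x hx
      rcases ext1_getD hy1 hx with h1 | rfl
      · exact h.side x h1
      · exact hy3
    · intro k l hl
      rcases getElem?_snoc_take hi hl with ⟨hk, hl'⟩ | ⟨rfl, rfl⟩
      · simp only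
        rw [take_snoc_take hi hk.le]
        refine (h.lev k l hl').mono (Nat.le_succ s) (prefix_ext1 _ _) ?_ (fun e he => he)
          (fun e he => Or.inl he)
        intro x hx hx2
        rcases ext1_getD hy1 hx2 with h1 | rfl
        · have := getD_lt h1
          simp only at hx
          omega
        · refine hlast x ?_ k hk l hl'
          rw [htk]
          exact hy2
      · simp only
        rw [take_snoc_take hi le_rfl, htk]
        refine ⟨Nat.lt_succ_self s, Nat.lt_succ_self s, ?_, fun x _ hx => hx, fun x hx => hx,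
          ?_, ?_, ?_, ?_⟩
        · intro x hx
          have := getD_lt hx
          simp at this
        · intro _ e he hew
          exact absurd ((h.stamp e he).1 _ _ hew) (lt_irrefl s)
        · intro j e he hew
          exact absurd ((h.stamp e he).2 _ _ _ hew) (lt_irrefl s)
        · intro q j hq
          cases hq
        · intro j hj
          cases hj
    · intro e he
      have h1 := h.stamp e he
      exact ⟨fun i c hc => (h1.1 i c hc).trans (Nat.lt_succ_self s),
        fun i c j hc => (h1.2 i c j hc).trans (Nat.lt_succ_self s)⟩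
  · -- padding
    refine ⟨?_, ?_, ?_, h.uniq⟩
    · intro x hx
      exact h.side x (padTo_getD hx)
    · intro k l hl
      refine (h.lev k l hl).mono (Nat.le_succ s) (prefix_padTo _ _) ?_ (fun e he => he)
          (fun e he => Or.inl he)
      intro x hx hx2
      have := getD_lt (padTo_getD hx2)
      simp only at hx
      omega
    · intro e he
      have h1 := h.stamp e he
      exact ⟨fun i c hc => (h1.1 i c hc).trans (Nat.lt_succ_self s),
        fun i c j hc => (h1.2 i c j hc).trans (Nat.lt_succ_self s)⟩
  · -- the reservoir is exhausted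
    refine ⟨h.side, ?_, ?_, h.uniq⟩
    · intro k l hl
      rcases getElem?_snoc_take hi hl with ⟨hk, hl'⟩ | ⟨rfl, rfl⟩
      · simp only
        rw [take_snoc_take hi hk.le]
        refine (h.lev k l hl').mono (Nat.le_succ s) List.prefix_rfl ?_ (fun e he => he)
          (fun e he => Or.inl he)
        intro x hx hx2
        have := getD_lt hx2
        simp only at hx
        omega
      · simp only
        rw [take_snoc_take hi le_rfl]
        have h0 := h.lev k l0 hl0
        simp only at h0
        obtain ⟨σ1, b0, b1, h1, h3, h4, h5, h6, h7, h8⟩ := h0.gph q j hg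
        refine ⟨Nat.lt_succ_self s, h0.bs.trans (Nat.lt_succ_self s), h0.side, ?_, ?_, ?_, ?_,
          ?_, ?_⟩
        · intro x hx hxP
          have h9 := h0.sub x hx hxP
          refine inR_cons.2 ⟨?_, h9⟩
          cases hY : Y (Nat.pair q x) with
          | false => rfl
          | true =>
            exfalso
            refine hdead ⟨x, hx, ?_⟩
            rw [out_some hg]
            exact inR_cons.2 ⟨hY, h9⟩
        · intro x hx
          exact h0.suf x (inR_cons.1 hx).2
        · intro _ e he hew
          exact absurd ((h.stamp e he).1 _ _ hew) (lt_irrefl s)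
        · intro j' e he hew
          left
          rcases h0.freej j' e he hew with h9 | ⟨q', h9⟩
          · exact List.mem_cons_of_mem _ h9
          · rw [hg] at h9
            obtain ⟨_, rfl⟩ := Prod.mk.inj (Option.some.inj h9)
            exact List.mem_cons_self
        · intro q' j' hq
          cases hq
        · intro j' hj'
          rcases List.mem_cons.1 hj' with rfl | hj'
          · refine ⟨l0.2.1, b1, q, l0.2.2.1, ⟨List.prefix_rfl, ?_⟩, fun x hx => hx, h4, h6, h8⟩
            intro x hx hx2
            exact absurd (getD_lt hx2) (not_lt.2 hx)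
          · obtain ⟨F, b1', q', L', i1, i2, i3, i4, i5⟩ := h0.sat j' hj'
            exact ⟨F, b1', q', L', i1, fun x hx => i2 x (inR_cons.1 hx).2, i3, i4, i5⟩
    · intro e he
      have h1 := h.stamp e he
      exact ⟨fun i c hc => (h1.1 i c hc).trans (Nat.lt_succ_self s),
        fun i c j hc => (h1.2 i c j hc).trans (Nat.lt_succ_self s)⟩
  · -- the second phase is entered
    have h0 := h.lev i l0 hl0
    simp only at h0
    obtain ⟨⟨a1, a2⟩, ⟨a3, a4⟩, _, ⟨a5, a6⟩, ⟨a7, a8⟩, a9⟩ := hT
    obtain ⟨g1, g2⟩ := goodB_of_not_emp hsp a9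
    refine ⟨?_, ?_, ?_, ?_⟩
    · intro x hx
      by_cases hc : x < σ.length
      · simp only at hx
        rw [getD_prefix a1 hc] at hx
        exact h.side x hx
      · exact (a2 x (getD_lt hx) (by omega) hx).1
    · intro k l hl
      rcases getElem?_snoc_take hi hl with ⟨hk, hl'⟩ | ⟨rfl, rfl⟩
      · simp only
        rw [take_snoc_take hi hk.le]
        refine (h.lev k l hl').mono (Nat.le_succ s) a1 ?_
          (fun e he => List.mem_append_left _ he) ?_
        · intro x hx hx2
          exact hlast x (h0.suf x (a2 x (getD_lt hx2) hx hx2).2) k hk l hl'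
        · intro e he
          rcases List.mem_append.1 he with he | he
          · exact Or.inl he
          · right
            refine ⟨i, by omega, ?_⟩
            simp only [List.mem_cons, List.not_mem_nil, or_false] at he
            rcases he with rfl | rfl
            · exact Or.inl ⟨_, rfl⟩
            · exact Or.inr ⟨_, _, rfl⟩
      · simp only
        rw [take_snoc_take hi le_rfl]
        refine ⟨h0.cs.trans (Nat.lt_succ_self s), h0.bs.trans (Nat.lt_succ_self s), ?_, ?_,
          h0.suf, ?_, ?_, ?_, ?_⟩
        · intro x hx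
          by_cases hc : x < l0.2.1.length
          · simp only at hx
            rw [getD_prefix a3 hc] at hx
            exact h0.side x hx
          · exact (a4 x (getD_lt hx) (by omega) hx).1
        · intro x hx
          exact h0.sub x (a1.length_le.trans hx)
        · intro hq
          cases hq
        · intro j' e he hew
          rcases List.mem_append.1 he with he | he
          · rcases h0.freej j' e he hew with h9 | ⟨q', h9⟩
            · exact Or.inl h9
            · rw [hg] at h9
              cases h9
          · simp only [List.mem_cons, List.not_mem_nil, or_false] at he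
            rcases he with rfl | rfl
            · exact absurd hew wit_ne
            · right
              have h9 := (wit1_inj hew).2.2
              rw [h9]
              exact ⟨_, rfl⟩
        · intro q' j' hq
          obtain ⟨rfl, rfl⟩ := Prod.mk.inj (Option.some.inj hq)
          refine ⟨σ', bits σ' u0, bits F' u1, ⟨List.prefix_rfl, ?_⟩, g1, g2, ⟨s, ?_⟩, ⟨s, ?_⟩,
            ?_, ?_⟩
          · intro x hx hx2
            exact absurd (getD_lt hx2) (not_lt.2 hx)
          · rw [length_bits]
            exact a7
          · rw [length_bits]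
            exact a8
          · exact List.mem_append_right _ (by simp)
          · exact List.mem_append_right _ (by simp)
        · intro j' hj'
          obtain ⟨F, b1', q', L', ⟨i0, i1⟩, i2, i3, i4, i5⟩ := h0.sat j' hj'
          refine ⟨F, b1', q', L', ⟨i0.trans a3, ?_⟩, i2, i3, i4, List.mem_append_left _ i5⟩
          intro x hx hx2
          by_cases hc : x < l0.2.1.length
          · simp only at hx2
            rw [getD_prefix a3 hc] at hx2
            exact i1 x hx hx2
          · exact i2 x (a4 x (getD_lt hx2) (by omega) hx2).2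
    · intro e he
      rcases List.mem_append.1 he with he | he
      · have h1 := h.stamp e he
        exact ⟨fun i c hc => (h1.1 i c hc).trans (Nat.lt_succ_self s),
          fun i c j hc => (h1.2 i c j hc).trans (Nat.lt_succ_self s)⟩
      · simp only [List.mem_cons, List.not_mem_nil, or_false] at he
        rcases he with rfl | rfl
        · refine ⟨fun i' c hc => ?_, fun i' c j' hc => absurd hc wit_ne⟩
          have := (wit0_inj hc).2
          have := h0.cs
          omega
        · refine ⟨fun i' c hc => absurd hc.symm wit_ne, fun i' c j' hc => ?_⟩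
          have := (wit1_inj hc).2.1
          have := h0.bs
          omega
    · have hfree0 : ∀ e ∈ lg, e.1 ≠ wit0 i l0.1.1 := h0.free hg
      have hfree1 : ∀ e ∈ lg, e.1 ≠ wit1 i l0.1.2 j := by
        intro e he hew
        rcases h0.freej j e he hew with h9 | ⟨q', h9⟩
        · exact a5 h9
        · rw [hg] at h9
          cases h9
      intro e he e' he' hee
      simp only [List.mem_append, List.mem_cons, List.not_mem_nil, or_false] at he he'
      rcases he with he | rfl | rfl
      · rcases he' with he' | rfl | rfl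
        · exact h.uniq e he e' he' hee
        · exact absurd hee (hfree0 e he)
        · exact absurd hee (hfree1 e he)
      · rcases he' with he' | rfl | rfl
        · exact absurd hee.symm (hfree0 e' he')
        · rfl
        · exact absurd hee wit_ne
      · rcases he' with he' | rfl | rfl
        · exact absurd hee.symm (hfree1 e' he')
        · exact absurd hee.symm wit_ne
        · rfl

end

end HighD3
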