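import Mathlib
import Pool.Agent.HighD3.Inv

/-!
Runs of the construction: elementary facts about one stage.
-/

set_option autoImplicit false

namespace HighD3

open Encodable Denumerable Filter
open Nat.Partrec (Code)
open JumpDeg HighD2

/-- a run of the construction -/
structure RunS (A Y : ℕ → Bool) (S : ℕ → St) : Prop where
  zero : S 0 = ([], [], [])
  step : ∀ s, StepS A Y s (S s) (S (s + 1))
  split : Splits Y

/-- the levels below `e` are fixed from stage `t` on -/
def Stable (S : ℕ → St) (e t : ℕ) : Prop :=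
  ∀ k < e, ∃ l, ∀ s, t ≤ s → (S s).2.1[k]? = some l

lemma Stable.mono {S : ℕ → St} {e t t' : ℕ} (h : Stable S e t) (ht : t ≤ t') : Stable S e t' :=
  fun k hk => (h k hk).imp fun _ hl s hs => hl s (ht.trans hs)

lemma Stable.lower {S : ℕ → St} {e e' t : ℕ} (h : Stable S e t) (he : e' ≤ e) : Stable S e' t :=
  fun k hk => h k (hk.trans_le he)

lemma Stable.low {S : ℕ → St} {e t : ℕ} (h : Stable S e t) {s : ℕ} (hs : t ≤ s) :
    ∀ k < e, (S (s + 1)).2.1[k]? = (S s).2.1[k]? := by
  intro k hk
  obtain ⟨l, hl⟩ := h k hk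
  rw [hl s hs, hl (s + 1) (by omega)]

lemma Stable.le_length {S : ℕ → St} {e t : ℕ} (h : Stable S e t) {s : ℕ} (hs : t ≤ s) :
    e ≤ (S s).2.1.length := by
  rcases Nat.eq_zero_or_pos e with rfl | he
  · exact Nat.zero_le _
  · obtain ⟨l, hl⟩ := h (e - 1) (by omega)
    have h1 := hl s hs
    by_contra hc
    rw [List.getElem?_eq_none (by omega)] at h1
    cases h1

lemma Stable.take_eq {S : ℕ → St} {e t : ℕ} (h : Stable S e t) {s k : ℕ} (hs : t ≤ s)
    (hk : k ≤ e) : (S s).2.1.take k = (S t).2.1.take k := by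
  apply List.ext_getElem?
  intro m
  by_cases hm : m < k
  · rw [List.getElem?_take_of_lt hm, List.getElem?_take_of_lt hm]
    obtain ⟨l, hl⟩ := h m (by omega)
    rw [hl s hs, hl t le_rfl]
  · rw [List.getElem?_take_eq_none (by omega), List.getElem?_take_eq_none (by omega)]

lemma snoc_take_lt {ls : List Lev} {i k : ℕ} {n : Lev} (hi : i ≤ ls.length) (hk : k < i) :
    (ls.take i ++ [n])[k]? = ls[k]? := by
  have hlen : (ls.take i).length = i := by rw [List.length_take]; omega
  rw [List.getElem?_append_left (by omega), List.getElem?_take_of_lt hk]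

lemma snoc_take_eq {ls : List Lev} {i : ℕ} {n : Lev} (hi : i ≤ ls.length) :
    (ls.take i ++ [n])[i]? = some n := by
  have hlen : (ls.take i).length = i := by rw [List.length_take]; omega
  rw [List.getElem?_append_right (by omega), hlen]
  simp

lemma snoc_take_gt {ls : List Lev} {i k : ℕ} {n : Lev} (hi : i ≤ ls.length) (hk : i < k) :
    (ls.take i ++ [n])[k]? = none := by
  have hlen : (ls.take i).length = i := by rw [List.length_take]; omega
  rw [List.getElem?_eq_none]
  simp only [List.length_append, List.length_singleton]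
  omega

lemma lt_of_getElem? {ls : List Lev} {k : ℕ} {l : Lev} (h : ls[k]? = some l) : k < ls.length := by
  by_contra hc
  rw [List.getElem?_eq_none (by omega)] at h
  cases h

/-- what happens to a level in one stage, when the lower levels do not act -/
def LS (A Y : ℕ → Bool) (s e : ℕ) (σ : List Bool) (l l' : Lev) : Prop :=
  (l' = l ∧ ¬ Act A Y s σ e l) ∨
  (∃ q j, l.2.2.2.2 = some (q, j) ∧
    l' = ((s, l.1.2), l.2.1, (q, false) :: l.2.2.1, j :: l.2.2.2.1, none)) ∨
  (l.2.2.2.2 = none ∧ ∃ σ' F' j u0 u1 q, T2S A Y s σ e l σ' F' j u0 u1 ∧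
    l' = ((l.1.1, l.1.2), F', l.2.2.1, l.2.2.2.1, some (q, j)))

section
variable {A Y : ℕ → Bool}

lemma level_step {s : ℕ} {S S' : St} (hst : StepS A Y s S S') {e : ℕ}
    (hlow : ∀ k < e, S'.2.1[k]? = S.2.1[k]?) {l : Lev} (hl : S.2.1[e]? = some l) :
    ∃ l', S'.2.1[e]? = some l' ∧ LS A Y s e S.1 l l' := by
  have hel := lt_of_getElem? hl
  obtain ⟨i, hi, hno, ⟨hie, y, hy1, hy2, hy3, h⟩ | ⟨hie, hno2, h⟩ |
    ⟨l0, q, j, hl0, hg, hdead, h⟩ | ⟨l0, σ', F', j, u0, u1, hl0, hg, hT, h⟩⟩ := hst
  · refine ⟨l, ?_, Or.inl ⟨rfl, hno e (by omega) l hl⟩⟩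
    rw [h]
    simp only
    rw [snoc_take_lt hi (by omega), hl]
  · refine ⟨l, ?_, Or.inl ⟨rfl, hno e (by omega) l hl⟩⟩
    rw [h]
    exact hl
  · rcases lt_trichotomy i e with h1 | rfl | h1
    · exfalso
      have h2 := hlow i h1
      rw [h] at h2
      simp only at h2
      rw [snoc_take_eq hi, hl0] at h2
      have h3 := Option.some.inj h2
      rw [← h3] at hg
      cases hg
    · rw [hl] at hl0
      obtain rfl := Option.some.inj hl0
      refine ⟨_, ?_, Or.inr (Or.inl ⟨q, j, hg, rfl⟩)⟩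
      rw [h]
      simp only
      rw [snoc_take_eq hi]
    · refine ⟨l, ?_, Or.inl ⟨rfl, hno e h1 l hl⟩⟩
      rw [h]
      simp only
      rw [snoc_take_lt hi h1, hl]
  · rcases lt_trichotomy i e with h1 | rfl | h1
    · exfalso
      have h2 := hlow i h1
      rw [h] at h2
      simp only at h2
      rw [snoc_take_eq hi, hl0] at h2
      have h3 := Option.some.inj h2
      rw [← h3] at hg
      cases hg
    · rw [hl] at hl0
      obtain rfl := Option.some.inj hl0
      refine ⟨_, ?_, Or.inr (Or.inr ⟨hg, σ', F', j, u0, u1,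
        encode (((σ', F'), (bits σ' u0, bits F' u1), l.2.2.1) : Qu), hT, rfl⟩)⟩
      rw [h]
      simp only
      rw [snoc_take_eq hi]
    · refine ⟨l, ?_, Or.inl ⟨rfl, hno e h1 l hl⟩⟩
      rw [h]
      simp only
      rw [snoc_take_lt hi h1, hl]

lemma none_step {s : ℕ} {S S' : St} (hst : StepS A Y s S S') {e : ℕ}
    (hlow : ∀ k < e, S'.2.1[k]? = S.2.1[k]?) (hlen : S.2.1.length = e) :
    (∃ l, S'.2.1[e]? = some l) ∨ (S'.1 = padTo S.1 s ∧
      ¬ ∃ y < s, S.1.length ≤ y ∧ InR Y (lastOut S.2.1) y ∧ A y = true) := by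
  obtain ⟨i, hi, hno, ⟨hie, y, hy1, hy2, hy3, h⟩ | ⟨hie, hno2, h⟩ |
    ⟨l0, q, j, hl0, hg, hdead, h⟩ | ⟨l0, σ', F', j, u0, u1, hl0, hg, hT, h⟩⟩ := hst
  · left
    rw [h, ← hlen, ← hie]
    exact ⟨_, snoc_take_eq hi⟩
  · right
    rw [h]
    exact ⟨rfl, hno2⟩
  · exfalso
    have h1 := lt_of_getElem? hl0
    have h2 := hlow i (by omega)
    rw [h] at h2
    simp only at h2
    rw [snoc_take_eq hi, hl0] at h2
    have h3 := Option.some.inj h2
    rw [← h3] at hg
    cases hg
  · exfalso
    have h1 := lt_of_getElem? hl0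
    have h2 := hlow i (by omega)
    rw [h] at h2
    simp only at h2
    rw [snoc_take_eq hi, hl0] at h2
    have h3 := Option.some.inj h2
    rw [← h3] at hg
    cases hg

lemma noact {s : ℕ} {S S' : St} (hst : StepS A Y s S S') {e : ℕ}
    (hlow : ∀ k < e, S'.2.1[k]? = S.2.1[k]?) :
    ∀ k < e, ∀ l, S.2.1[k]? = some l → ¬ Act A Y s S.1 k l := by
  intro k hk l hl
  obtain ⟨l', hl', h | ⟨q, j, h1, h2⟩ | ⟨h1, σ', F', j, u0, u1, q, h2, h3⟩⟩ :=
    level_step hst (fun k' hk' => hlow k' (hk'.trans hk)) hl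
  · exact h.2
  · exfalso
    rw [hlow k hk, hl] at hl'
    have h3 := Option.some.inj hl'
    rw [h2] at h3
    rw [h3] at h1
    cases h1
  · exfalso
    rw [hlow k hk, hl] at hl'
    have h4 := Option.some.inj hl'
    rw [h3] at h4
    rw [h4] at h1
    cases h1

lemma new_elem {s : ℕ} {S S' : St} (G : GInv A Y s S) (hst : StepS A Y s S S') {k : ℕ} {l : Lev}
    (hl : S.2.1[k]? = some l) (hl' : S'.2.1[k]? = some l) {x : ℕ} (hx : S.1.length ≤ x)
    (hx2 : S'.1.getD x false = true) : InR Y (out l) x := by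
  have hkl := lt_of_getElem? hl
  obtain ⟨i, hi, hno, ⟨hie, y, hy1, hy2, hy3, h⟩ | ⟨hie, hno2, h⟩ |
    ⟨l0, q, j, hl0, hg, hdead, h⟩ | ⟨l0, σ', F', j, u0, u1, hl0, hg, hT, h⟩⟩ := hst
  · rw [h] at hx2
    rcases ext1_getD hy1 hx2 with h1 | rfl
    · exact absurd (getD_lt h1) (not_lt.2 hx)
    · refine G.out_of_last hi ?_ k (by omega) l hl
      rw [hie, List.take_length]
      exact hy2
  · rw [h] at hx2
    exact absurd (getD_lt (padTo_getD hx2)) (not_lt.2 hx)
  · rw [h] at hx2
    exact absurd (getD_lt hx2) (not_lt.2 hx)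
  · rw [h] at hx2 hl'
    simp only at hx2 hl'
    rcases lt_trichotomy i k with h1 | rfl | h1
    · rw [snoc_take_gt hi h1] at hl'
      cases hl'
    · exfalso
      rw [snoc_take_eq hi] at hl'
      rw [hl] at hl0
      obtain rfl := Option.some.inj hl0
      have h3 := Option.some.inj hl'
      rw [← h3] at hg
      cases hg
    · exact G.out_of_last hi ((G.lev i l0 hl0).suf x (hT.1.2 x (getD_lt hx2) hx hx2).2) k h1 l hl

lemma len_step {s : ℕ} {S S' : St} (hst : StepS A Y s S S') :
    (∃ y, S.1.length ≤ y ∧ S'.1.getD y false = true) ∨ S'.2.1.length ≤ S.2.1.length := by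
  obtain ⟨i, hi, hno, ⟨hie, y, hy1, hy2, hy3, h⟩ | ⟨hie, hno2, h⟩ |
    ⟨l0, q, j, hl0, hg, hdead, h⟩ | ⟨l0, σ', F', j, u0, u1, hl0, hg, hT, h⟩⟩ := hst
  · left
    refine ⟨y, hy1, ?_⟩
    rw [h]
    exact ext1_getD_self hy1
  · right
    rw [h]
  · right
    have h1 := lt_of_getElem? hl0
    rw [h]
    simp only [List.length_append, List.length_take, List.length_singleton]
    omega
  · right
    have h1 := lt_of_getElem? hl0
    rw [h]
    simp only [List.length_append, List.length_take, List.length_singleton]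
    omega

end

namespace RunS

variable {A Y : ℕ → Bool} {S : ℕ → St}

lemma ginv (R : RunS A Y S) (s : ℕ) : GInv A Y s (S s) := by
  induction s with
  | zero => rw [R.zero]; exact ginv_zero
  | succ s ih => exact ih.step R.split (R.step s)

lemma pfx (R : RunS A Y S) (s : ℕ) : (S s).1 <+: (S (s + 1)).1 := by
  obtain ⟨i, hi, hno, ⟨hie, y, hy1, hy2, hy3, h⟩ | ⟨hie, hno2, h⟩ |
    ⟨l0, q, j, hl0, hg, hdead, h⟩ | ⟨l0, σ', F', j, u0, u1, hl0, hg, hT, h⟩⟩ := R.step s
  · rw [h]; exact prefix_ext1 _ _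
  · rw [h]; exact prefix_padTo _ _
  · rw [h]
  · rw [h]; exact hT.1.1

lemma log_succ (R : RunS A Y S) {s : ℕ} {e : ℕ × ℕ × List Bool} (he : e ∈ (S s).2.2) :
    e ∈ (S (s + 1)).2.2 := by
  obtain ⟨i, hi, hno, ⟨hie, y, hy1, hy2, hy3, h⟩ | ⟨hie, hno2, h⟩ |
    ⟨l0, q, j, hl0, hg, hdead, h⟩ | ⟨l0, σ', F', j, u0, u1, hl0, hg, hT, h⟩⟩ := R.step s
  · rw [h]; exact he
  · rw [h]; exact he
  · rw [h]; exact he
  · rw [h]; exact List.mem_append_left _ he

lemma log_mono (R : RunS A Y S) {s s' : ℕ} (h : s ≤ s') {e : ℕ × ℕ × List Bool}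
    (he : e ∈ (S s).2.2) : e ∈ (S s').2.2 := by
  induction h with
  | refl => exact he
  | step _ ih => exact R.log_succ ih

lemma log_uniq (R : RunS A Y S) {s s' : ℕ} {e e' : ℕ × ℕ × List Bool} (he : e ∈ (S s).2.2)
    (he' : e' ∈ (S s').2.2) (h : e.1 = e'.1) : e = e' :=
  (R.ginv (max s s')).uniq e (R.log_mono (le_max_left _ _) he) e'
    (R.log_mono (le_max_right _ _) he') h

end RunS

/-- the changes of a level -/
lemma LS.facts {A Y : ℕ → Bool} {s e : ℕ} {σ : List Bool} {l l' : Lev}
    (h : LS A Y s e σ l l') : l.2.1 <+: l'.2.1 ∧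
      (∀ x, l.2.1.length ≤ x → l'.2.1.getD x false = true → InR Y l.2.2.1 x) ∧
      (∀ x, InR Y l'.2.2.1 x → InR Y l.2.2.1 x) ∧ (∀ j ∈ l.2.2.2.1, j ∈ l'.2.2.2.1) ∧
      l'.1.2 = l.1.2 := by
  rcases h with ⟨rfl, _⟩ | ⟨q, j, h1, rfl⟩ | ⟨h1, σ', F', j, u0, u1, q, h2, rfl⟩
  · exact ⟨List.prefix_rfl, fun x hx hx2 => absurd (getD_lt hx2) (not_lt.2 hx), fun x hx => hx,
      fun j hj => hj, rfl⟩
  · exact ⟨List.prefix_rfl, fun x hx hx2 => absurd (getD_lt hx2) (not_lt.2 hx),
      fun x hx => (inR_cons.1 hx).2, fun j hj => List.mem_cons_of_mem _ hj, rfl⟩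
  · exact ⟨h2.2.1.1, fun x hx hx2 => (h2.2.1.2 x (getD_lt hx2) hx hx2).2, fun x hx => hx,
      fun j hj => hj, rfl⟩

/-- a default level -/
def dfltL : Lev := ((0, 0), [], [], [], none)

/-- the diagonalisation succeeds for `B` -/
def Diag (S : ℕ → St) (B : ℕ → Bool) : Prop :=
  ∀ j, (∀ n, ∃ u s, Stab (ra j) n s u) → ∃ s n b, (n, j, b) ∈ (S s).2.2 ∧
    (∃ t, Stab (ra j) n t b.length) ∧ JumpDeg.pre (jump B) b.length = b

lemma prefix_limOf {f : ℕ → List Bool} (hf : ∀ k, f k <+: f (k + 1)) {k : ℕ} {σ : List Bool}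
    (h : σ <+: f k) : σ <+: JumpDeg.pre (limOf f) σ.length := by
  have h1 := h.trans (chain_pre hf k)
  have h2 := eq_pre_of_prefix h1
  rw [← h2]

/-- a level which acts infinitely often gives a subset of the complement -/
theorem hcase {A Y : ℕ → Bool} {S : ℕ → St} (R : RunS A Y S) (hS : LimF S) {e t : ℕ}
    (hst : Stable S e t) {fl : ℕ → Lev} (hfl : ∀ s, t ≤ s → (S s).2.1[e]? = some (fl s))
    (hchg : ∀ N, ∃ s, N ≤ s ∧ t ≤ s ∧ fl (s + 1) ≠ fl s) :
    ∃ B : ℕ → Bool, LimF B ∧ (∀ N, ∃ y, N < y ∧ B y = true) ∧ (∀ y, B y = true → A y = false) ∧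
      Diag S B := by
  classical
  have hLS : ∀ s, t ≤ s → LS A Y s e (S s).1 (fl s) (fl (s + 1)) := by
    intro s hs
    obtain ⟨l', hl', h⟩ := level_step (R.step s) (hst.low hs) (hfl s hs)
    rw [hfl (s + 1) (by omega)] at hl'
    obtain rfl := Option.some.inj hl'
    exact h
  -- long term facts
  have hlong : ∀ s s', t ≤ s → s ≤ s' → (fl s).2.1 <+: (fl s').2.1 ∧
      (∀ x, (fl s).2.1.length ≤ x → (fl s').2.1.getD x false = true → InR Y (fl s).2.2.1 x) ∧
      (∀ x, InR Y (fl s').2.2.1 x → InR Y (fl s).2.2.1 x) ∧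
      (∀ j ∈ (fl s).2.2.2.1, j ∈ (fl s').2.2.2.1) ∧ (fl s').1.2 = (fl s).1.2 := by
    intro s s' hs hss
    induction hss with
    | refl =>
      exact ⟨List.prefix_rfl, fun x hx hx2 => absurd (getD_lt hx2) (not_lt.2 hx), fun x hx => hx,
        fun j hj => hj, rfl⟩
    | step hss ih =>
      rename_i m
      have hss' : s ≤ m := hss
      obtain ⟨a1, a2, a3, a4, a5⟩ := ih
      obtain ⟨b1, b2, b3, b4, b5⟩ := (hLS m (hs.trans hss')).facts
      refine ⟨a1.trans b1, ?_, fun x hx => a3 x (b3 x hx), fun j hj => b4 j (a4 j hj),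
        b5.trans a5⟩
      intro x hx hx2
      by_cases hc : x < (fl m).2.1.length
      · have hx2' : (fl (m + 1)).2.1.getD x false = true := hx2
        rw [getD_prefix b1 hc] at hx2'
        exact a2 x hx hx2'
      · exact a3 x (b2 x (by omega) hx2)
  -- the second phase is entered infinitely often
  have hT2 : ∀ N, ∃ s, N ≤ s ∧ t ≤ s ∧ (fl s).2.2.2.2 = none ∧ (fl (s + 1)).2.2.2.2 ≠ none := by
    intro N
    by_contra hcon
    push Not at hcon
    obtain ⟨s1, h1, h2, h3⟩ := hchg N
    have hnone : (fl (s1 + 1)).2.2.2.2 = none := by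
      rcases hLS s1 h2 with h | ⟨q, j, h4, h5⟩ | ⟨h4, _⟩
      · exact absurd h.1 h3
      · rw [h5]
      · exact hcon s1 h1 h2 h4
    have hnone' : ∀ m, s1 + 1 ≤ m → (fl m).2.2.2.2 = none := by
      intro m hm
      induction hm with
      | refl => exact hnone
      | step hm ih =>
        rename_i m
        have hm' : s1 + 1 ≤ m := hm
        exact hcon m (by omega) (by omega) ih
    obtain ⟨s2, h4, h5, h6⟩ := hchg (s1 + 1)
    rcases hLS s2 h5 with h | ⟨q, j, h7, h8⟩ | ⟨h7, σ', F', j, u0, u1, q, h8, h9⟩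
    · exact h6 h.1
    · rw [hnone' s2 h4] at h7
      cases h7
    · have := hnone' (s2 + 1) (by omega)
      rw [h9] at this
      cases this
  -- the set
  let f : ℕ → List Bool := fun k => (fl (t + k)).2.1
  have hf : ∀ k, f k <+: f (k + 1) := fun k => (hLS (t + k) (by omega)).facts.1
  have hgrow : ∀ k0, ∃ k, k0 ≤ k ∧ ∃ y, (f k).length ≤ y ∧ (f (k + 1)).getD y false = true := by
    intro k0
    obtain ⟨s, h1, h2, h3, h4⟩ := hT2 (t + k0)
    refine ⟨s - t, by omega, ?_⟩
    have e1 : t + (s - t) = s := by omega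
    have e2 : t + (s - t + 1) = s + 1 := by omega
    show ∃ y, (fl (t + (s - t))).2.1.length ≤ y ∧
      (fl (t + (s - t + 1))).2.1.getD y false = true
    rw [e1, e2]
    rcases hLS s h2 with h | ⟨q, j, h7, h8⟩ | ⟨h7, σ', F', j, u0, u1, q, h8, h9⟩
    · rw [h.1] at h4
      exact absurd h3 h4
    · rw [h3] at h7
      cases h7
    · rw [h9]
      obtain ⟨_, _, ⟨y, _, hy1, hy2⟩, _⟩ := h8
      exact ⟨y, hy1, hy2⟩
  have hflim : LimF (fun k : ℕ => f k) := by
    have h1 : LimF (fun k : ℕ => S (t + k)) :=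
      LimF.comp (f := S) (g := fun k : ℕ => t + k) hS
        (LimF.prim (Primrec.nat_add.comp (Primrec.const t) Primrec.id))
    have h2 : LimF (fun T : St => (T.2.1.getD e dfltL).2.1) :=
      LimF.prim (Primrec.fst.comp (Primrec.snd.comp ((Primrec.list_getD dfltL).comp
        (Primrec.fst.comp Primrec.snd) (Primrec.const e))))
    refine (LimF.comp h2 h1).congr fun k => ?_
    have h3 := hfl (t + k) (by omega)
    show ((S (t + k)).2.1.getD e dfltL).2.1 = (fl (t + k)).2.1
    rw [List.getD, h3]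
    rfl
  refine ⟨limOf f, ?_, chain_infinite hf hgrow, ?_, ?_⟩
  · have h1 : LimF (fun q : ℕ × ℕ => (fun (_ : ℕ) (k : ℕ) => f k) q.1 q.2) :=
      LimF.comp (f := fun k : ℕ => f k) (g := fun q : ℕ × ℕ => q.2) hflim
        (LimF.of_computable Computable.snd)
    have h2 := limF_limOf (f := fun (_ : ℕ) (k : ℕ) => f k) h1 (fun _ k => hf k)
      (fun _ N => chain_unbounded hf hgrow N)
    exact LimF.comp (f := fun q : ℕ × ℕ => limOf f q.2) (g := fun n : ℕ => (0, n)) h2
      (LimF.of_computable (Computable.pair (Computable.const 0) Computable.id))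
  · intro y hy
    obtain ⟨k, hk⟩ := limOf_iff.1 hy
    exact ((R.ginv (t + k)).lev e _ (hfl (t + k) (by omega))).side y hk
  · intro j hj
    -- total requirements are satisfied
    have hsat : ∀ j, (∃ u r, Stab (ra j) (wit1 e (fl t).1.2 j) r u) →
        ∃ s, t ≤ s ∧ j ∈ (fl s).2.2.2.1 := by
      intro j
      induction j using Nat.strong_induction_on with
      | _ j ih =>
        rintro ⟨u, r, hur⟩
        -- all smaller ones
        have hsm : ∃ s1, t ≤ s1 ∧ ∀ j' < j, (∃ u r, Stab (ra j') (wit1 e (fl t).1.2 j') r u) →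
            j' ∈ (fl s1).2.2.2.1 := by
          have key : ∀ m ≤ j, ∃ s1, t ≤ s1 ∧ ∀ j' < m,
              (∃ u r, Stab (ra j') (wit1 e (fl t).1.2 j') r u) → j' ∈ (fl s1).2.2.2.1 := by
            intro m
            induction m with
            | zero => exact fun _ => ⟨t, le_rfl, fun j' hj' => by omega⟩
            | succ m ihm =>
              intro hm
              obtain ⟨s1, h1, h2⟩ := ihm (by omega)
              by_cases hc : ∃ u r, Stab (ra m) (wit1 e (fl t).1.2 m) r u
              · obtain ⟨s2, h3, h4⟩ := ih m (by omega) hc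
                refine ⟨max s1 s2, h1.trans (le_max_left _ _), fun j' hj' hP => ?_⟩
                rcases Nat.lt_succ_iff_lt_or_eq.1 hj' with h5 | rfl
                · exact (hlong s1 _ h1 (le_max_left _ _)).2.2.2.1 j' (h2 j' h5 hP)
                · exact (hlong s2 _ h3 (le_max_right _ _)).2.2.2.1 _ h4
              · refine ⟨s1, h1, fun j' hj' hP => ?_⟩
                rcases Nat.lt_succ_iff_lt_or_eq.1 hj' with h5 | rfl
                · exact h2 j' h5 hP
                · exact absurd hP hc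
          exact key j le_rfl
        obtain ⟨s1, hs1, hsm⟩ := hsm
        obtain ⟨s, h1, h2, h3, h4⟩ := hT2 (max s1 (max r (u + 1)))
        have hs1s : s1 ≤ s := (le_max_left _ _).trans h1
        have hrs : r ≤ s := ((le_max_left _ _).trans (le_max_right _ _)).trans h1
        have hus : u + 1 ≤ s := ((le_max_right _ _).trans (le_max_right _ _)).trans h1
        have hbirth : (fl s).1.2 = (fl t).1.2 := (hlong t s le_rfl h2).2.2.2.2
        rcases hLS s h2 with h | ⟨q, j', h7, h8⟩ | ⟨h7, σ', F', j', u0, u1, q, h8, h9⟩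
        · rw [h.1] at h4
          exact absurd h3 h4
        · rw [h3] at h7
          cases h7
        · obtain ⟨_, _, _, ⟨c1, c2⟩, ⟨_, c4⟩, _⟩ := h8
          rw [hbirth] at c4
          by_cases hjs : j ∈ (fl s).2.2.2.1
          · exact ⟨s, h2, hjs⟩
          · have hle : j' ≤ j := by
              by_contra hlt
              refine c2 j (by omega) hjs ⟨u, by omega, ?_⟩
              rw [hbirth]
              exact hur.mono hrs
            have hge : j ≤ j' := by
              by_contra hlt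
              have h10 := hsm j' (by omega) ⟨u1, s, c4⟩
              exact c1 ((hlong s1 s hs1 hs1s).2.2.2.1 j' h10)
            have hjj : j' = j := le_antisymm hle hge
            subst hjj
            -- the next exhaustion puts `j` into `sat`
            have hph : ∀ m, s + 1 ≤ m → (fl m).2.2.2.2 = some (q, j') ∨
                j' ∈ (fl m).2.2.2.1 := by
              intro m hm
              induction hm with
              | refl => left; rw [h9]
              | step hm ihm =>
                rename_i m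
                have hm' : s + 1 ≤ m := hm
                rcases ihm with h11 | h11
                · rcases hLS m (by omega) with h | ⟨q', j'', h12, h13⟩ | ⟨h12, _⟩
                  · left
                    show (fl (m + 1)).2.2.2.2 = _
                    rw [h.1]
                    exact h11
                  · right
                    show j' ∈ (fl (m + 1)).2.2.2.1
                    rw [h11] at h12
                    obtain ⟨_, rfl⟩ := Prod.mk.inj (Option.some.inj h12)
                    rw [h13]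
                    exact List.mem_cons_self
                  · rw [h11] at h12
                    cases h12
                · right
                  exact (hLS m (by omega)).facts.2.2.2.1 j' h11
            obtain ⟨s3, i1, i2, i3, i4⟩ := hT2 (s + 1)
            rcases hph s3 i1 with h11 | h11
            · rw [i3] at h11
              cases h11
            · exact ⟨s3, i2, h11⟩
    obtain ⟨s, hs, hjs⟩ := hsat j (hj _)
    have hG := (R.ginv s).lev e _ (hfl s hs)
    obtain ⟨F, b1, q, L', ⟨g1, g2⟩, g3, g4, g5, g6⟩ := hG.sat j hjs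
    refine ⟨s, _, b1, g6, g5, ?_⟩
    have hks : f (s - t) = (fl s).2.1 := by
      show (fl (t + (s - t))).2.1 = _
      rw [show t + (s - t) = s by omega]
    refine g4 (limOf f) (prefix_limOf hf (k := s - t) (by rw [hks]; exact g1)) ?_
    intro x hx hx2
    obtain ⟨k, hk⟩ := limOf_iff.1 hx2
    by_cases hc : x < (fl s).2.1.length
    · have h1 : (fl s).2.1.getD x false = true := by
        have h2 := limOf_eq hf (k := s - t) (i := x) (by rw [hks]; exact hc)
        rw [hx2, hks] at h2
        exact h2.symm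
      exact g2 x hx h1
    · have h1 : (fl (max s (t + k))).2.1.getD x false = true :=
        getD_prefix_true (hlong (t + k) _ (by omega) (le_max_right _ _)).1 hk
      exact g3 x ((hlong s _ hs (le_max_left _ _)).2.1 x (by omega) h1)

end HighD3
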