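import Mathlib
import Pool.Agent.HighD3.Run

/-!
Global analysis of the construction: one of the sets built is as wanted.
-/

set_option autoImplicit false

namespace HighD3

open Encodable Denumerable Filter
open Nat.Partrec (Code)
open JumpDeg HighD2

/-- every infinite reservoir meets both sides of `A` infinitely often -/
def Dense (A Y : ℕ → Bool) : Prop := ∀ L : List (ℕ × Bool),
  (∀ N, ∃ x, N ≤ x ∧ InR Y L x) → ∀ (b : Bool) (N : ℕ), ∃ x, N ≤ x ∧ InR Y L x ∧ A x = b

section
variable {A Y : ℕ → Bool} {S : ℕ → St}

/-- reservoirs of stable levels are infinite, if the lengths of the strings are unbounded -/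
lemma inf_res (R : RunS A Y S) {e t : ℕ} (hst : Stable S e t)
    (hub : ∀ N, ∃ s, t ≤ s ∧ N ≤ (S s).1.length) : ∀ k ≤ e, ∀ N, ∃ x, N ≤ x ∧
      InR Y (lastOut ((S t).2.1.take k)) x := by
  intro k
  induction k with
  | zero =>
    intro _ N
    refine ⟨N, le_rfl, ?_⟩
    have : lastOut ((S t).2.1.take 0) = [] := by simp [lastOut]
    rw [this]
    exact inR_nil _ _
  | succ k ih =>
    intro hk N
    obtain ⟨l, hl⟩ := hst k (by omega)
    have h0 := (R.ginv t).lev k l (hl t le_rfl)
    rw [lastOut_take (hl t le_rfl)]
    cases hg : l.2.2.2.2 with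
    | none =>
      rw [out_none hg]
      obtain ⟨x, hx1, hx2⟩ := ih (by omega) (max N (S t).1.length)
      exact ⟨x, (le_max_left _ _).trans hx1, h0.sub x ((le_max_right _ _).trans hx1) hx2⟩
    | some p =>
      by_contra hcon
      obtain ⟨s, hs, hN⟩ := hub N
      refine noact (R.step s) (hst.low hs) k (by omega) l (hl s hs) (Or.inl ⟨?_, ?_⟩)
      · rw [hg]
        simp
      · rintro ⟨y, hy1, hy2⟩
        exact hcon ⟨y, hN.trans hy1, hy2⟩

lemma pfx_mono (R : RunS A Y S) {s s' : ℕ} (h : s ≤ s') : (S s).1 <+: (S s').1 :=
  chain_mono (f := fun s => (S s).1) R.pfx h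

/-- if all levels stabilise, the first set built is as wanted -/
theorem gcase (R : RunS A Y S) (hS : LimF S) (hD : Dense A Y) (hall : ∀ e, ∃ t, Stable S e t) :
    ∃ B : ℕ → Bool, LimF B ∧ (∀ N, ∃ y, N < y ∧ B y = true) ∧ (∀ y, B y = true → A y = true) ∧
      Diag S B := by
  classical
  let f : ℕ → List Bool := fun s => (S s).1
  have hf : ∀ k, f k <+: f (k + 1) := R.pfx
  have hgrow : ∀ k0, ∃ k, k0 ≤ k ∧ ∃ y, (f k).length ≤ y ∧ (f (k + 1)).getD y false = true := by
    intro k0
    by_contra hcon
    have hlen : ∀ s, k0 ≤ s → (S s).2.1.length ≤ (S k0).2.1.length := by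
      intro s hs
      induction hs with
      | refl => exact le_rfl
      | step hs ih =>
        rename_i m
        have hm : k0 ≤ m := hs
        rcases len_step (R.step m) with h | h
        · exact absurd ⟨m, hm, h⟩ hcon
        · exact h.trans ih
    obtain ⟨t, ht⟩ := hall ((S k0).2.1.length + 1)
    have h1 := ht.le_length (le_max_left t k0)
    have h2 := hlen (max t k0) (le_max_right _ _)
    omega
  have hub := chain_unbounded hf hgrow
  have hflim : LimF (fun k : ℕ => f k) :=
    LimF.comp (f := fun T : St => T.1) (g := S) (LimF.of_computable Computable.fst) hS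
  refine ⟨limOf f, ?_, chain_infinite hf hgrow, ?_, ?_⟩
  · have h1 : LimF (fun q : ℕ × ℕ => (fun (_ : ℕ) (k : ℕ) => f k) q.1 q.2) :=
      LimF.comp (f := fun k : ℕ => f k) (g := fun q : ℕ × ℕ => q.2) hflim
        (LimF.of_computable Computable.snd)
    have h2 := limF_limOf (f := fun (_ : ℕ) (k : ℕ) => f k) h1 (fun _ k => hf k)
      (fun _ N => hub N)
    exact LimF.comp (f := fun q : ℕ × ℕ => limOf f q.2) (g := fun n : ℕ => (0, n)) h2
      (LimF.of_computable (Computable.pair (Computable.const 0) Computable.id))
  · intro y hy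
    obtain ⟨k, hk⟩ := limOf_iff.1 hy
    exact (R.ginv k).side y hk
  · intro e he
    obtain ⟨t, ht⟩ := hall (e + 1)
    obtain ⟨l, hl⟩ := ht e (Nat.lt_succ_self e)
    have hub' : ∀ N, ∃ s, t ≤ s ∧ N ≤ (S s).1.length := by
      intro N
      obtain ⟨k, hk⟩ := hub N
      exact ⟨max t k, le_max_left _ _,
        hk.le.trans (chain_mono hf (le_max_right t k)).length_le⟩
    cases hg : l.2.2.2.2 with
    | some p =>
      obtain ⟨q, j⟩ := p
      obtain ⟨σ1, b0, b1, ⟨g1, g2⟩, g3, g4, g5, g6, g7, g8⟩ :=
        ((R.ginv t).lev e l (hl t le_rfl)).gph q j hg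
      refine ⟨t, _, b0, g7, g5, g3 (limOf f) (prefix_limOf hf (k := t) g1) ?_⟩
      -- later elements
      have hlater : ∀ s, t ≤ s → ∀ x, (S t).1.length ≤ x → (S s).1.getD x false = true →
          InR Y ((q, true) :: l.2.2.1) x := by
        intro s hs
        induction hs with
        | refl => intro x hx hx2; exact absurd (getD_lt hx2) (not_lt.2 hx)
        | step hs ih =>
          rename_i m
          have hm : t ≤ m := hs
          intro x hx hx2
          by_cases hc : x < (S m).1.length
          · have hx2' : (S (m + 1)).1.getD x false = true := hx2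
            rw [getD_prefix (R.pfx m) hc] at hx2'
            exact ih x hx hx2'
          · have h1 := new_elem (R.ginv m) (R.step m) (hl m hm) (hl (m + 1) (by omega))
              (x := x) (by omega) hx2
            rwa [out_some hg] at h1
      intro x hx hx2
      obtain ⟨k, hk⟩ := limOf_iff.1 hx2
      by_cases hc : x < (S t).1.length
      · have h1 : (S t).1.getD x false = true := by
          have h2 := limOf_eq hf (k := t) (i := x) hc
          rw [hx2] at h2
          exact h2.symm
        exact g2 x hx h1
      · exact hlater (max t k) (le_max_left _ _) x (by omega)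
          (getD_prefix_true (chain_mono hf (le_max_right t k)) hk)
    | none =>
      exfalso
      -- the level gets ready
      obtain ⟨u0, s0, hu0⟩ := he (wit0 e l.1.1)
      have hinf : ∀ N, ∃ x, N ≤ x ∧ InR Y l.2.2.1 x := by
        intro N
        obtain ⟨x, hx1, hx2⟩ := inf_res R (ht.lower (Nat.le_succ e)) hub' e le_rfl
          (max N (S t).1.length)
        exact ⟨x, (le_max_left _ _).trans hx1, ((R.ginv t).lev e l (hl t le_rfl)).sub x
          ((le_max_right _ _).trans hx1) hx2⟩
      obtain ⟨y, hy1, hy2, hy3⟩ := hD _ hinf false l.2.1.length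
      -- a large requirement with the same first code
      obtain ⟨j, hj1, hj2⟩ : ∃ j, j ∉ l.2.2.2.1 ∧ ra j = ra e := by
        obtain ⟨m, hm⟩ : ∃ m, ∀ j ∈ l.2.2.2.1, j < m := by
          have key : ∀ L : List ℕ, ∃ m, ∀ j ∈ L, j < m := by
            intro L
            induction L with
            | nil => exact ⟨0, fun j hj => by cases hj⟩
            | cons a L ih =>
              obtain ⟨m, hm⟩ := ih
              refine ⟨max m (a + 1), fun j hj => ?_⟩
              rcases List.mem_cons.1 hj with rfl | hj
              · exact lt_of_lt_of_le (Nat.lt_succ_self _) (le_max_right _ _)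
              · exact lt_of_lt_of_le (hm j hj) (le_max_left _ _)
          exact key _
        refine ⟨Nat.pair e.unpair.1 m, fun hc => ?_, ?_⟩
        · have h1 := hm _ hc
          have h2 := Nat.right_le_pair e.unpair.1 m
          omega
        · unfold ra
          rw [Nat.unpair_pair]
      obtain ⟨u1, s1, hu1⟩ := he (wit1 e l.1.2 j)
      -- a late stage
      obtain ⟨s, hs1, hs2, hs3, hs4, hs5, hs6, hs7⟩ : ∃ s, t ≤ s ∧ s0 ≤ s ∧ u0 < s ∧ y < s ∧
          j < s ∧ u1 < s ∧ s1 ≤ s := by
        refine ⟨t + s0 + u0 + y + j + u1 + s1 + 1, ?_, ?_, ?_, ?_, ?_, ?_, ?_⟩ <;> omega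
      refine noact (R.step s) (ht.low hs1) e (Nat.lt_succ_self e) l (hl s hs1)
        (Or.inr ⟨hg, ⟨u0, hs3, hu0.mono hs2⟩, ⟨y, hs4, hy1, hy2, hy3⟩, j, hs5, hj1, u1, hs6, ?_⟩)
      rw [hj2]
      exact hu1.mono hs7

/-- the main theorem on runs -/
theorem main_run (R : RunS A Y S) (hS : LimF S) (hD : Dense A Y) :
    ∃ B : ℕ → Bool, LimF B ∧ (∀ N, ∃ y, N < y ∧ B y = true) ∧
      ((∀ y, B y = true → A y = true) ∨ (∀ y, B y = true → A y = false)) ∧ Diag S B := by
  classical
  by_contra hcon
  have hall : ∀ e, ∃ t, Stable S e t := by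
    intro e
    induction e with
    | zero => exact ⟨0, fun k hk => by omega⟩
    | succ e ih =>
      obtain ⟨t, ht⟩ := ih
      by_cases hex : ∃ s, t ≤ s ∧ ∃ l, (S s).2.1[e]? = some l
      · obtain ⟨t1, ht1, l1, hl1⟩ := hex
        have hex' : ∀ s, t1 ≤ s → ∃ l, (S s).2.1[e]? = some l := by
          intro s hs
          induction hs with
          | refl => exact ⟨l1, hl1⟩
          | step hs ih =>
            rename_i m
            have hm : t1 ≤ m := hs
            obtain ⟨l, hl⟩ := ih
            obtain ⟨l', hl', _⟩ := level_step (R.step m) (ht.low (by omega)) hl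
            exact ⟨l', hl'⟩
        choose! fl hfl using hex'
        by_cases hchg : ∀ N, ∃ s, N ≤ s ∧ t1 ≤ s ∧ fl (s + 1) ≠ fl s
        · exfalso
          obtain ⟨B, h1, h2, h3, h4⟩ := hcase R hS (ht.mono ht1) hfl hchg
          exact hcon ⟨B, h1, h2, Or.inr h3, h4⟩
        · push Not at hchg
          obtain ⟨N, hN⟩ := hchg
          have hconst : ∀ s, max N t1 ≤ s → fl s = fl (max N t1) := by
            intro s hs
            induction hs with
            | refl => rfl
            | step hs ih =>
              rename_i m
              have hm : max N t1 ≤ m := hs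
              show fl (m + 1) = _
              rw [hN m ((le_max_left _ _).trans hm) ((le_max_right _ _).trans hm)]
              exact ih
          refine ⟨max N t1, fun k hk => ?_⟩
          rcases Nat.lt_succ_iff_lt_or_eq.1 hk with hk | rfl
          · exact (ht.mono (ht1.trans (le_max_right _ _))) k hk
          · refine ⟨fl (max N t1), fun s hs => ?_⟩
            rw [hfl s ((le_max_right _ _).trans hs), hconst s hs]
      · exfalso
        push Not at hex
        -- the number of levels is constant
        have hlen : ∀ s, t ≤ s → (S s).2.1.length = e := by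
          intro s hs
          have h1 := ht.le_length hs
          by_contra hne
          exact hex s hs _ (List.getElem?_eq_getElem (show e < (S s).2.1.length by omega))
        have hstep : ∀ s, t ≤ s → (S (s + 1)).1 = padTo (S s).1 s ∧
            ¬ ∃ y < s, (S s).1.length ≤ y ∧ InR Y (lastOut (S s).2.1) y ∧ A y = true := by
          intro s hs
          rcases none_step (R.step s) (ht.low hs) (hlen s hs) with ⟨l, hl⟩ | h
          · exact absurd hl (hex (s + 1) (by omega) l)
          · exact h
        have hub : ∀ N, ∃ s, t ≤ s ∧ N ≤ (S s).1.length := by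
          intro N
          refine ⟨max t N + 1, by omega, ?_⟩
          rw [(hstep (max t N) (le_max_left _ _)).1, length_padTo]
          omega
        have hlast : ∀ s, t ≤ s → lastOut (S s).2.1 = lastOut ((S t).2.1.take e) := by
          intro s hs
          rw [← ht.take_eq hs le_rfl, ← hlen s hs, List.take_length]
        obtain ⟨y, hy1, hy2, hy3⟩ := hD _ (inf_res R ht hub e le_rfl) true
          (max t (S t).1.length)
        have hle : ∀ s, t ≤ s → (S s).1.length ≤ max (S t).1.length s := by
          intro s hs
          induction hs with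
          | refl => exact le_max_left _ _
          | step hs ih =>
            rename_i m
            have hm : t ≤ m := hs
            show (S (m + 1)).1.length ≤ max (S t).1.length (m + 1)
            rw [(hstep m hm).1, length_padTo]
            omega
        have hty : t ≤ y := (le_max_left _ _).trans hy1
        have hSy : (S t).1.length ≤ y := (le_max_right _ _).trans hy1
        refine (hstep (y + 1) (by omega)).2 ⟨y, Nat.lt_succ_self y, ?_, ?_, hy3⟩
        · rw [(hstep y hty).1, length_padTo]
          have := hle y hty
          omega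
        · rw [hlast (y + 1) (by omega)]
          exact hy2
  obtain ⟨B, h1, h2, h3, h4⟩ := gcase R hS hD hall
  exact hcon ⟨B, h1, h2, Or.inl h3, h4⟩

end

end HighD3
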