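import Mathlib
import Pool.Agent.HighD3.Step

/-!
The stages of the construction are given by a limit computable function.
-/

set_option autoImplicit false

namespace HighD3

open Encodable Denumerable Filter
open Nat.Partrec (Code)
open JumpDeg HighD2

section
variable {A Y : ℕ → Bool}
variable {X : Type*} [Primcodable X]

lemma limF_emp (hY : Low Y) : LimP (fun q : Qu => Emp Y q) :=
  hY.limP (S := fun Y (q : Qu) => Emp Y q) sig_emp

lemma limF_bitsX {τ : X → List Bool} {u : X → ℕ} (hτ : LimF τ) (hu : LimF u) :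
    LimF (fun x => bits (τ x) (u x)) :=
  LimF.comp (f := fun q : List Bool × ℕ => bits q.1 q.2) (g := fun x => (τ x, u x)) limF_bits
    (LimF.pair hτ hu)

lemma limF_qu {σ F : X → List Bool} {L : X → List (ℕ × Bool)} {u0 u1 : X → ℕ} (hσ : LimF σ)
    (hF : LimF F) (hL : LimF L) (h0 : LimF u0) (h1 : LimF u1) :
    LimF (fun x => (((σ x, F x), (bits (σ x) (u0 x), bits (F x) (u1 x)), L x) : Qu)) :=
  LimF.pair (LimF.pair hσ hF) (LimF.pair (LimF.pair (limF_bitsX hσ h0) (limF_bitsX hF h1)) hL)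

lemma limP_prefix {σ τ : X → List Bool} (hσ : LimF σ) (hτ : LimF τ) :
    LimP (fun x => σ x <+: τ x) :=
  LimP.comp (p := fun q : List Bool × List Bool => q.1 <+: q.2) (f := fun x => (σ x, τ x))
    (LimP.of_primrec primrec_prefix) (LimF.pair hσ hτ)

lemma limP_getD {τ : X → List Bool} {y : X → ℕ} (hτ : LimF τ) (hy : LimF y) :
    LimP (fun x => (τ x).getD (y x) false = true) :=
  LimP.eq (LimF.comp (f := fun q : List Bool × ℕ => q.1.getD q.2 false)
      (g := fun x => (τ x, y x))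
      (LimF.prim ((Primrec.list_getD false).comp Primrec.fst Primrec.snd))
      (LimF.pair hτ hy)) (LimF.of_computable (Computable.const true))

lemma limP_T2S (hA : LimF A) (hY : Low Y) {s i j u0 u1 : X → ℕ} {l : X → Lev}
    {σ σ' F' : X → List Bool} (hs : LimF s) (hσ : LimF σ) (hi : LimF i) (hl : LimF l)
    (hσ' : LimF σ') (hF' : LimF F') (hj : LimF j) (h0 : LimF u0) (h1 : LimF u1) :
    LimP (fun x => T2S A Y (s x) (σ x) (i x) (l x) (σ' x) (F' x) (j x) (u0 x) (u1 x)) := by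
  have hfst : LimF (fun p : X × ℕ => p.1) := LimF.of_computable Computable.fst
  have hsnd : LimF (fun p : X × ℕ => p.2) := LimF.of_computable Computable.snd
  have hl2 : LimF (fun p : X × ℕ => l p.1) := LimF.comp hl hfst
  have hF2 : LimF (fun p : X × ℕ => F' p.1) := LimF.comp hF' hfst
  have hs2 : LimF (fun p : X × ℕ => s p.1) := LimF.comp hs hfst
  have hi2 : LimF (fun p : X × ℕ => i p.1) := LimF.comp hi hfst
  have c3 : LimP (fun p : X × ℕ => (l p.1).2.1.length ≤ p.2 ∧ (F' p.1).getD p.2 false = true) :=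
    (limP_le (limF_len (limF_lF hl2)) hsnd).and (limP_getD hF2 hsnd)
  have c4 : LimP (fun p : X × ℕ => p.2 ∉ (l p.1).2.2.2.1 → ¬ SJ (s p.1) (i p.1) (l p.1) p.2) :=
    LimP.imp (limP_memS hsnd (limF_lS hl2)).not (limP_SJ hs2 hi2 hl2 hsnd).not
  have c6 : LimP (fun x => Emp Y (((σ' x, F' x), (bits (σ' x) (u0 x), bits (F' x) (u1 x)),
      (l x).2.2.1) : Qu)) :=
    LimP.comp (p := fun q : Qu => Emp Y q) (limF_emp hY) (limF_qu hσ' hF' (limF_lL hl) h0 h1)
  refine ((limP_prefix hσ hσ').and (limP_newOK hA hY true hσ hσ' (limF_lL hl))).and ?_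
  refine ((limP_prefix (limF_lF hl) hF').and
    (limP_newOK hA hY false (limF_lF hl) hF' (limF_lL hl))).and ?_
  refine (LimP.bex c3 (limF_len hF')).and ?_
  refine ((limP_memS hj (limF_lS hl)).not.and (LimP.ball c4 hj)).and ?_
  exact ((limP_Stab hi (limF_wit0 hi (limF_l11 hl)) hs h0).and
    (limP_Stab hj (limF_wit1 hi (limF_l12 hl) hj) hs h1)).and c6.not

/-- the default level -/
def dflt : Lev := ((0, 0), [], [], [], none)

lemma limF_getL {ls : X → List Lev} {i : X → ℕ} (hls : LimF ls) (hi : LimF i) :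
    LimF (fun x => (ls x).getD (i x) dflt) :=
  LimF.comp (f := fun q : List Lev × ℕ => q.1.getD q.2 dflt) (g := fun x => (ls x, i x))
    (LimF.prim ((Primrec.list_getD dflt).comp Primrec.fst Primrec.snd)) (LimF.pair hls hi)

lemma limF_take {ls : X → List Lev} {i : X → ℕ} (hls : LimF ls) (hi : LimF i) :
    LimF (fun x => (ls x).take (i x)) :=
  LimF.comp (f := fun q : List Lev × ℕ => q.1.take q.2) (g := fun x => (ls x, i x))
    (LimF.prim (Primrec.list_take.comp Primrec.snd Primrec.fst)) (LimF.pair hls hi)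

lemma limF_snoc {ls : X → List Lev} {l : X → Lev} (hls : LimF ls) (hl : LimF l) :
    LimF (fun x => ls x ++ [l x]) :=
  LimF.comp (f := fun q : List Lev × Lev => q.1 ++ [q.2]) (g := fun x => (ls x, l x))
    (LimF.prim (Primrec.list_append.comp Primrec.fst (Primrec.list_cons.comp Primrec.snd
      (Primrec.const [])))) (LimF.pair hls hl)

lemma limF_log {lg : X → Log} {a b : X → ℕ × ℕ × List Bool} (hlg : LimF lg) (ha : LimF a)
    (hb : LimF b) : LimF (fun x => lg x ++ [a x, b x]) :=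
  LimF.comp (f := fun q : Log × (ℕ × ℕ × List Bool) × (ℕ × ℕ × List Bool) =>
      q.1 ++ [q.2.1, q.2.2]) (g := fun x => (lg x, a x, b x))
    (LimF.prim (Primrec.list_append.comp Primrec.fst
      (Primrec.list_cons.comp (Primrec.fst.comp Primrec.snd)
        (Primrec.list_cons.comp (Primrec.snd.comp Primrec.snd) (Primrec.const [])))))
    (LimF.pair hlg (LimF.pair ha hb))

/-- the stages are given by a limit computable function -/
theorem exists_step (hA : LimF A) (hY : Low Y) :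
    ∃ F : ℕ × St → St, LimF F ∧ ∀ s S, StepS A Y s S (F (s, S)) := by
  classical
  -- components
  have hs : LimF (fun x : ℕ × St => x.1) := LimF.of_computable Computable.fst
  have hS : LimF (fun x : ℕ × St => x.2) := LimF.of_computable Computable.snd
  have hσ : LimF (fun x : ℕ × St => x.2.1) := LimF.prim (Primrec.fst.comp Primrec.snd)
  have hls : LimF (fun x : ℕ × St => x.2.2.1) :=
    LimF.prim (Primrec.fst.comp (Primrec.snd.comp Primrec.snd))
  have hlg : LimF (fun x : ℕ × St => x.2.2.2) :=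
    LimF.prim (Primrec.snd.comp (Primrec.snd.comp Primrec.snd))
  have hlen : LimF (fun x : ℕ × St => x.2.2.1.length) :=
    LimF.prim (Primrec.list_length.comp (Primrec.fst.comp (Primrec.snd.comp Primrec.snd)))
  have hlo : LimF (fun x : ℕ × St => lastOut x.2.2.1) :=
    LimF.comp (f := lastOut) (LimF.prim primrec_lastOut) hls
  -- the acting level
  let P : (ℕ × St) × ℕ → Prop := fun r => r.1.2.2.1.length ≤ r.2 ∨
    Act A Y r.1.1 r.1.2.1 r.2 (r.1.2.2.1.getD r.2 dflt)
  have hfst : LimF (fun p : (ℕ × St) × ℕ => p.1) := LimF.of_computable Computable.fst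
  have hsnd : LimF (fun p : (ℕ × St) × ℕ => p.2) := LimF.of_computable Computable.snd
  have hP : LimP P :=
    (limP_le (LimF.comp (f := fun x : ℕ × St => x.2.2.1.length) hlen hfst) hsnd).or
      (limP_act hA hY (LimF.comp (f := fun x : ℕ × St => x.1) hs hfst)
        (LimF.comp (f := fun x : ℕ × St => x.2.1) hσ hfst) hsnd
        (limF_getL (LimF.comp (f := fun x : ℕ × St => x.2.2.1) hls hfst) hsnd))
  have hP2 : LimP (fun r : (ℕ × St) × ℕ => ∀ i' < r.2, ¬ P (r.1, i')) := by
    refine LimP.ball (p := fun q : ((ℕ × St) × ℕ) × ℕ => ¬ P (q.1.1, q.2)) ?_ hsnd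
    exact (LimP.comp (p := P) (f := fun q : ((ℕ × St) × ℕ) × ℕ => (q.1.1, q.2)) hP
      (LimF.prim (Primrec.pair (Primrec.fst.comp Primrec.fst) Primrec.snd))).not
  obtain ⟨idx, hidx1, hidx2⟩ := LimF.search' (p := fun r : (ℕ × St) × ℕ =>
    P r ∧ ∀ i' < r.2, ¬ P (r.1, i')) (hP.and hP2) (by
      intro x
      have hex : ∃ i, P (x, i) := ⟨x.2.2.1.length, Or.inl le_rfl⟩
      exact ⟨Nat.find hex, Nat.find_spec hex, fun i' hi' => Nat.find_min hex hi'⟩)
  have hl : LimF (fun x : ℕ × St => x.2.2.1.getD (idx x) dflt) := limF_getL hls hidx1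
  -- second phase
  obtain ⟨f2, hf21, hf22⟩ := LimF.searchT
    (α := (ℕ × List Bool) × ℕ × Lev) (β := (List Bool × List Bool) × ℕ × ℕ × ℕ)
    (y := fun a => Ready A Y a.1.1 a.2.1 a.2.2)
    (limP_ready hA hY (LimF.prim (Primrec.fst.comp Primrec.fst))
      (LimF.prim (Primrec.fst.comp Primrec.snd)) (LimF.prim (Primrec.snd.comp Primrec.snd)))
    (p := fun r => T2S A Y r.1.1.1 r.1.1.2 r.1.2.1 r.1.2.2 r.2.1.1 r.2.1.2 r.2.2.1 r.2.2.2.1
      r.2.2.2.2)
    (limP_T2S hA hY (LimF.prim (Primrec.fst.comp (Primrec.fst.comp Primrec.fst)))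
      (LimF.prim (Primrec.snd.comp (Primrec.fst.comp Primrec.fst)))
      (LimF.prim (Primrec.fst.comp (Primrec.snd.comp Primrec.fst)))
      (LimF.prim (Primrec.snd.comp (Primrec.snd.comp Primrec.fst)))
      (LimF.prim (Primrec.fst.comp (Primrec.fst.comp Primrec.snd)))
      (LimF.prim (Primrec.snd.comp (Primrec.fst.comp Primrec.snd)))
      (LimF.prim (Primrec.fst.comp (Primrec.snd.comp Primrec.snd)))
      (LimF.prim (Primrec.fst.comp (Primrec.snd.comp (Primrec.snd.comp Primrec.snd))))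
      (LimF.prim (Primrec.snd.comp (Primrec.snd.comp (Primrec.snd.comp Primrec.snd)))))
    (by
      rintro ⟨⟨s, σ⟩, i, l⟩ h
      obtain ⟨σ', F', j, u0, u1, h1⟩ := exists_T2S h
      exact ⟨((σ', F'), j, u0, u1), h1⟩)
  have hW : LimF (fun x : ℕ × St => f2 ((x.1, x.2.1), idx x, x.2.2.1.getD (idx x) dflt)) :=
    LimF.comp (f := f2) hf21 (LimF.pair (LimF.pair hs hσ) (LimF.pair hidx1 hl))
  -- new levels
  have hQ3 : LimP (fun r : (ℕ × St) × ℕ => r.1.2.1.length ≤ r.2 ∧
      InR Y (lastOut r.1.2.2.1) r.2 ∧ A r.2 = true) :=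
    (limP_le (limF_len (LimF.comp (f := fun x : ℕ × St => x.2.1) hσ hfst)) hsnd).and
      ((limP_InR hY (LimF.comp (f := fun x : ℕ × St => lastOut x.2.2.1) hlo hfst) hsnd).and
        (limP_A hA true hsnd))
  have hY3 : LimP (fun x : ℕ × St => ∃ y < x.1, x.2.1.length ≤ y ∧
      InR Y (lastOut x.2.2.1) y ∧ A y = true) := LimP.bex hQ3 hs
  obtain ⟨f3, hf31, hf32⟩ := LimF.search hY3 hQ3 (by
    rintro x ⟨y, _, h⟩
    exact ⟨y, h⟩)
  -- branches
  have hE : LimF (fun x : ℕ × St => ext1 x.2.1 (f3 x)) :=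
    LimF.comp (f := fun q : List Bool × ℕ => ext1 q.1 q.2) (g := fun x : ℕ × St => (x.2.1, f3 x))
      (LimF.prim primrec_ext1) (LimF.pair hσ hf31)
  have hPd : LimF (fun x : ℕ × St => padTo x.2.1 x.1) :=
    LimF.comp (f := fun q : List Bool × ℕ => padTo q.1 q.2) (g := fun x : ℕ × St => (x.2.1, x.1))
      (LimF.prim primrec_padTo) (LimF.pair hσ hs)
  have hnone : LimF (fun _ : ℕ × St => (none : Option (ℕ × ℕ))) :=
    LimF.of_computable (Computable.const none)
  have B3a : LimF (fun x : ℕ × St => ((ext1 x.2.1 (f3 x), x.2.2.1.take (idx x) ++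
      [((x.1, x.1), [], lastOut x.2.2.1, [], none)], x.2.2.2) : St)) :=
    LimF.pair hE (LimF.pair (limF_snoc (limF_take hls hidx1)
      (LimF.pair (LimF.pair hs hs) (LimF.pair (LimF.of_computable (Computable.const []))
        (LimF.pair hlo (LimF.pair (LimF.of_computable (Computable.const [])) hnone))))) hlg)
  have B3b : LimF (fun x : ℕ × St => ((padTo x.2.1 x.1, x.2.2.1, x.2.2.2) : St)) :=
    LimF.pair hPd (LimF.pair hls hlg)
  have hgq : LimF (fun x : ℕ × St => (x.2.2.1.getD (idx x) dflt).2.2.2.2.getD (0, 0)) :=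
    LimF.comp (f := fun o : Option (ℕ × ℕ) => o.getD (0, 0))
      (LimF.prim (Primrec.option_getD.comp Primrec.id (Primrec.const (0, 0)))) (limF_lg hl)
  have hgq1 : LimF (fun x : ℕ × St =>
      ((x.2.2.1.getD (idx x) dflt).2.2.2.2.getD (0, 0)).1) :=
    LimF.comp (f := fun p : ℕ × ℕ => p.1) (LimF.of_computable Computable.fst) hgq
  have hgq2 : LimF (fun x : ℕ × St =>
      ((x.2.2.1.getD (idx x) dflt).2.2.2.2.getD (0, 0)).2) :=
    LimF.comp (f := fun p : ℕ × ℕ => p.2) (LimF.of_computable Computable.snd) hgq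
  have hcL : LimF (fun x : ℕ × St =>
      ((((x.2.2.1.getD (idx x) dflt).2.2.2.2.getD (0, 0)).1, false) ::
        (x.2.2.1.getD (idx x) dflt).2.2.1 : List (ℕ × Bool))) :=
    LimF.comp (f := fun q : (ℕ × Bool) × List (ℕ × Bool) => q.1 :: q.2)
      (LimF.prim (Primrec.list_cons.comp Primrec.fst Primrec.snd))
      (LimF.pair (LimF.pair hgq1 (LimF.of_computable (Computable.const false))) (limF_lL hl))
  have hcS : LimF (fun x : ℕ × St =>
      (((x.2.2.1.getD (idx x) dflt).2.2.2.2.getD (0, 0)).2 ::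
        (x.2.2.1.getD (idx x) dflt).2.2.2.1 : List ℕ)) :=
    LimF.comp (f := fun q : ℕ × List ℕ => q.1 :: q.2)
      (LimF.prim (Primrec.list_cons.comp Primrec.fst Primrec.snd))
      (LimF.pair hgq2 (limF_lS hl))
  have B1 : LimF (fun x : ℕ × St => ((x.2.1, x.2.2.1.take (idx x) ++
      [((x.1, (x.2.2.1.getD (idx x) dflt).1.2), (x.2.2.1.getD (idx x) dflt).2.1,
        (((x.2.2.1.getD (idx x) dflt).2.2.2.2.getD (0, 0)).1, false) ::
          (x.2.2.1.getD (idx x) dflt).2.2.1,
        ((x.2.2.1.getD (idx x) dflt).2.2.2.2.getD (0, 0)).2 ::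
          (x.2.2.1.getD (idx x) dflt).2.2.2.1, none)], x.2.2.2) : St)) :=
    LimF.pair hσ (LimF.pair (limF_snoc (limF_take hls hidx1)
      (LimF.pair (LimF.pair hs (limF_l12 hl)) (LimF.pair (limF_lF hl)
        (LimF.pair hcL (LimF.pair hcS hnone))))) hlg)
  let W : ℕ × St → (List Bool × List Bool) × ℕ × ℕ × ℕ := fun x =>
    f2 ((x.1, x.2.1), idx x, x.2.2.1.getD (idx x) dflt)
  have w1 : LimF (fun x => (W x).1.1) := LimF.comp
    (f := fun w : (List Bool × List Bool) × ℕ × ℕ × ℕ => w.1.1)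
    (LimF.prim (Primrec.fst.comp Primrec.fst)) hW
  have w2 : LimF (fun x => (W x).1.2) := LimF.comp
    (f := fun w : (List Bool × List Bool) × ℕ × ℕ × ℕ => w.1.2)
    (LimF.prim (Primrec.snd.comp Primrec.fst)) hW
  have w3 : LimF (fun x => (W x).2.1) := LimF.comp
    (f := fun w : (List Bool × List Bool) × ℕ × ℕ × ℕ => w.2.1)
    (LimF.prim (Primrec.fst.comp Primrec.snd)) hW
  have w4 : LimF (fun x => (W x).2.2.1) := LimF.comp
    (f := fun w : (List Bool × List Bool) × ℕ × ℕ × ℕ => w.2.2.1)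
    (LimF.prim (Primrec.fst.comp (Primrec.snd.comp Primrec.snd))) hW
  have w5 : LimF (fun x => (W x).2.2.2) := LimF.comp
    (f := fun w : (List Bool × List Bool) × ℕ × ℕ × ℕ => w.2.2.2)
    (LimF.prim (Primrec.snd.comp (Primrec.snd.comp Primrec.snd))) hW
  have hq : LimF (fun x : ℕ × St => ((some (encode ((((W x).1.1, (W x).1.2),
      (bits (W x).1.1 (W x).2.2.1, bits (W x).1.2 (W x).2.2.2),
      (x.2.2.1.getD (idx x) dflt).2.2.1) : Qu), (W x).2.1)) : Option (ℕ × ℕ))) :=
    LimF.comp (f := fun p : Qu × ℕ => some (encode p.1, p.2))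
      (g := fun x : ℕ × St => (((((W x).1.1, (W x).1.2),
      (bits (W x).1.1 (W x).2.2.1, bits (W x).1.2 (W x).2.2.2),
      (x.2.2.1.getD (idx x) dflt).2.2.1) : Qu), (W x).2.1))
      (LimF.prim (Primrec.option_some.comp (Primrec.pair (Primrec.encode.comp Primrec.fst)
        Primrec.snd))) (LimF.pair (limF_qu w1 w2 (limF_lL hl) w4 w5) w3)
  have B2 : LimF (fun x : ℕ × St => (((W x).1.1, x.2.2.1.take (idx x) ++
      [(((x.2.2.1.getD (idx x) dflt).1.1, (x.2.2.1.getD (idx x) dflt).1.2), (W x).1.2,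
        (x.2.2.1.getD (idx x) dflt).2.2.1, (x.2.2.1.getD (idx x) dflt).2.2.2.1,
        some (encode ((((W x).1.1, (W x).1.2),
        (bits (W x).1.1 (W x).2.2.1, bits (W x).1.2 (W x).2.2.2),
        (x.2.2.1.getD (idx x) dflt).2.2.1) : Qu), (W x).2.1))],
      x.2.2.2 ++ [(wit0 (idx x) (x.2.2.1.getD (idx x) dflt).1.1, idx x,
          bits (W x).1.1 (W x).2.2.1),
        (wit1 (idx x) (x.2.2.1.getD (idx x) dflt).1.2 (W x).2.1, (W x).2.1,
          bits (W x).1.2 (W x).2.2.2)]) : St)) :=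
    LimF.pair w1 (LimF.pair (limF_snoc (limF_take hls hidx1)
      (LimF.pair (LimF.pair (limF_l11 hl) (limF_l12 hl)) (LimF.pair w2 (LimF.pair (limF_lL hl)
        (LimF.pair (limF_lS hl) hq)))))
      (limF_log hlg (LimF.pair (limF_wit0 hidx1 (limF_l11 hl)) (LimF.pair hidx1
        (limF_bitsX w1 w4))) (LimF.pair (limF_wit1 hidx1 (limF_l12 hl) w3)
        (LimF.pair w3 (limF_bitsX w2 w5)))))
  -- conditions
  have C1 : LimP (fun x : ℕ × St => x.2.2.1.length ≤ idx x) := limP_le hlen hidx1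
  have C2 : LimP (fun x : ℕ × St => (x.2.2.1.getD (idx x) dflt).2.2.2.2 = none) :=
    LimP.eq (limF_lg hl) hnone
  have hF := LimF.ite C1 (LimF.ite hY3 B3a B3b) (LimF.ite C2 B2 B1)
  refine ⟨_, hF, fun s S => ?_⟩
  obtain ⟨i1, i2⟩ := hidx2 (s, S)
  simp only at i1 i2
  have hle : idx (s, S) ≤ S.2.1.length := by
    by_contra hc
    exact i2 S.2.1.length (by omega) (Or.inl le_rfl)
  have hno : ∀ i' < idx (s, S), ∀ l, S.2.1[i']? = some l → ¬ Act A Y s S.1 i' l := by
    intro i' hi' l hl' hact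
    refine i2 i' hi' (Or.inr ?_)
    have : S.2.1.getD i' dflt = l := by rw [List.getD, hl']; rfl
    show Act A Y s S.1 i' (S.2.1.getD i' dflt)
    rwa [this]
  refine ⟨idx (s, S), hle, hno, ?_⟩
  simp only
  by_cases c1 : S.2.1.length ≤ idx (s, S)
  · rw [if_pos c1]
    have heq : idx (s, S) = S.2.1.length := le_antisymm hle c1
    by_cases c2 : ∃ y < s, S.1.length ≤ y ∧ InR Y (lastOut S.2.1) y ∧ A y = true
    · rw [if_pos c2]
      left
      have h3 := hf32 (s, S) c2
      exact ⟨heq, f3 (s, S), h3.1, h3.2.1, h3.2.2, rfl⟩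
    · rw [if_neg c2]
      right
      left
      exact ⟨heq, c2, rfl⟩
  · rw [if_neg c1]
    have hlt : idx (s, S) < S.2.1.length := by omega
    have hact := i1.resolve_left c1
    obtain ⟨l, hl'⟩ : ∃ l, S.2.1[idx (s, S)]? = some l := ⟨_, List.getElem?_eq_getElem hlt⟩
    have hgl : S.2.1.getD (idx (s, S)) dflt = l := by rw [List.getD, hl']; rfl
    simp only [W]
    simp only [hgl] at hact ⊢
    by_cases c3 : l.2.2.2.2 = none
    · rw [if_pos c3]
      right
      right
      right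
      rcases hact with h | h
      · exact absurd c3 h.1
      · have h4 := hf22 ((s, S.1), idx (s, S), l) h.2
        exact ⟨l, _, _, _, _, _, hl', c3, h4, rfl⟩
    · rw [if_neg c3]
      right
      right
      left
      obtain ⟨⟨q, j⟩, hqj⟩ := Option.ne_none_iff_exists'.1 c3
      rcases hact with h | h
      · refine ⟨l, q, j, hl', hqj, h.2, ?_⟩
        rw [hqj]
        rfl
      · exact absurd h.1 c3

end

end HighD3
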