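import Mathlib
import Pool.Agent.HighD3.Global
import Pool.Agent.HighD3.StepF

/-!
The main theorem.
-/

set_option autoImplicit false

namespace HighD3

open Encodable Denumerable Filter
open Nat.Partrec (Code)
open JumpDeg HighD2

section
variable {α β : Type*} [Primcodable α] [Primcodable β]

/-- limit computable predicates are semi-decidable in the jump -/
lemma LimP.sig {p : α → Prop} (hp : LimP p) : Sig {jump zeroO} (fun _ a => p a) := by
  classical
  obtain ⟨g, hg1, hg2⟩ := hp
  have h1 : Sig {zeroO} (fun _ (q : (α × ℕ) × ℕ) => q.1.2 ≤ q.2 ∧ g q.1.1 q.2 = false) := by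
    refine (Sig.of_prim (Primrec.nat_le.comp (Primrec.snd.comp Primrec.fst) Primrec.snd)).and ?_
    apply Sig.of_re
    apply ComputablePred.to_re
    refine ⟨fun _ => inferInstance, ?_⟩
    have h2 : Computable (fun q : (α × ℕ) × ℕ => !(g q.1.1 q.2)) :=
      Primrec.not.to_comp.comp (hg1.comp (Computable.fst.comp Computable.fst) Computable.snd)
    refine h2.of_eq fun q => ?_
    cases h : g q.1.1 q.2 <;> simp [h]
  obtain ⟨c, hc⟩ := sig_smn h1.ex
  have h3 : Sig {jump zeroO} (fun X (q : α × ℕ) => X (qq c q) = false) :=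
    Sig.oracle (primrec_qq.comp (Primrec.const c) Primrec.id) (Primrec.const false)
  refine h3.ex.congr ?_
  rintro _ rfl a
  constructor
  · intro ha
    obtain ⟨s0, hs0⟩ := eventually_atTop.1 (hg2 a)
    refine ⟨s0, ?_⟩
    rw [← Bool.not_eq_true]
    intro hj
    obtain ⟨s, hs, hgs⟩ := (hc zeroO rfl (a, s0)).2 hj
    simp only at hs hgs
    rw [hs0 s hs] at hgs
    simp [ha] at hgs
  · rintro ⟨s0, hs0⟩
    obtain ⟨s1, hs1⟩ := eventually_atTop.1 (hg2 a)
    have h4 := hs1 (max s0 s1) (le_max_right _ _)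
    by_contra hna
    have h5 : g a (max s0 s1) = false := by
      rw [h4]
      simp [hna]
    have h6 := (hc zeroO rfl (a, s0)).1 ⟨max s0 s1, le_max_left _ _, h5⟩
    rw [hs0] at h6
    cases h6

lemma primrec_memT : PrimrecPred (fun q : β × List β => q.1 ∈ q.2) := by
  classical
  have h2 : PrimrecPred (fun q : (β × List β) × ℕ => q.1.2[q.2]? = some q.1.1) :=
    Primrec.eq.comp (Primrec.list_getElem?.comp (Primrec.snd.comp Primrec.fst) Primrec.snd)
      (Primrec.option_some.comp (Primrec.fst.comp Primrec.fst))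
  refine (prim_exists_lt h2 (f := fun q : β × List β => q.2.length)
    (Primrec.list_length.comp Primrec.snd)).of_eq ?_
  rintro ⟨c, l⟩
  simp only
  constructor
  · rintro ⟨i, _, hi⟩
    exact List.mem_of_getElem? hi
  · intro h
    obtain ⟨i, hi, h3⟩ := List.getElem_of_mem h
    exact ⟨i, hi, by rw [← h3]; simp⟩

end

/-- the second jump is not limit computable -/
theorem not_limF_jj : ¬ LimF (jump (jump zeroO)) := by
  intro h
  apply tot_not_sigma2
  have h1 : Sig {zeroO} (fun _ (q : Code × ℕ) => (q.1.eval q.2).Dom) := by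
    apply Sig.of_re
    have h2 : Partrec (fun q : Code × ℕ => q.1.eval q.2) :=
      Code.eval_part.comp Computable.fst Computable.snd
    exact h2.dom_re
  have h3 : LimP (fun q : Code × ℕ => ¬ (q.1.eval q.2).Dom) :=
    (limP_of_sig (D := {zeroO}) rfl h1).not
  obtain ⟨c', hc'⟩ := sig_smn (LimP.sig h3).ex
  have h4 : LimP (fun c : Code => ∃ n, ¬ (c.eval n).Dom) := by
    have h5 : LimP (fun c : Code => jump (jump zeroO) (qq c' c) = true) :=
      LimP.of_eq_true (LimF.comp (f := jump (jump zeroO)) (g := fun c : Code => qq c' c) h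
        (LimF.of_computable (primrec_qq.comp (Primrec.const c') Primrec.id).to_comp))
    exact h5.congr fun c => (hc' _ rfl c).symm
  refine ⟨fun q => ∀ n, (q.1.eval n).Dom, ?_, fun c => ⟨fun hc => ⟨0, hc⟩, fun ⟨_, hc⟩ => hc⟩⟩
  have h6 : LimP (fun q : Code × ℕ => ∃ n, ¬ (q.1.eval n).Dom) :=
    LimP.comp (p := fun c : Code => ∃ n, ¬ (c.eval n).Dom) (f := fun q : Code × ℕ => q.1) h4
      (LimF.of_computable Computable.fst)
  refine h6.not.congr fun q => ?_
  push Not
  rfl

/-- codes for limit computable functions -/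
lemma exists_req {g : ℕ → ℕ} {F : ℕ × List Bool → Bool} (hg : LimF g) (hF : LimF F) :
    ∃ j, (∀ n, ∃ u s, Stab (ra j) n s u) ∧ (∀ n u s, Stab (ra j) n s u → u = g n) ∧
      ∀ n b, (∃ t, Stab (rb j) (encode (n, b)) t 0) ↔ F (n, b) = false := by
  obtain ⟨g', hg1, hg2⟩ := hg
  obtain ⟨F', hF1, hF2⟩ := hF
  have h1 : Partrec (fun q : ℕ × ℕ => (Part.some (g' q.1 q.2) : Part ℕ)) := hg1.partrec
  have h2 : Partrec (fun q : (ℕ × List Bool) × ℕ => (Part.some (F' q.1 q.2) : Part Bool)) :=
    hF1.partrec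
  unfold Partrec at h1 h2
  obtain ⟨a, ha⟩ := Code.exists_code.1 h1
  obtain ⟨b, hb⟩ := Code.exists_code.1 h2
  have ha' : ∀ n t, a.eval (Nat.pair n t) = Part.some (g' n t) := by
    intro n t
    have h3 : Nat.pair n t = encode (n, t) := rfl
    rw [h3, ha]
    simp only [encodek, Part.coe_some, Part.bind_some]
    simp
  have hb' : ∀ (x : ℕ × List Bool) t, b.eval (Nat.pair (encode x) t) =
      Part.some (encode (F' x t)) := by
    intro x t
    have h3 : Nat.pair (encode x) t = encode (x, t) := rfl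
    rw [h3, hb]
    simp only [encodek, Part.coe_some, Part.bind_some]
    simp
  have hra : ra (Nat.pair (encode a) (Nat.pair (encode b) 0)) = a := by
    unfold ra
    simp
  have hrb : rb (Nat.pair (encode a) (Nat.pair (encode b) 0)) = b := by
    unfold rb
    simp
  refine ⟨Nat.pair (encode a) (Nat.pair (encode b) 0), ?_, ?_, ?_⟩
  · intro n
    obtain ⟨s0, hs0⟩ := eventually_atTop.1 (hg2 n)
    refine ⟨g n, s0, ?_⟩
    rw [hra]
    intro t ht k w hw
    have h3 := Code.evaln_sound (Option.mem_def.2 hw)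
    rw [ha', Part.mem_some_iff] at h3
    rw [h3, hs0 t ht]
  · intro n u s hs
    rw [hra] at hs
    obtain ⟨s0, hs0⟩ := eventually_atTop.1 (hg2 n)
    have h3 : g' n (max s s0) ∈ a.eval (Nat.pair n (max s s0)) := by
      rw [ha']
      exact Part.mem_some _
    obtain ⟨k, hk⟩ := Code.evaln_complete.1 h3
    rw [← hs (max s s0) (le_max_left _ _) k _ (Option.mem_def.1 hk), hs0 _ (le_max_right _ _)]
  · intro n τ
    rw [hrb]
    obtain ⟨s0, hs0⟩ := eventually_atTop.1 (hF2 (n, τ))
    constructor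
    · rintro ⟨t, ht⟩
      have h3 : encode (F' (n, τ) (max t s0)) ∈
          b.eval (Nat.pair (encode (n, τ)) (max t s0)) := by
        rw [hb']
        exact Part.mem_some _
      obtain ⟨k, hk⟩ := Code.evaln_complete.1 h3
      have h4 := ht (max t s0) (le_max_left _ _) k _ (Option.mem_def.1 hk)
      rw [hs0 _ (le_max_right _ _)] at h4
      cases h5 : F (n, τ) with
      | false => rfl
      | true =>
        rw [h5] at h4
        simp at h4
    · intro h5
      refine ⟨s0, fun t ht k w hw => ?_⟩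
      have h3 := Code.evaln_sound (Option.mem_def.2 hw)
      rw [hb', Part.mem_some_iff, hs0 t ht, h5] at h3
      rw [h3]
      rfl

/-- the set used in the diagonalisation -/
def EE (S : ℕ → St) (n : ℕ) : Prop := ∃ w : ℕ × (ℕ × List Bool) × ℕ,
  (n, w.2.1.1, w.2.1.2) ∈ (S w.1).2.2 ∧ Stab (rb w.2.1.1) (encode (n, w.2.1.2)) w.2.2 0

lemma sig_EE {S : ℕ → St} (hS : LimF S) : Sig {jump zeroO} (fun _ n => EE S n) := by
  have h1 : LimP (fun q : ℕ × ℕ × (ℕ × List Bool) × ℕ =>
      (q.1, q.2.2.1.1, q.2.2.1.2) ∈ (S q.2.1).2.2) :=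
    LimP.comp (p := fun r : (ℕ × ℕ × List Bool) × Log => r.1 ∈ r.2)
      (f := fun q : ℕ × ℕ × (ℕ × List Bool) × ℕ => ((q.1, q.2.2.1.1, q.2.2.1.2), (S q.2.1).2.2))
      (LimP.of_primrec primrec_memT)
      (LimF.pair (LimF.prim (Primrec.pair Primrec.fst
        (Primrec.fst.comp (Primrec.snd.comp Primrec.snd))))
        (LimF.comp (f := fun T : St => T.2.2) (g := fun q : ℕ × ℕ × (ℕ × List Bool) × ℕ =>
          S q.2.1) (LimF.prim (Primrec.snd.comp Primrec.snd))
          (LimF.comp (f := S) (g := fun q : ℕ × ℕ × (ℕ × List Bool) × ℕ => q.2.1) hS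
            (LimF.prim (Primrec.fst.comp Primrec.snd)))))
  have h2 : LimP (fun q : ℕ × ℕ × (ℕ × List Bool) × ℕ =>
      Stab (rb q.2.2.1.1) (encode (q.1, q.2.2.1.2)) q.2.2.2 0) :=
    LimP.comp (p := fun q : Code × ℕ × ℕ × ℕ => Stab q.1 q.2.1 q.2.2.1 q.2.2.2)
      (f := fun q : ℕ × ℕ × (ℕ × List Bool) × ℕ =>
        (rb q.2.2.1.1, encode (q.1, q.2.2.1.2), q.2.2.2, 0)) limP_stab
      (LimF.prim (Primrec.pair (primrec_rb.comp (Primrec.fst.comp (Primrec.fst.comp
        (Primrec.snd.comp Primrec.snd)))) (Primrec.pair (Primrec.encode.comp (Primrec.pair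
          Primrec.fst (Primrec.snd.comp (Primrec.fst.comp (Primrec.snd.comp Primrec.snd)))))
          (Primrec.pair (Primrec.snd.comp (Primrec.snd.comp Primrec.snd)) (Primrec.const 0)))))
  exact (LimP.sig (h1.and h2)).ex

/-- the diagonalisation -/
theorem not_red {A Y : ℕ → Bool} {S : ℕ → St} (R : RunS A Y S) (hS : LimF S) {B : ℕ → Bool}
    (hB : Diag S B) : ¬ ∃ (g : ℕ → ℕ) (F : ℕ × List Bool → Bool), LimF g ∧ LimF F ∧
      ∀ n, jump (jump zeroO) n = F (n, JumpDeg.pre (jump B) (g n)) := by
  rintro ⟨g, F, hg, hF, hn⟩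
  obtain ⟨c, hc⟩ := sig_smn (sig_EE hS)
  have hqc : LimF (fun n : ℕ => qq c n) :=
    LimF.prim (primrec_qq.comp (Primrec.const c) Primrec.id)
  obtain ⟨j, h1, h2, h3⟩ := exists_req (g := fun n => g (qq c n))
    (F := fun q : ℕ × List Bool => F (qq c q.1, q.2)) (LimF.comp hg hqc)
    (LimF.comp (f := F) (g := fun q : ℕ × List Bool => (qq c q.1, q.2)) hF
      (LimF.prim (Primrec.pair (primrec_qq.comp (Primrec.const c) Primrec.fst) Primrec.snd)))
  obtain ⟨s, n, b, h4, ⟨t, h5⟩, h6⟩ := hB j h1
  have h7 := h2 n _ t h5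
  have h8 : EE S n ↔ F (qq c n, b) = true := by
    rw [hc _ rfl n, hn]
    rw [← h7, h6]
  have h9 : EE S n ↔ ∃ t, Stab (rb j) (encode (n, b)) t 0 := by
    constructor
    · rintro ⟨⟨s', ⟨i, b'⟩, t'⟩, h10, h11⟩
      simp only at h10 h11
      have h12 := R.log_uniq h10 h4 rfl
      simp only [Prod.mk.injEq, true_and] at h12
      obtain ⟨rfl, rfl⟩ := h12
      exact ⟨t', h11⟩
    · rintro ⟨t', ht'⟩
      exact ⟨(s, (j, b), t'), h4, ht'⟩
  rw [h3] at h9
  simp only at h9
  rw [h9] at h8
  cases h10 : F (qq c n, b) <;> simp [h10] at h8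

/-- the main theorem -/
theorem main {A : ℕ → Bool} (hA : LimF A) : ∃ B : ℕ → Bool, LimF B ∧
    (∀ N, ∃ y, N < y ∧ B y = true) ∧
    ((∀ y, B y = true → A y = true) ∨ (∀ y, B y = true → A y = false)) ∧
    ¬ ∃ (g : ℕ → ℕ) (F : ℕ × List Bool → Bool), LimF g ∧ LimF F ∧
      ∀ n, jump (jump zeroO) n = F (n, JumpDeg.pre (jump B) (g n)) := by
  classical
  obtain ⟨Y, hY, hsp⟩ := exists_split
  by_cases hD : Dense A Y
  · obtain ⟨F, hF1, hF2⟩ := exists_step hA hY
    let S : ℕ → St := fun n => Nat.rec ([], [], []) (fun n IH => F (n, IH)) n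
    have hS : LimF S := LimF.iter hF1
    have R : RunS A Y S := ⟨rfl, fun s => hF2 s (S s), hsp⟩
    obtain ⟨B, h1, h2, h3, h4⟩ := main_run R hS hD
    exact ⟨B, h1, h2, h3, not_red R hS h4⟩
  · unfold Dense at hD
    push Not at hD
    obtain ⟨L, hL, b, N, hN⟩ := hD
    let B : ℕ → Bool := fun x => decide (N ≤ x ∧ InR Y L x)
    have hred : Red B Y := by
      unfold Red
      have h1 : Sig {Y} (fun X (p : ℕ × Bool) =>
          (p.2 = true ∧ N ≤ p.1) ∧ InR X L p.1) := by
        refine (Sig.of_prim ((Primrec.eq.comp Primrec.snd (Primrec.const true)).and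
          (Primrec.nat_le.comp (Primrec.const N) Primrec.fst))).and ?_
        exact sig_inR.comp (f := fun p : ℕ × Bool => (L, p.1))
          (Primrec.pair (Primrec.const L) Primrec.fst)
      have h2 : Sig {Y} (fun X (p : ℕ × Bool) => p.2 = false ∧ ¬ N ≤ p.1) :=
        Sig.of_prim ((Primrec.eq.comp Primrec.snd (Primrec.const false)).and
          (Primrec.nat_le.comp (Primrec.const N) Primrec.fst).not)
      have h3 : ∀ L : List (ℕ × Bool), Sig {Y} (fun X (p : ℕ × Bool) =>
          p.2 = false ∧ ∃ r ∈ L, X (Nat.pair r.1 p.1) = !r.2) := by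
        intro L
        induction L with
        | nil =>
          refine (Sig.of_prim (p := fun _ : ℕ × Bool => False) ?_).congr ?_
          · exact (Primrec.eq.comp (Primrec.const 0) (Primrec.const 1)).of_eq (by simp)
          · rintro X _ p
            simp
        | cons r L ih =>
          have h4 : Sig {Y} (fun X (p : ℕ × Bool) => p.2 = false ∧
              X (Nat.pair r.1 p.1) = !r.2) :=
            (Sig.of_prim (Primrec.eq.comp Primrec.snd (Primrec.const false))).and
              (Sig.oracle (Primrec₂.natPair.comp (Primrec.const r.1) Primrec.fst)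
                (Primrec.const (!r.2)))
          refine (h4.or ih).congr ?_
          rintro X _ p
          simp only [List.mem_cons, exists_eq_or_imp]
          tauto
      refine ((h1.or h2).or (h3 L)).congr ?_
      rintro _ rfl ⟨x, v⟩
      simp only [B]
      cases v with
      | true => simp
      | false =>
        simp only [decide_eq_false_iff_not, Bool.false_eq_true, false_and, false_or, true_and]
        rw [not_and_or]
        apply or_congr Iff.rfl
        unfold InR
        push Not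
        constructor
        · rintro ⟨r, hr, h⟩
          exact ⟨r, hr, Bool.eq_not_iff.2 h⟩
        · rintro ⟨r, hr, h⟩
          refine ⟨r, hr, ?_⟩
          rw [h]
          cases r.2 <;> simp
    have hlow : Low B := hY.of_red hred
    refine ⟨B, LimF.of_low hlow, ?_, ?_, ?_⟩
    · intro M
      obtain ⟨x, hx1, hx2⟩ := hL (max N (M + 1))
      refine ⟨x, by omega, ?_⟩
      simp only [B, decide_eq_true_eq]
      exact ⟨(le_max_left _ _).trans hx1, hx2⟩
    · have key : ∀ y, B y = true → A y ≠ b := by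
        intro y hy
        simp only [B, decide_eq_true_eq] at hy
        exact hN y hy.1 hy.2
      cases b with
      | true => exact Or.inr fun y hy => by simpa using key y hy
      | false => exact Or.inl fun y hy => by simpa using key y hy
    · rintro ⟨g, F, hg, hF, hn⟩
      apply not_limF_jj
      have h1 : LimF (fun n : ℕ => F (n, JumpDeg.pre (jump B) (g n))) :=
        LimF.comp (f := F) (g := fun n : ℕ => (n, JumpDeg.pre (jump B) (g n))) hF
          (LimF.pair (LimF.of_computable Computable.id)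
            (LimF.comp (f := fun t : ℕ => JumpDeg.pre (jump B) t) (g := g) (LimF.pre hlow) hg))
      exact h1.congr fun n => (hn n).symm

end HighD3
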