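import Mathlib
import Pool.Agent.HighD3.Final

/-!
The main theorem for reductions by partial `0'`-computable functionals: the approximation `F'` of the
reduction has to converge at the true initial segments of the jump only.
-/

set_option autoImplicit false

namespace HighD3

open Encodable Denumerable Filter
open Nat.Partrec (Code)
open JumpDeg HighD2

/-- codes for a limit computable function and for a computable approximation -/
lemma exists_req_p {g : ℕ → ℕ} {F' : ℕ × List Bool → ℕ → Bool} (hg : LimF g)
    (hF : Computable₂ F') :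
    ∃ j, (∀ n, ∃ u s, Stab (ra j) n s u) ∧ (∀ n u s, Stab (ra j) n s u → u = g n) ∧
      ∀ n b, (∃ t, Stab (rb j) (encode (n, b)) t 0) ↔ ∀ᶠ s in atTop, F' (n, b) s = false := by
  obtain ⟨g', hg1, hg2⟩ := hg
  have h1 : Partrec (fun q : ℕ × ℕ => (Part.some (g' q.1 q.2) : Part ℕ)) := hg1.partrec
  have h2 : Partrec (fun q : (ℕ × List Bool) × ℕ => (Part.some (F' q.1 q.2) : Part Bool)) :=
    hF.partrec
  unfold Partrec at h1 h2
  obtain ⟨a, ha⟩ := Code.exists_code.1 h1
  obtain ⟨b, hb⟩ := Code.exists_code.1 h2
  have ha' : ∀ n t, a.eval (Nat.pair n t) = Part.some (g' n t) := by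
    intro n t
    have h3 : Nat.pair n t = encode (n, t) := rfl
    rw [h3, ha]
    simp only [encodek, Part.coe_some, Part.bind_some]
    simp
  have hb' : ∀ (x : ℕ × List Bool) t, b.eval (Nat.pair (encode x) t) =
      Part.some (encode (F' x t)) := by
    intro x t
    have h3 : Nat.pair (encode x) t = encode (x, t) := rfl
    rw [h3, hb]
    simp only [encodek, Part.coe_some, Part.bind_some]
    simp
  have hra : ra (Nat.pair (encode a) (Nat.pair (encode b) 0)) = a := by
    unfold ra
    simp
  have hrb : rb (Nat.pair (encode a) (Nat.pair (encode b) 0)) = b := by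
    unfold rb
    simp
  refine ⟨Nat.pair (encode a) (Nat.pair (encode b) 0), ?_, ?_, ?_⟩
  · intro n
    obtain ⟨s0, hs0⟩ := eventually_atTop.1 (hg2 n)
    refine ⟨g n, s0, ?_⟩
    rw [hra]
    intro t ht k w hw
    have h3 := Code.evaln_sound (Option.mem_def.2 hw)
    rw [ha', Part.mem_some_iff] at h3
    rw [h3, hs0 t ht]
  · intro n u s hs
    rw [hra] at hs
    obtain ⟨s0, hs0⟩ := eventually_atTop.1 (hg2 n)
    have h3 : g' n (max s s0) ∈ a.eval (Nat.pair n (max s s0)) := by
      rw [ha']
      exact Part.mem_some _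
    obtain ⟨k, hk⟩ := Code.evaln_complete.1 h3
    rw [← hs (max s s0) (le_max_left _ _) k _ (Option.mem_def.1 hk), hs0 _ (le_max_right _ _)]
  · intro n τ
    rw [hrb]
    constructor
    · rintro ⟨t, ht⟩
      rw [eventually_atTop]
      refine ⟨t, fun s hs => ?_⟩
      have h3 : encode (F' (n, τ) s) ∈ b.eval (Nat.pair (encode (n, τ)) s) := by
        rw [hb']
        exact Part.mem_some _
      obtain ⟨k, hk⟩ := Code.evaln_complete.1 h3
      have h4 := ht s hs k _ (Option.mem_def.1 hk)
      cases h5 : F' (n, τ) s with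
      | false => rfl
      | true =>
        rw [h5] at h4
        simp at h4
    · intro h5
      obtain ⟨s0, hs0⟩ := eventually_atTop.1 h5
      refine ⟨s0, fun t ht k w hw => ?_⟩
      have h3 := Code.evaln_sound (Option.mem_def.2 hw)
      rw [hb', Part.mem_some_iff, hs0 t ht] at h3
      rw [h3]
      rfl

/-- the diagonalisation, for partial reductions -/
theorem not_red_p {A Y : ℕ → Bool} {S : ℕ → St} (R : RunS A Y S) (hS : LimF S) {B : ℕ → Bool}
    (hB : Diag S B) : ¬ ∃ (g : ℕ → ℕ) (F' : ℕ × List Bool → ℕ → Bool), LimF g ∧ Computable₂ F' ∧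
      ∀ n, ∀ᶠ s in atTop, F' (n, JumpDeg.pre (jump B) (g n)) s = jump (jump zeroO) n := by
  rintro ⟨g, F', hg, hF, hn⟩
  obtain ⟨c, hc⟩ := sig_smn (sig_EE hS)
  have hqp : Primrec (fun n : ℕ => qq c n) := primrec_qq.comp (Primrec.const c) Primrec.id
  have hqc : LimF (fun n : ℕ => qq c n) := LimF.prim hqp
  have hF2 : Computable₂ (fun (q : ℕ × List Bool) (s : ℕ) => F' (qq c q.1, q.2) s) := by
    have h0 : Primrec (fun q : (ℕ × List Bool) × ℕ => ((qq c q.1.1, q.1.2) : ℕ × List Bool)) :=
      Primrec.pair (hqp.comp (Primrec.fst.comp Primrec.fst)) (Primrec.snd.comp Primrec.fst)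
    exact hF.comp h0.to_comp Computable.snd
  obtain ⟨j, h1, h2, h3⟩ := exists_req_p (g := fun n => g (qq c n))
    (F' := fun (q : ℕ × List Bool) (s : ℕ) => F' (qq c q.1, q.2) s) (LimF.comp hg hqc) hF2
  obtain ⟨s, n, b, h4, ⟨t, h5⟩, h6⟩ := hB j h1
  have h7 := h2 n _ t h5
  have h8 : ∀ᶠ s in atTop, F' (qq c n, b) s = jump (jump zeroO) (qq c n) := by
    have h := hn (qq c n)
    rw [← h7, h6] at h
    exact h
  have h9 : EE S n ↔ ∃ t, Stab (rb j) (encode (n, b)) t 0 := by
    constructor
    · rintro ⟨⟨s', ⟨i, b'⟩, t'⟩, h10, h11⟩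
      simp only at h10 h11
      have h12 := R.log_uniq h10 h4 rfl
      simp only [Prod.mk.injEq, true_and] at h12
      obtain ⟨rfl, rfl⟩ := h12
      exact ⟨t', h11⟩
    · rintro ⟨t', ht'⟩
      exact ⟨(s, (j, b), t'), h4, ht'⟩
  rw [h3] at h9
  simp only at h9
  have h10 : EE S n ↔ jump (jump zeroO) (qq c n) = true := hc _ rfl n
  cases h11 : jump (jump zeroO) (qq c n) with
  | true =>
    have h12 := h9.1 (h10.2 h11)
    rw [h11] at h8
    obtain ⟨s, hs1, hs2⟩ := (h12.and h8).exists
    rw [hs1] at hs2
    cases hs2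
  | false =>
    rw [h11] at h8
    have h12 := h10.1 (h9.2 h8)
    rw [h11] at h12
    cases h12

/-- the main theorem, for partial reductions -/
theorem main_p {A : ℕ → Bool} (hA : LimF A) : ∃ B : ℕ → Bool, LimF B ∧
    (∀ N, ∃ y, N < y ∧ B y = true) ∧
    ((∀ y, B y = true → A y = true) ∨ (∀ y, B y = true → A y = false)) ∧
    ¬ ∃ (g : ℕ → ℕ) (F' : ℕ × List Bool → ℕ → Bool), LimF g ∧ Computable₂ F' ∧
      ∀ n, ∀ᶠ s in atTop, F' (n, JumpDeg.pre (jump B) (g n)) s = jump (jump zeroO) n := by
  classical
  obtain ⟨Y, hY, hsp⟩ := exists_split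
  by_cases hD : Dense A Y
  · obtain ⟨F, hF1, hF2⟩ := exists_step hA hY
    let S : ℕ → St := fun n => Nat.rec ([], [], []) (fun n IH => F (n, IH)) n
    have hS : LimF S := LimF.iter hF1
    have R : RunS A Y S := ⟨rfl, fun s => hF2 s (S s), hsp⟩
    obtain ⟨B, h1, h2, h3, h4⟩ := main_run R hS hD
    exact ⟨B, h1, h2, h3, not_red_p R hS h4⟩
  · unfold Dense at hD
    push Not at hD
    obtain ⟨L, hL, b, N, hN⟩ := hD
    let B : ℕ → Bool := fun x => decide (N ≤ x ∧ InR Y L x)
    have hred : Red B Y := by
      unfold Red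
      have h1 : Sig {Y} (fun X (p : ℕ × Bool) =>
          (p.2 = true ∧ N ≤ p.1) ∧ InR X L p.1) := by
        refine (Sig.of_prim ((Primrec.eq.comp Primrec.snd (Primrec.const true)).and
          (Primrec.nat_le.comp (Primrec.const N) Primrec.fst))).and ?_
        exact sig_inR.comp (f := fun p : ℕ × Bool => (L, p.1))
          (Primrec.pair (Primrec.const L) Primrec.fst)
      have h2 : Sig {Y} (fun X (p : ℕ × Bool) => p.2 = false ∧ ¬ N ≤ p.1) :=
        Sig.of_prim ((Primrec.eq.comp Primrec.snd (Primrec.const false)).and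
          (Primrec.nat_le.comp (Primrec.const N) Primrec.fst).not)
      have h3 : ∀ L : List (ℕ × Bool), Sig {Y} (fun X (p : ℕ × Bool) =>
          p.2 = false ∧ ∃ r ∈ L, X (Nat.pair r.1 p.1) = !r.2) := by
        intro L
        induction L with
        | nil =>
          refine (Sig.of_prim (p := fun _ : ℕ × Bool => False) ?_).congr ?_
          · exact (Primrec.eq.comp (Primrec.const 0) (Primrec.const 1)).of_eq (by simp)
          · rintro X _ p
            simp
        | cons r L ih =>
          have h4 : Sig {Y} (fun X (p : ℕ × Bool) => p.2 = false ∧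
              X (Nat.pair r.1 p.1) = !r.2) :=
            (Sig.of_prim (Primrec.eq.comp Primrec.snd (Primrec.const false))).and
              (Sig.oracle (Primrec₂.natPair.comp (Primrec.const r.1) Primrec.fst)
                (Primrec.const (!r.2)))
          refine (h4.or ih).congr ?_
          rintro X _ p
          simp only [List.mem_cons, exists_eq_or_imp]
          tauto
      refine ((h1.or h2).or (h3 L)).congr ?_
      rintro _ rfl ⟨x, v⟩
      simp only [B]
      cases v with
      | true => simp
      | false =>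
        simp only [decide_eq_false_iff_not, Bool.false_eq_true, false_and, false_or, true_and]
        rw [not_and_or]
        apply or_congr Iff.rfl
        unfold InR
        push Not
        constructor
        · rintro ⟨r, hr, h⟩
          exact ⟨r, hr, Bool.eq_not_iff.2 h⟩
        · rintro ⟨r, hr, h⟩
          refine ⟨r, hr, ?_⟩
          rw [h]
          cases r.2 <;> simp
    have hlow : Low B := hY.of_red hred
    refine ⟨B, LimF.of_low hlow, ?_, ?_, ?_⟩
    · intro M
      obtain ⟨x, hx1, hx2⟩ := hL (max N (M + 1))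
      refine ⟨x, by omega, ?_⟩
      simp only [B, decide_eq_true_eq]
      exact ⟨(le_max_left _ _).trans hx1, hx2⟩
    · have key : ∀ y, B y = true → A y ≠ b := by
        intro y hy
        simp only [B, decide_eq_true_eq] at hy
        exact hN y hy.1 hy.2
      cases b with
      | true => exact Or.inr fun y hy => by simpa using key y hy
      | false => exact Or.inl fun y hy => by simpa using key y hy
    · rintro ⟨g, F', hg, hF, hn⟩
      apply not_limF_jj
      have h1 : LimF (fun n : ℕ => (n, JumpDeg.pre (jump B) (g n))) :=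
        LimF.pair (LimF.of_computable Computable.id)
          (LimF.comp (f := fun t : ℕ => JumpDeg.pre (jump B) t) (g := g) (LimF.pre hlow) hg)
      obtain ⟨a, ha1, ha2⟩ := h1
      refine ⟨fun n s => F' (a n s) s, hF.comp ha1 Computable.snd, fun n => ?_⟩
      filter_upwards [ha2 n, hn n] with s h3 h4
      rw [h3, h4]

end HighD3
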